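import Pool.Agent.Lib_MP_1209e6_sl.T3
import Pool.Agent.Lib_MP_1209e6_fl.E6

/-!
# The special side for finitely many covering families (MP_1209e6_ag, Theorem K)

`K` is a finitely generated field over `ℂ`; `L i` are finite extensions of `K`, and `L i` is the function
field of an almost homogeneous variety over `k i`. If each `u ∈ K` which is algebraic over all `k i` is
constant, then `K` is special.
-/

set_option autoImplicit false

namespace Pool.Agent.K3

open Pool.Agent.Campana Pool.Agent.CampanaFlow Pool.Agent.AbPencil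

/-- all derivations have bounded poles on `O` -/
def Bounded {M : Type} [Field M] [Algebra ℂ M] (O : ValuationSubring M) : Prop :=
  ∀ D : Derivation ℂ M M, ∃ b : M, b ≠ 0 ∧ ∀ a ∈ O, b * D a ∈ O

/-- the pull back of a regular section is regular at all places for which all derivations have bounded
poles (`sl_transfer` with a weaker hypothesis on the place, same proof) -/
theorem transfer {K M : Type} [Field K] [Algebra ℂ K] [Field M] [Algebra ℂ M] [Algebra K M]
    [IsScalarTower ℂ K M] (hfg : ∃ T : Finset K, IntermediateField.adjoin ℂ (T : Set K) = ⊤)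
    (hext : ∀ E : Derivation ℂ K K, ∃ D : Derivation ℂ M M, ∀ a : K,
      D (algebraMap K M a) = algebraMap K M (E a)) {p : ℕ} {ω : Form K p} {ω' : Form M p}
    (h : IsPull ω ω') (m : ℕ) (f : K)
    (hreg : ∀ O : ValuationSubring K, IsPlace O → RegularAt O ω m f) (O' : ValuationSubring M)
    (hO' : IsPlace O') (hbO' : Bounded O') : RegularAt O' ω' m (algebraMap K M f) := by
  obtain ⟨v', hv'⟩ := place_order O' hO'
  have hinj : ∀ x : K, x ≠ 0 → algebraMap K M x ≠ 0 := fun x hx => (map_ne_zero _).2 hx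
  by_cases hw : ∀ x : K, x ≠ 0 → v' (algebraMap K M x) = 0
  · -- `K` is contained in `O'`
    have hmem : ∀ x : K, algebraMap K M x ∈ O' := by
      intro x
      by_cases hx : x = 0
      · rw [hx, map_zero]
        exact zero_mem _
      · rw [hv'.2.1 _ (hinj x hx), hw x hx]
    obtain ⟨n, y, E, hy⟩ := sl_exists_dual hfg
    refine ⟨1, one_ne_zero, fun D hD => ?_, ?_⟩
    · rw [h n y E hy D, inv_one, one_mul]
      exact sum_mem fun J _ => mul_mem (hmem _) (prod_mem fun i _ => hD i _ (hmem _))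
    · rw [one_pow, mul_one]
      exact hmem f
  · push Not at hw
    obtain ⟨O, hO, e, v, he, hv, hwv⟩ := place_of_val (fun x : K => v' (algebraMap K M x))
      (fun x y hx hy => by
        simp only [map_mul]
        exact hv'.1 _ _ (hinj x hx) (hinj y hy))
      (fun x y hx hy hxy => by
        simp only [map_add]
        have h0 : algebraMap K M x + algebraMap K M y ≠ 0 := by
          rw [← map_add]
          exact hinj _ hxy
        rcases hv'.le_add (B := min (v' (algebraMap K M x)) (v' (algebraMap K M y)))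
          (Or.inr (min_le_left _ _)) (Or.inr (min_le_right _ _)) with h1 | h1
        · exact absurd h1 h0
        · exact h1)
      (fun c hc => by
        have h1 : algebraMap K M (algebraMap ℂ K c) ∈ O' := by
          rw [← IsScalarTower.algebraMap_apply]
          exact hO'.1 c
        have h2 : algebraMap K M (algebraMap ℂ K c⁻¹) ∈ O' := by
          rw [← IsScalarTower.algebraMap_apply]
          exact hO'.1 c⁻¹
        have h3 : algebraMap ℂ K c ≠ 0 := (map_ne_zero _).2 hc
        rw [map_inv₀, map_inv₀] at h2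
        rw [hv'.mem_iff (hinj _ h3)] at h1
        rw [hv'.mem_iff (inv_ne_zero (hinj _ h3)), hv'.map_inv (hinj _ h3)] at h2
        show v' (algebraMap K M (algebraMap ℂ K c)) = 0
        omega) hw
    have hmem : ∀ x : K, x ∈ O ↔ algebraMap K M x ∈ O' := by
      intro x
      by_cases hx : x = 0
      · rw [hx, map_zero]
        exact ⟨fun _ => zero_mem _, fun _ => zero_mem _⟩
      · rw [hv.mem_iff hx, hv'.mem_iff (hinj x hx)]
        have h1 : v' (algebraMap K M x) = e * v x := hwv x hx
        rw [h1]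
        constructor
        · intro h2
          positivity
        · intro h2
          by_contra h3
          have h4 : e * v x < 0 := mul_neg_of_pos_of_neg (by omega) (by omega)
          omega
    obtain ⟨t, ht0, htv⟩ := hv.2.2
    have hbd : ∀ E : Derivation ℂ K K, ∃ b : K, b ≠ 0 ∧ ∀ a ∈ O, b * E a ∈ O := by
      intro E
      obtain ⟨D, hD⟩ := hext E
      obtain ⟨b', hb'0, hb'⟩ := hbO' D
      refine ⟨t ^ (v' b').natAbs, pow_ne_zero _ ht0, fun a ha => ?_⟩
      rw [hmem, map_mul, ← hD]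
      have h1 := hb' _ ((hmem a).1 ha)
      by_cases h0 : D (algebraMap K M a) = 0
      · rw [h0, mul_zero]
        exact zero_mem _
      · have h2 : algebraMap K M (t ^ (v' b').natAbs) ≠ 0 := hinj _ (pow_ne_zero _ ht0)
        rw [hv'.mem_iff (mul_ne_zero hb'0 h0), hv'.map_mul hb'0 h0] at h1
        rw [hv'.mem_iff (mul_ne_zero h2 h0), hv'.map_mul h2 h0]
        have h3 : v' (algebraMap K M (t ^ (v' b').natAbs)) = e * v (t ^ (v' b').natAbs) :=
          hwv _ (pow_ne_zero _ ht0)
        rw [h3, hv.map_pow ht0, htv]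
        have h4 : v' b' ≤ ((v' b').natAbs : ℤ) := Int.le_natAbs
        have h5 : ((v' b').natAbs : ℤ) ≤ e * (((v' b').natAbs : ℕ) * 1) := by
          rw [mul_one]
          have h6 : (0 : ℤ) ≤ ((v' b').natAbs : ℤ) := Int.natCast_nonneg _
          nlinarith
        omega
    obtain ⟨n, y, E, hy, hyO, hE⟩ := sl_basis hfg O hO hbd
    obtain ⟨u, hu0, hu, hfu⟩ := hreg O hO
    refine ⟨algebraMap K M u, hinj u hu0, fun D hD => ?_, ?_⟩
    · rw [h n y E hy D, Finset.mul_sum]
      refine sum_mem fun J _ => ?_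
      rw [← mul_assoc]
      refine mul_mem ?_ (prod_mem fun i _ => hD i _ ((hmem _).1 (hyO _)))
      rw [← map_inv₀, ← map_mul, ← hmem]
      exact hu _ fun i a ha => hE _ a ha
    · rw [← map_pow, ← map_mul, ← hmem]
      exact hfu

/-- a common denominator in `O` -/
theorem exists_denom {M : Type} [Field M] [Algebra ℂ M] (O : ValuationSubring M) (c : M) :
    ∃ b ∈ O, b ≠ 0 ∧ b * c ∈ O := by
  by_cases hc : c ∈ O
  · exact ⟨1, O.one_mem, one_ne_zero, by rwa [one_mul]⟩
  · have hc0 : c ≠ 0 := fun h => hc (h ▸ O.zero_mem)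
    refine ⟨c⁻¹, (O.mem_or_inv_mem c).resolve_left hc, inv_ne_zero hc0, ?_⟩
    rw [inv_mul_cancel₀ hc0]
    exact O.one_mem

theorem exists_denoms {M : Type} [Field M] [Algebra ℂ M] (O : ValuationSubring M) (g : M → M)
    (T : Finset M) : ∃ b ∈ O, b ≠ 0 ∧ ∀ a ∈ T, b * g a ∈ O := by
  classical
  induction T using Finset.induction_on with
  | empty => exact ⟨1, O.one_mem, one_ne_zero, fun a ha => absurd ha (Finset.notMem_empty a)⟩
  | insert x s hx ih =>
    obtain ⟨b, hb, hb0, h⟩ := ih
    obtain ⟨b', hb', hb0', h'⟩ := exists_denom O (g x)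
    refine ⟨b * b', O.mul_mem _ _ hb hb', mul_ne_zero hb0 hb0', fun a ha => ?_⟩
    rcases Finset.mem_insert.1 ha with rfl | ha
    · rw [mul_assoc]
      exact O.mul_mem _ _ hb h'
    · rw [mul_comm b b', mul_assoc]
      exact O.mul_mem _ _ hb' (h a ha)

/-- at a localisation of a ring of finite type over a subfield `k` all derivations have bounded poles -/
theorem bounded_of_loc {M : Type} [Field M] [Algebra ℂ M] [FinTrdeg ℂ M]
    (k : IntermediateField ℂ M) (O : ValuationSubring M) (hO : IsPlace O) (T : Finset M)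
    (hTO : ∀ r ∈ Algebra.adjoin ℂ ((k : Set M) ∪ T), r ∈ O)
    (hloc : ∀ z ∈ O, ∃ b ∈ Algebra.adjoin ℂ ((k : Set M) ∪ T),
      ∃ s ∈ Algebra.adjoin ℂ ((k : Set M) ∪ T), s ≠ 0 ∧ s⁻¹ ∈ O ∧ z = b / s) : Bounded O := by
  have hker : ∀ D : Derivation ℂ M M, (∀ z ∈ k, D z = 0) →
      ∃ b ∈ O, b ≠ 0 ∧ ∀ a ∈ O, b * D a ∈ O := by
    intro D hD
    obtain ⟨b, hb, hb0, hbT⟩ := exists_denoms O D T
    have h1 : ∀ r ∈ Algebra.adjoin ℂ ((k : Set M) ∪ T), b * D r ∈ O := by
      intro r hr
      induction hr using Algebra.adjoin_induction with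
      | mem z hz =>
        rcases hz with hz | hz
        · rw [hD z hz, mul_zero]
          exact O.zero_mem
        · exact hbT z hz
      | algebraMap c =>
        rw [Derivation.map_algebraMap, mul_zero]
        exact O.zero_mem
      | add x y _ _ hx hy =>
        rw [map_add, mul_add]
        exact O.add_mem _ _ hx hy
      | mul x y hx' hy' hx hy =>
        rw [Derivation.leibniz, smul_eq_mul, smul_eq_mul]
        have e1 : b * (x * D y + y * D x) = x * (b * D y) + y * (b * D x) := by ring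
        rw [e1]
        exact O.add_mem _ _ (O.mul_mem _ _ (hTO x hx') hy) (O.mul_mem _ _ (hTO y hy') hx)
    refine ⟨b, hb, hb0, fun a ha => ?_⟩
    obtain ⟨r, hr, s, hs, hs0, hs', rfl⟩ := hloc a ha
    have h3 : b * D (r / s) = s⁻¹ * (b * D r) - r * (s⁻¹ * s⁻¹) * (b * D s) := by
      rw [Derivation.leibniz_div]
      simp only [smul_eq_mul]
      field_simp
    rw [h3]
    exact sub_mem (O.mul_mem _ _ hs' (h1 r hr)) (O.mul_mem _ _ (O.mul_mem _ _ (hTO r hr)
      (O.mul_mem _ _ hs' hs')) (h1 s hs))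
  have key : ∀ D : Derivation ℂ M M, ∃ b ∈ O, b ≠ 0 ∧ ∀ a ∈ O, b * D a ∈ O := by
    intro D
    have hD : D ∈ Submodule.span M {E : Derivation ℂ M M | ∀ z ∈ k, E z ∈ k} := by
      rw [span_lifts k]
      trivial
    induction hD using Submodule.span_induction with
    | mem E hE =>
      obtain ⟨E', hE'k, hE'O⟩ := exists_lift k O hO T hTO hloc E hE
      obtain ⟨b, hb, hb0, h1⟩ := hker (E - E') fun z hz => by
        rw [Derivation.sub_apply, hE'k z hz, sub_self]
      refine ⟨b, hb, hb0, fun a ha => ?_⟩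
      have h2 : b * E a = b * (E - E') a + b * E' a := by
        rw [Derivation.sub_apply]
        ring
      rw [h2]
      exact O.add_mem _ _ (h1 a ha) (O.mul_mem _ _ hb (hE'O a ha))
    | zero =>
      exact ⟨1, O.one_mem, one_ne_zero, fun a _ => by
        rw [Derivation.zero_apply, mul_zero]
        exact O.zero_mem⟩
    | add x y _ _ hx hy =>
      obtain ⟨b, hb, hb0, h1⟩ := hx
      obtain ⟨b', hb', hb0', h1'⟩ := hy
      refine ⟨b * b', O.mul_mem _ _ hb hb', mul_ne_zero hb0 hb0', fun a ha => ?_⟩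
      rw [Derivation.add_apply, mul_add]
      refine O.add_mem _ _ ?_ ?_
      · rw [mul_comm b b', mul_assoc]
        exact O.mul_mem _ _ hb' (h1 a ha)
      · rw [mul_assoc]
        exact O.mul_mem _ _ hb (h1' a ha)
    | smul c x _ hx =>
      obtain ⟨b, hb, hb0, h1⟩ := hx
      obtain ⟨b', hb', hb0', h1'⟩ := exists_denom O c
      refine ⟨b * b', O.mul_mem _ _ hb hb', mul_ne_zero hb0 hb0', fun a ha => ?_⟩
      have h2 : b * b' * (c • x) a = (b' * c) * (b * x a) := by
        rw [Derivation.smul_apply, smul_eq_mul]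
        ring
      rw [h2]
      exact O.mul_mem _ _ h1' (h1 a ha)
  intro D
  obtain ⟨b, -, hb0, h⟩ := key D
  exact ⟨b, hb0, h⟩

/-- `mem_intCl_chart` where only places with bounded derivations are used -/
theorem mem_intCl_chart' {M : Type} [Field M] [Algebra ℂ M] [FinTrdeg ℂ M]
    (k : IntermediateField ℂ M) {N : ℕ}
    (x : Fin (N + 1) → M) (h : AlmostHomogeneous k x) {p m : ℕ} (ω : Form M p)
    (w : Fin p → Derivation ℂ M M) (hw : ∀ a, ∀ z ∈ k, w a z ∈ k)
    (hww : ∀ w' : Fin p → Derivation ℂ M M,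
      (∀ a, w a ∈ {D : Derivation ℂ M M | GlobalField k x D} → w' a = w a) →
        (∀ a, ∀ z ∈ k, w' a z = w a z) → ω w' = ω w) (f : M)
    (hreg : ∀ O : ValuationSubring M, IsPlace O → Bounded O → RegularAt O ω m f)
    (j : Fin (N + 1)) :
    f * (ω w) ^ m ∈ intCl (Chart k x j) := by
  classical
  by_contra hcon
  obtain ⟨S, hS⟩ := chart_eq k x j
  have hfrac := chart_frac k x h.ne_zero h.gen j
  have hfracS : ∀ a : M, ∃ b ∈ Algebra.adjoin ℂ ((k : Set M) ∪ S),
      ∃ c ∈ Algebra.adjoin ℂ ((k : Set M) ∪ S), c ≠ 0 ∧ a = b / c := by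
    rw [← hS]
    exact hfrac
  obtain ⟨T, hT⟩ := exists_generators k S hfracS
  rw [← hS] at hT
  have hnoeth : IsNoetherianRing (intCl (Chart k x j)) := by
    rw [hT]
    exact isNoetherianRing_adjoin k T
  have hnoethC : IsNoetherianRing (Chart k x j) := by
    rw [hS]
    exact isNoetherianRing_adjoin k S
  obtain ⟨O, hdvr, hBO, hgO, hloc⟩ := exists_dvr (intCl (Chart k x j)) hnoeth
    (fun a => by
      obtain ⟨b, hb, c, hc, hc0, hac⟩ := hfrac a
      exact ⟨b, le_intCl _ hb, c, le_intCl _ hc, hc0, hac⟩)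
    (intCl_integrallyClosed _) _ hcon
  have hO : IsPlace O := ⟨fun c => hBO _ (Subalgebra.algebraMap_mem _ c), hdvr⟩
  have hTO : ∀ r ∈ Algebra.adjoin ℂ ((k : Set M) ∪ T), r ∈ O := by
    rw [← hT]
    exact hBO
  have hlocT : ∀ z ∈ O, ∃ b ∈ Algebra.adjoin ℂ ((k : Set M) ∪ T),
      ∃ s ∈ Algebra.adjoin ℂ ((k : Set M) ∪ T), s ≠ 0 ∧ s⁻¹ ∈ O ∧ z = b / s := by
    rw [← hT]
    exact hloc
  have hex : ∀ a, ∃ E' : Derivation ℂ M M, (∀ z ∈ k, E' z = w a z) ∧ ∀ z ∈ O, E' z ∈ O :=
    fun a => exists_lift k O hO T hTO hlocT (w a) (hw a)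
  choose E' hE'k hE'O using hex
  set w' : Fin p → Derivation ℂ M M := fun a =>
    if w a ∈ {D : Derivation ℂ M M | GlobalField k x D} then w a else E' a with hw'
  have hval : ω w' = ω w := by
    apply hww
    · intro a ha
      simp only [hw', if_pos ha]
    · intro a z hz
      simp only [hw']
      split_ifs
      · rfl
      · exact hE'k a z hz
  have hpres : ∀ a, ∀ z ∈ O, w' a z ∈ O := by
    intro a
    simp only [hw']
    split_ifs with ha
    · intro z hz
      have h1 := seidenberg (w a) (Chart k x j) hnoethC hfrac (ha.2 j)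
      obtain ⟨b, hb, s, hs, hs0, hs', rfl⟩ := hloc z hz
      have h3 : w a (b / s) = s⁻¹ * (w a b) - b * (s⁻¹ * s⁻¹) * (w a s) := by
        rw [Derivation.leibniz_div]
        simp only [smul_eq_mul]
        field_simp
      rw [h3]
      exact sub_mem (O.mul_mem _ _ hs' (hBO _ (h1 b hb))) (O.mul_mem _ _ (O.mul_mem _ _ (hBO b hb)
        (O.mul_mem _ _ hs' hs')) (hBO _ (h1 s hs)))
    · exact hE'O a
  obtain ⟨u, hu0, hu, hfu⟩ := hreg O hO (bounded_of_loc k O hO T hTO hlocT)
  have h4 := hu w' hpres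
  rw [hval] at h4
  apply hgO
  have h5 : f * (ω w) ^ m = (f * u ^ m) * (u⁻¹ * ω w) ^ m := by
    rw [mul_pow, inv_pow]
    have := pow_ne_zero m hu0
    field_simp
  rw [h5]
  exact O.mul_mem _ _ hfu (pow_mem h4 m)

/-- `isAlgebraic_ratio` where only places with bounded derivations are used -/
theorem isAlgebraic_ratio' {M : Type} [Field M] [Algebra ℂ M]
    (hfg : ∃ T : Finset M, IntermediateField.adjoin ℂ (T : Set M) = ⊤)
    (k : IntermediateField ℂ M) {N : ℕ} (x : Fin (N + 1) → M) (h : AlmostHomogeneous k x)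
    {p m : ℕ} (ω : Form M p) (hω : ω ≠ 0) (f₀ f₁ : M) (hf₀ : f₀ ≠ 0)
    (hreg : ∀ O : ValuationSubring M, IsPlace O → Bounded O →
      RegularAt O ω m f₀ ∧ RegularAt O ω m f₁) :
    IsAlgebraic k (f₁ / f₀) := by
  have hess : Algebra.EssFiniteType ℂ M := IntermediateField.fg_top_iff.1 hfg
  have : FinTrdeg ℂ M := inferInstance
  obtain ⟨w, hw, hw0, hww⟩ := exists_contraction ω hω k (span_lifts k)
    {D : Derivation ℂ M M | GlobalField k x D} (fun D hD z hz => hD.1 z hz) h.span
  have h0 := isAlgebraic_of_charts k x h.ne_zero _ fun j =>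
    mem_intCl_chart' k x h ω w hw hww f₀ (fun O hO hb => (hreg O hO hb).1) (m := m) j
  have h1 := isAlgebraic_of_charts k x h.ne_zero _ fun j =>
    mem_intCl_chart' k x h ω w hw hww f₁ (fun O hO hb => (hreg O hO hb).2) (m := m) j
  have h2 : f₁ / f₀ = (f₁ * ω w ^ m) * (f₀ * ω w ^ m)⁻¹ := by
    have := pow_ne_zero m hw0
    field_simp
  rw [h2]
  exact h1.mul h0.inv

/-- derivations extend to finite extensions -/
theorem exists_ext {K M : Type} [Field K] [Algebra ℂ K] [Field M] [Algebra ℂ M] [Algebra K M]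
    [IsScalarTower ℂ K M] [FiniteDimensional K M] (E : Derivation ℂ K K) :
    ∃ D : Derivation ℂ M M, ∀ a : K, D (algebraMap K M a) = algebraMap K M (E a) := by
  have : CharZero K := charZero_of_injective_algebraMap (algebraMap ℂ K).injective
  have : Algebra.IsAlgebraic K M := Algebra.IsAlgebraic.of_finite K M
  have : Algebra.IsSeparable K M := inferInstance
  have : Algebra.FormallyEtale K M := Algebra.FormallyEtale.of_isSeparable K M
  let d : Derivation ℂ K M := Derivation.mk'
    (((IsScalarTower.toAlgHom ℂ K M).toLinearMap).comp (E : K →ₗ[ℂ] K))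
    (by
      intro a b
      change algebraMap K M (E (a * b)) = a • algebraMap K M (E b) + b • algebraMap K M (E a)
      rw [Derivation.leibniz, smul_eq_mul, smul_eq_mul, map_add, map_mul, map_mul,
        Algebra.smul_def, Algebra.smul_def])
  obtain ⟨D, hD⟩ := extend_of_formallyEtale d
  exact ⟨D, fun a => hD a⟩

/-- ratios of regular sections on `K` are algebraic over `k` in the finite extension `M` -/
theorem ratio_cover {K M : Type} [Field K] [Algebra ℂ K] [Field M] [Algebra ℂ M] [Algebra K M]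
    [IsScalarTower ℂ K M] [FiniteDimensional K M]
    (hfg : ∃ T : Finset K, IntermediateField.adjoin ℂ (T : Set K) = ⊤)
    (k : IntermediateField ℂ M) {N : ℕ} (x : Fin (N + 1) → M) (h : AlmostHomogeneous k x)
    {p m : ℕ} (ω : Form K p) (hω : ω ≠ 0) (f₀ f₁ : K) (hf₀ : f₀ ≠ 0)
    (hreg : ∀ O : ValuationSubring K, IsPlace O → RegularAt O ω m f₀ ∧ RegularAt O ω m f₁) :
    IsAlgebraic k (algebraMap K M (f₁ / f₀)) := by
  have hessK : Algebra.EssFiniteType ℂ K := IntermediateField.fg_top_iff.1 hfg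
  have hessM : Algebra.EssFiniteType ℂ M := Algebra.EssFiniteType.comp ℂ K M
  have hfgM : ∃ T : Finset M, IntermediateField.adjoin ℂ (T : Set M) = ⊤ :=
    IntermediateField.fg_top_iff.2 hessM
  have hext : ∀ E : Derivation ℂ K K, ∃ D : Derivation ℂ M M, ∀ a : K,
      D (algebraMap K M a) = algebraMap K M (E a) := fun E => exists_ext E
  obtain ⟨ω', hω'⟩ := sl_exists_pull (M := M) hfg ω
  have hne : ω' ≠ 0 := by
    rintro rfl
    apply hω
    ext E
    choose D hD using fun i => hext (E i)
    have h1 := sl_pull_apply hfg hω' E D hD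
    rw [AlternatingMap.zero_apply] at h1
    rw [AlternatingMap.zero_apply]
    exact ((map_eq_zero _).1 h1.symm)
  rw [map_div₀]
  exact isAlgebraic_ratio' hfgM k x h ω' hne (algebraMap K M f₀) (algebraMap K M f₁)
    ((map_ne_zero _).2 hf₀) fun O hO hb =>
      ⟨transfer hfg hext hω' m f₀ (fun O hO => (hreg O hO).1) O hO hb,
        transfer hfg hext hω' m f₁ (fun O hO => (hreg O hO).2) O hO hb⟩

/-- THEOREM S: the special half. -/
theorem special_covers {K : Type} [Field K] [Algebra ℂ K]
    (hfg : ∃ T : Finset K, IntermediateField.adjoin ℂ (T : Set K) = ⊤)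
    {r : ℕ} (L : Fin r → Type) [∀ i, Field (L i)] [∀ i, Algebra ℂ (L i)] [∀ i, Algebra K (L i)]
    [∀ i, IsScalarTower ℂ K (L i)] [∀ i, FiniteDimensional K (L i)]
    (k : ∀ i, IntermediateField ℂ (L i)) (N : Fin r → ℕ) (x : ∀ i, Fin (N i + 1) → L i)
    (h : ∀ i, AlmostHomogeneous (k i) (x i))
    (hc : ∀ u : K, (∀ i, IsAlgebraic (k i) (algebraMap K (L i) u)) →
      ∃ c : ℂ, u = algebraMap ℂ K c) :
    SpecialField K := by
  intro p hp ω hω m hm f₀ hf₀ f hreg hind
  have i0 : Fin p := ⟨0, hp⟩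
  obtain ⟨c, hc'⟩ := hc (f i0 / f₀) fun i =>
    ratio_cover hfg (k i) (x i) (h i) ω hω f₀ (f i0) hf₀ fun O hO =>
      ⟨(hreg O hO).1, (hreg O hO).2 i0⟩
  have h1 := hind.transcendental i0
  apply h1
  simp only [hc']
  exact isAlgebraic_algebraMap c

end Pool.Agent.K3
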