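import Mathlib

/-!
# Two homomorphisms into a normed algebra close to an unramified point

`S` is a finitely generated algebra, unramified over the elements `y j` at the point `m`. Two
homomorphisms of `S` into a normed algebra which are close to `m` and agree on the `y j` are equal.
-/

set_option autoImplicit false

namespace Pool.Agent.K3Node

section

variable {S : Type} [CommRing S] [Algebra ℂ S] {ι : Type} [Fintype ι]

/-- every element of `S` is a Lipschitz function of the generators, near the point `m` -/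
theorem exists_bound (f : ι → S) (hf : Algebra.adjoin ℂ (Set.range f) = ⊤) (m : S →ₐ[ℂ] ℂ)
    (g : S) : ∃ C : ℝ, 0 ≤ C ∧ ∀ (W : Type) [NormedCommRing W] [NormedAlgebra ℂ W]
      [NormOneClass W] (φ ψ : S →ₐ[ℂ] W) (N : ℝ), 0 ≤ N → (∀ i, ‖φ (f i)‖ ≤ 1 + ‖m (f i)‖) →
      (∀ i, ‖ψ (f i)‖ ≤ 1 + ‖m (f i)‖) → (∀ i, ‖φ (f i) - ψ (f i)‖ ≤ N) →
      ‖φ g‖ ≤ C ∧ ‖φ g - ψ g‖ ≤ C * N := by
  have hg : g ∈ Algebra.adjoin ℂ (Set.range f) := by rw [hf]; trivial
  induction hg using Algebra.adjoin_induction with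
  | mem x hx =>
    obtain ⟨i, rfl⟩ := hx
    refine ⟨1 + ‖m (f i)‖, by positivity, ?_⟩
    intro W _ _ _ φ ψ N hN h1 h2 h3
    refine ⟨h1 i, (h3 i).trans ?_⟩
    nlinarith [norm_nonneg (m (f i))]
  | algebraMap r =>
    refine ⟨‖r‖, norm_nonneg _, ?_⟩
    intro W _ _ _ φ ψ N hN h1 h2 h3
    rw [AlgHom.commutes, AlgHom.commutes, sub_self, norm_zero, norm_algebraMap']
    exact ⟨le_rfl, by positivity⟩
  | add x y _ _ hx hy =>
    obtain ⟨C1, hC1, h1⟩ := hx
    obtain ⟨C2, hC2, h2⟩ := hy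
    refine ⟨C1 + C2, by positivity, ?_⟩
    intro W _ _ _ φ ψ N hN a b c
    obtain ⟨p1, q1⟩ := h1 W φ ψ N hN a b c
    obtain ⟨p2, q2⟩ := h2 W φ ψ N hN a b c
    constructor
    · rw [map_add]
      exact (norm_add_le _ _).trans (add_le_add p1 p2)
    · have e : φ (x + y) - ψ (x + y) = (φ x - ψ x) + (φ y - ψ y) := by
        rw [map_add, map_add]; ring
      rw [e, add_mul]
      exact (norm_add_le _ _).trans (add_le_add q1 q2)
  | mul x y _ _ hx hy =>
    obtain ⟨C1, hC1, h1⟩ := hx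
    obtain ⟨C2, hC2, h2⟩ := hy
    refine ⟨C1 * C2 + C1 * C2, by positivity, ?_⟩
    intro W _ _ _ φ ψ N hN a b c
    obtain ⟨p1, q1⟩ := h1 W φ ψ N hN a b c
    obtain ⟨p2, q2⟩ := h2 W φ ψ N hN a b c
    have p1' : ‖ψ x‖ ≤ C1 := (h1 W ψ φ N hN b a (fun i => by
      rw [norm_sub_rev]; exact c i)).1
    constructor
    · rw [map_mul]
      have h4 : ‖φ x * φ y‖ ≤ C1 * C2 :=
        (norm_mul_le _ _).trans (mul_le_mul p1 p2 (norm_nonneg _) hC1)
      have h5 : 0 ≤ C1 * C2 := by positivity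
      linarith
    · have e : φ (x * y) - ψ (x * y) = (φ x - ψ x) * φ y + ψ x * (φ y - ψ y) := by
        rw [map_mul, map_mul]; ring
      rw [e]
      refine (norm_add_le _ _).trans ?_
      have h4 : ‖(φ x - ψ x) * φ y‖ ≤ C1 * N * C2 :=
        (norm_mul_le _ _).trans (mul_le_mul q1 p2 (norm_nonneg _) (by positivity))
      have h5 : ‖ψ x * (φ y - ψ y)‖ ≤ C1 * (C2 * N) :=
        (norm_mul_le _ _).trans (mul_le_mul p1' q2 (norm_nonneg _) hC1)
      nlinarith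

/-- the point `m` as a homomorphism to `W` -/
noncomputable def pt (m : S →ₐ[ℂ] ℂ) (W : Type) [NormedCommRing W] [NormedAlgebra ℂ W] :
    S →ₐ[ℂ] W := (Algebra.ofId ℂ W).comp m

theorem pt_apply (m : S →ₐ[ℂ] ℂ) (W : Type) [NormedCommRing W] [NormedAlgebra ℂ W] (g : S) :
    pt m W g = algebraMap ℂ W (m g) := rfl

/-- **Unramified points**: homomorphisms close to `m` which agree on the coordinates `y`. -/
theorem hom_eq (f : ι → S) (hf : Algebra.adjoin ℂ (Set.range f) = ⊤) {κ : Type} [Fintype κ]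
    (y : κ → S) (m : S →ₐ[ℂ] ℂ)
    (hunr : ∀ i, ∃ h : S, m h ≠ 0 ∧ h * (f i - algebraMap ℂ S (m (f i))) ∈
      Ideal.span (Set.range fun j => y j - algebraMap ℂ S (m (y j)))) :
    ∃ ε : ℝ, 0 < ε ∧ ∀ (W : Type) [NormedCommRing W] [NormedAlgebra ℂ W] [NormOneClass W]
      (φ ψ : S →ₐ[ℂ] W), (∀ i, ‖φ (f i) - algebraMap ℂ W (m (f i))‖ ≤ ε) →
      (∀ i, ‖ψ (f i) - algebraMap ℂ W (m (f i))‖ ≤ ε) → (∀ j, φ (y j) = ψ (y j)) → φ = ψ := by
  classical
  choose h hh hspan using hunr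
  have hrep : ∀ i, ∃ a : κ → S, h i * (f i - algebraMap ℂ S (m (f i))) =
      ∑ j, a j * (y j - algebraMap ℂ S (m (y j))) := by
    intro i
    obtain ⟨a, ha⟩ := (Ideal.mem_span_range_iff_exists_fun).1 (hspan i)
    exact ⟨a, ha.symm⟩
  choose a ha using hrep
  choose C hC0 hC using fun g : S => exists_bound f hf m g
  -- the constants
  set k : ι → ℝ := fun i => (∑ j, C (a i j) * C (y j) + 2 * C (h i)) / ‖m (h i)‖ with hk
  have hk0 : ∀ i, 0 ≤ k i := fun i => by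
    have h2 : 0 ≤ ∑ j, C (a i j) * C (y j) := Finset.sum_nonneg fun j _ =>
      mul_nonneg (hC0 _) (hC0 _)
    have h3 := hC0 (h i)
    rw [hk]
    positivity
  set K : ℝ := ∑ i, k i with hK
  have hK0 : 0 ≤ K := Finset.sum_nonneg fun i _ => hk0 i
  refine ⟨min 1 (1 / (2 * (K + 1))), by positivity, ?_⟩
  intro W _ _ _ φ ψ h1 h2 h3
  set ε : ℝ := min 1 (1 / (2 * (K + 1))) with hε
  have hε0 : 0 ≤ ε := by positivity
  have hε1 : ε ≤ 1 := min_le_left _ _
  have hεK : ε * K ≤ 1 / 2 := by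
    have h4 : ε ≤ 1 / (2 * (K + 1)) := min_le_right _ _
    calc ε * K ≤ 1 / (2 * (K + 1)) * K := by gcongr
      _ = 1 / 2 * (K / (K + 1)) := by field_simp
      _ ≤ 1 / 2 * 1 := by
        gcongr
        rw [div_le_one (by positivity)]
        linarith
      _ = 1 / 2 := by ring
  have hnorm : ∀ χ : S →ₐ[ℂ] W, (∀ i, ‖χ (f i) - algebraMap ℂ W (m (f i))‖ ≤ ε) →
      ∀ i, ‖χ (f i)‖ ≤ 1 + ‖m (f i)‖ := by
    intro χ hχ i
    have h4 : χ (f i) = (χ (f i) - algebraMap ℂ W (m (f i))) + algebraMap ℂ W (m (f i)) := by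
      ring
    rw [h4]
    refine (norm_add_le _ _).trans ?_
    rw [norm_algebraMap']
    exact add_le_add ((hχ i).trans hε1) le_rfl
  have hptn : ∀ i, ‖pt m W (f i)‖ ≤ 1 + ‖m (f i)‖ := by
    intro i
    rw [pt_apply, norm_algebraMap']
    linarith
  have hclose : ∀ χ : S →ₐ[ℂ] W, (∀ i, ‖χ (f i) - algebraMap ℂ W (m (f i))‖ ≤ ε) →
      ∀ g, ‖χ g - algebraMap ℂ W (m g)‖ ≤ C g * ε := by
    intro χ hχ g
    exact (hC g W χ (pt m W) ε hε0 (hnorm χ hχ) hptn hχ).2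
  set N : ℝ := ∑ i, ‖φ (f i) - ψ (f i)‖ with hN
  have hN0 : 0 ≤ N := Finset.sum_nonneg fun i _ => norm_nonneg _
  have hNi : ∀ i, ‖φ (f i) - ψ (f i)‖ ≤ N := fun i =>
    Finset.single_le_sum (f := fun i => ‖φ (f i) - ψ (f i)‖) (fun _ _ => norm_nonneg _)
      (Finset.mem_univ i)
  have hdel : ∀ g, ‖φ g - ψ g‖ ≤ C g * N := fun g =>
    (hC g W φ ψ N hN0 (hnorm φ h1) (hnorm ψ h2) hNi).2
  have hmain : ∀ i, ‖φ (f i) - ψ (f i)‖ ≤ k i * (ε * N) := by
    intro i
    have hmh : 0 < ‖m (h i)‖ := norm_pos_iff.2 (hh i)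
    have e1 := congrArg φ (ha i)
    have e2 := congrArg ψ (ha i)
    simp only [map_mul, map_sub, map_sum, AlgHom.commutes] at e1 e2
    have e3 : algebraMap ℂ W (m (h i)) * (φ (f i) - ψ (f i)) =
        ∑ j, (φ (a i j) - ψ (a i j)) * (φ (y j) - algebraMap ℂ W (m (y j))) -
        (φ (h i) - ψ (h i)) * (φ (f i) - algebraMap ℂ W (m (f i))) -
        (ψ (h i) - algebraMap ℂ W (m (h i))) * (φ (f i) - ψ (f i)) := by
      have e4 : ∑ j, (φ (a i j) - ψ (a i j)) * (φ (y j) - algebraMap ℂ W (m (y j))) =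
          ∑ j, φ (a i j) * (φ (y j) - algebraMap ℂ W (m (y j))) -
          ∑ j, ψ (a i j) * (ψ (y j) - algebraMap ℂ W (m (y j))) := by
        rw [← Finset.sum_sub_distrib]
        refine Finset.sum_congr rfl fun j _ => ?_
        rw [h3 j]
        ring
      rw [e4, ← e1, ← e2]
      ring
    have e5 : ‖m (h i)‖ * ‖φ (f i) - ψ (f i)‖ =
        ‖algebraMap ℂ W (m (h i)) * (φ (f i) - ψ (f i))‖ := by
      rw [← Algebra.smul_def, norm_smul]
    have b1 : ‖∑ j, (φ (a i j) - ψ (a i j)) * (φ (y j) - algebraMap ℂ W (m (y j)))‖ ≤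
        (∑ j, C (a i j) * C (y j)) * (ε * N) := by
      refine (norm_sum_le _ _).trans ?_
      rw [Finset.sum_mul]
      refine Finset.sum_le_sum fun j _ => ?_
      refine (norm_mul_le _ _).trans ?_
      calc ‖φ (a i j) - ψ (a i j)‖ * ‖φ (y j) - algebraMap ℂ W (m (y j))‖
          ≤ (C (a i j) * N) * (C (y j) * ε) :=
            mul_le_mul (hdel _) (hclose φ h1 _) (norm_nonneg _) (mul_nonneg (hC0 _) hN0)
        _ = C (a i j) * C (y j) * (ε * N) := by ring
    have b2 : ‖(φ (h i) - ψ (h i)) * (φ (f i) - algebraMap ℂ W (m (f i)))‖ ≤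
        C (h i) * (ε * N) := by
      refine (norm_mul_le _ _).trans ?_
      calc ‖φ (h i) - ψ (h i)‖ * ‖φ (f i) - algebraMap ℂ W (m (f i))‖
          ≤ (C (h i) * N) * ε :=
            mul_le_mul (hdel _) (h1 i) (norm_nonneg _) (mul_nonneg (hC0 _) hN0)
        _ = C (h i) * (ε * N) := by ring
    have b3 : ‖(ψ (h i) - algebraMap ℂ W (m (h i))) * (φ (f i) - ψ (f i))‖ ≤
        C (h i) * (ε * N) := by
      refine (norm_mul_le _ _).trans ?_
      calc ‖ψ (h i) - algebraMap ℂ W (m (h i))‖ * ‖φ (f i) - ψ (f i)‖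
          ≤ (C (h i) * ε) * N :=
            mul_le_mul (hclose ψ h2 _) (hNi i) (norm_nonneg _) (mul_nonneg (hC0 _) hε0)
        _ = C (h i) * (ε * N) := by ring
    have b4 : ‖m (h i)‖ * ‖φ (f i) - ψ (f i)‖ ≤
        (∑ j, C (a i j) * C (y j) + 2 * C (h i)) * (ε * N) := by
      rw [e5, e3]
      refine (norm_sub_le _ _).trans ?_
      have := norm_sub_le (∑ j, (φ (a i j) - ψ (a i j)) *
        (φ (y j) - algebraMap ℂ W (m (y j))))
        ((φ (h i) - ψ (h i)) * (φ (f i) - algebraMap ℂ W (m (f i))))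
      have e6 : (∑ j, C (a i j) * C (y j) + 2 * C (h i)) * (ε * N) =
        (∑ j, C (a i j) * C (y j)) * (ε * N) + C (h i) * (ε * N) + C (h i) * (ε * N) := by ring
      rw [e6]
      linarith
    rw [hk]
    simp only
    rw [div_mul_eq_mul_div, le_div_iff₀ hmh, mul_comm]
    exact b4
  have hNle : N ≤ K * (ε * N) := by
    calc N ≤ ∑ i, k i * (ε * N) := Finset.sum_le_sum fun i _ => hmain i
      _ = K * (ε * N) := by rw [hK, Finset.sum_mul]
  have hN00 : N = 0 := by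
    have h4 : K * (ε * N) ≤ 1 / 2 * N := by
      have : K * (ε * N) = ε * K * N := by ring
      rw [this]
      gcongr
    linarith
  have heq : ∀ i, φ (f i) = ψ (f i) := by
    intro i
    have h4 := hNi i
    rw [hN00] at h4
    exact sub_eq_zero.1 (norm_le_zero_iff.1 h4)
  refine AlgHom.ext_of_adjoin_eq_top hf ?_
  rintro x ⟨i, rfl⟩
  exact heq i

end

end Pool.Agent.K3Node
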