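import Mathlib

/-! PIECE P1: derivations in a Galois extension. -/

set_option autoImplicit false

namespace Pool.Agent.CampanaK3

/-- Extension of a derivation to a finite extension. -/
theorem exists_extension {L M : Type} [Field L] [Field M] [Algebra ℂ L] [Algebra ℂ M] [Algebra L M]
    [IsScalarTower ℂ L M] [FiniteDimensional L M] (D : Derivation ℂ L L) :
    ∃ D' : Derivation ℂ M M, ∀ f : L, D' (algebraMap L M f) = algebraMap L M (D f) := by
  have : CharZero L := charZero_of_injective_algebraMap (FaithfulSMul.algebraMap_injective ℂ L)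
  let i1 : Differential L := ⟨D.restrictScalars ℤ⟩
  let i2 : Differential M := Differential.differentialFiniteDimensional L M
  have i3 : DifferentialAlgebra L M := Differential.differentialAlgebraFiniteDimensional
  have h3 : ∀ f : L, i2.deriv (algebraMap L M f) = algebraMap L M (D f) := fun f => i3.deriv_algebraMap f
  refine ⟨Derivation.mk'
    { toFun := fun u => i2.deriv u
      map_add' := fun u v => map_add _ _ _
      map_smul' := ?_ } ?_, h3⟩
  · intro c u
    rw [Algebra.smul_def, Derivation.leibniz, IsScalarTower.algebraMap_apply ℂ L M, h3,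
      Derivation.map_algebraMap, map_zero, smul_zero, add_zero, ← IsScalarTower.algebraMap_apply ℂ L M,
      smul_eq_mul, RingHom.id_apply, Algebra.smul_def]
  · intro u v
    exact Derivation.leibniz _ _ _

/-- The conjugate of a derivation by an automorphism -/
noncomputable def conj {M : Type} [Field M] [Algebra ℂ M] (g : M ≃ₐ[ℂ] M) (D : Derivation ℂ M M) :
    Derivation ℂ M M :=
  Derivation.mk'
    { toFun := fun u => g (D (g.symm u))
      map_add' := fun u v => by rw [map_add, map_add, map_add]
      map_smul' := fun c u => by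
        rw [map_smul, Derivation.map_smul, map_smul, RingHom.id_apply] }
    (fun u v => by
      show g (D (g.symm (u * v))) = u • g (D (g.symm v)) + v • g (D (g.symm u))
      rw [map_mul, Derivation.leibniz, map_add, smul_eq_mul, smul_eq_mul, map_mul, map_mul,
        AlgEquiv.apply_symm_apply, AlgEquiv.apply_symm_apply, smul_eq_mul, smul_eq_mul])

theorem conj_apply {M : Type} [Field M] [Algebra ℂ M] (g : M ≃ₐ[ℂ] M) (D : Derivation ℂ M M) (u : M) :
    conj g D u = g (D (g.symm u)) := rfl

/-- Either the extension of `D` to the Galois closure has only constant first integrals, or it is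
linearly independent from one of its conjugates. -/
theorem galois_dichotomy {K M : Type} [Field K] [Field M] [Algebra ℂ K] [Algebra ℂ M] [Algebra K M]
    [IsScalarTower ℂ K M] [FiniteDimensional K M] [IsGalois K M] (D : Derivation ℂ M M)
    (hD : ∀ u : K, D (algebraMap K M u) = 0 → ∃ c : ℂ, u = algebraMap ℂ K c) :
    (∀ u : M, D u = 0 → ∃ c : ℂ, u = algebraMap ℂ M c) ∨
      ∃ g : M ≃ₐ[K] M, ∃ u v : M,
        D u * conj (g.restrictScalars ℂ) D v - D v * conj (g.restrictScalars ℂ) D u ≠ 0 := by
  classical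
  by_cases hp : ∃ g : M ≃ₐ[K] M, ∃ u v : M,
        D u * conj (g.restrictScalars ℂ) D v - D v * conj (g.restrictScalars ℂ) D u ≠ 0
  · exact Or.inr hp
  refine Or.inl fun a ha => ?_
  push Not at hp
  -- the conjugates of `a` are killed by `D`
  have h1 : ∀ g : M ≃ₐ[K] M, D (g a) = 0 := by
    intro g
    by_contra hne
    have h2 : ∀ v, conj (g.restrictScalars ℂ) D v = 0 := by
      intro v
      have h3 := hp g (g a) v
      have h4 : conj (g.restrictScalars ℂ) D (g a) = 0 := by
        rw [conj_apply]
        have h5 : (g.restrictScalars ℂ).symm (g a) = a := (g.restrictScalars ℂ).symm_apply_apply a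
        rw [h5, ha, map_zero]
      rw [h4, mul_zero, sub_zero] at h3
      exact (mul_eq_zero.1 h3).resolve_left hne
    apply hne
    have h6 := h2 (g (g a))
    rw [conj_apply] at h6
    have h5 : (g.restrictScalars ℂ).symm (g (g a)) = g a := (g.restrictScalars ℂ).symm_apply_apply _
    rw [h5] at h6
    exact (map_eq_zero_iff _ (g.restrictScalars ℂ).injective).1 h6
  let q : Polynomial M := ∏ g : M ≃ₐ[K] M, (Polynomial.X - Polynomial.C (g a))
  have hq : q.Monic := Polynomial.monic_prod_of_monic _ _ fun g _ => Polynomial.monic_X_sub_C _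
  have hqa : q.eval a = 0 := by
    rw [Polynomial.eval_prod]
    refine Finset.prod_eq_zero (Finset.mem_univ (1 : M ≃ₐ[K] M)) ?_
    simp
  -- coefficients are killed by `D`
  let C : Subring M :=
    { carrier := {u | D u = 0}
      mul_mem' := fun {u v} hu hv => by
        show D (u * v) = 0
        rw [Derivation.leibniz, show D u = 0 from hu, show D v = 0 from hv, smul_zero, smul_zero, add_zero]
      one_mem' := Derivation.map_one_eq_zero D
      add_mem' := fun {u v} hu hv => by
        show D (u + v) = 0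
        rw [map_add, show D u = 0 from hu, show D v = 0 from hv, add_zero]
      zero_mem' := map_zero D
      neg_mem' := fun {u} hu => by
        show D (-u) = 0
        rw [map_neg, show D u = 0 from hu, neg_zero] }
  have hqC : q ∈ Polynomial.lifts C.subtype := by
    refine prod_mem fun g _ => ?_
    refine (Polynomial.mem_lifts _).2 ⟨Polynomial.X - Polynomial.C ⟨g a, h1 g⟩, ?_⟩
    rw [Polynomial.map_sub, Polynomial.map_X, Polynomial.map_C]
    rfl
  have hc1 : ∀ i, D (q.coeff i) = 0 := by
    intro i
    obtain ⟨r, hr⟩ := (Polynomial.mem_lifts _).1 hqC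
    rw [← hr, Polynomial.coeff_map]
    exact (r.coeff i).2
  -- coefficients are fixed
  have hc2 : ∀ i, ∀ h : M ≃ₐ[K] M, h (q.coeff i) = q.coeff i := by
    intro i h
    have h7 : q.map (h : M →+* M) = q := by
      show Polynomial.map (h : M →+* M) (∏ g : M ≃ₐ[K] M, (Polynomial.X - Polynomial.C (g a))) = _
      rw [Polynomial.map_prod]
      refine Fintype.prod_equiv (Equiv.mulLeft h) _ _ fun g => ?_
      rw [Polynomial.map_sub, Polynomial.map_X, Polynomial.map_C]
      rfl
    conv_rhs => rw [← h7, Polynomial.coeff_map]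
    rfl
  have hc3 : ∀ i, ∃ c : ℂ, q.coeff i = algebraMap ℂ M c := by
    intro i
    obtain ⟨k, hk⟩ := (IsGalois.mem_range_algebraMap_iff_fixed (F := K) (E := M) (q.coeff i)).2 (hc2 i)
    obtain ⟨c, hc⟩ := hD k (by rw [hk]; exact hc1 i)
    exact ⟨c, by rw [← hk, hc, ← IsScalarTower.algebraMap_apply]⟩
  have hint : IsIntegral ℂ a := by
    have h8 : q ∈ Polynomial.lifts (algebraMap ℂ M) := by
      rw [Polynomial.lifts_iff_coeff_lifts]
      intro i
      obtain ⟨c, hc⟩ := hc3 i
      exact ⟨c, hc.symm⟩
    obtain ⟨r, hr, -, hrm⟩ := Polynomial.lifts_and_natDegree_eq_and_monic h8 hq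
    refine ⟨r, hrm, ?_⟩
    rw [← Polynomial.eval_map, hr, hqa]
  have h9 : (minpoly ℂ a).degree = 1 :=
    IsAlgClosed.degree_eq_one_of_irreducible ℂ (minpoly.irreducible hint)
  obtain ⟨c, hc⟩ := minpoly.mem_range_of_degree_eq_one ℂ a h9
  exact ⟨c, hc.symm⟩

/-- A derivation of an algebraic extension which vanishes on the base field vanishes. -/
theorem eq_zero_of_base {K M : Type} [Field K] [Field M] [Algebra ℂ K] [Algebra ℂ M] [Algebra K M]
    [IsScalarTower ℂ K M] [Algebra.IsAlgebraic K M] (E : Derivation ℂ M M)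
    (hE : ∀ u : K, E (algebraMap K M u) = 0) (a : M) : E a = 0 := by
  have hK : CharZero K := charZero_of_injective_algebraMap (FaithfulSMul.algebraMap_injective ℂ K)
  let E' : Derivation K M M := Derivation.mk'
    { toFun := fun u => E u
      map_add' := fun u v => map_add _ _ _
      map_smul' := fun c u => by
        rw [Algebra.smul_def, Derivation.leibniz, hE, smul_zero, add_zero, smul_eq_mul, RingHom.id_apply,
          Algebra.smul_def] }
    (fun u v => Derivation.leibniz _ _ _)
  have hs : Algebra.IsSeparable K M := Algebra.IsSeparable.of_integral K M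
  have hsep : IsSeparable K a := Algebra.IsSeparable.isSeparable K a
  have h1 := E'.map_aeval (minpoly K a) a
  rw [minpoly.aeval, map_zero, smul_eq_mul] at h1
  exact (mul_eq_zero.1 h1.symm).resolve_left (hsep.aeval_derivative_ne_zero (minpoly.aeval K a))

/-- Two derivations which are linearly independent on an algebraic extension are so on the base. -/
theorem exists_base {K M : Type} [Field K] [Field M] [Algebra ℂ K] [Algebra ℂ M] [Algebra K M]
    [IsScalarTower ℂ K M] [Algebra.IsAlgebraic K M] (D₁ D₂ : Derivation ℂ M M)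
    (h : ∃ u v : M, D₁ u * D₂ v - D₁ v * D₂ u ≠ 0) :
    ∃ y₁ y₂ : K, D₁ (algebraMap K M y₁) * D₂ (algebraMap K M y₂) -
      D₁ (algebraMap K M y₂) * D₂ (algebraMap K M y₁) ≠ 0 := by
  by_contra hn
  push Not at hn
  obtain ⟨u, v, huv⟩ := h
  apply huv
  by_cases h0 : ∀ y : K, D₁ (algebraMap K M y) = 0
  · rw [eq_zero_of_base (K := K) D₁ h0 u, eq_zero_of_base (K := K) D₁ h0 v, zero_mul, zero_mul, sub_zero]
  push Not at h0
  obtain ⟨y, hy⟩ := h0
  let E : Derivation ℂ M M := D₁ (algebraMap K M y) • D₂ - D₂ (algebraMap K M y) • D₁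
  have hE : ∀ a : M, E a = 0 := by
    apply eq_zero_of_base (K := K) E
    intro z
    show D₁ (algebraMap K M y) * D₂ (algebraMap K M z) - D₂ (algebraMap K M y) * D₁ (algebraMap K M z) = 0
    rw [← hn y z]
    ring
  have h1 : ∀ a : M, D₁ (algebraMap K M y) * D₂ a = D₂ (algebraMap K M y) * D₁ a := fun a =>
    sub_eq_zero.1 (hE a)
  have h2 : D₁ (algebraMap K M y) * (D₁ u * D₂ v - D₁ v * D₂ u) = 0 := by
    linear_combination D₁ u * h1 v - D₁ v * h1 u
  exact (mul_eq_zero.1 h2).resolve_left hy

/-- **P1.** Let `L` be a finite extension of `K` and `D` a derivation of `L` such that `D u = 0` only for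
the constants `u` of `K`. In the Galois closure `M` of `L` over `K` the extension `D₁` of `D` has only
constants in the kernel, or it is linearly independent over `M` from a conjugate `D₂ = g D₁ g⁻¹`; then
there are `y₁, y₂` in `K` with `det (D_i y_j) ≠ 0`. `j₁` is the inclusion of `L` and `j₂ = g ∘ j₁`. -/
theorem galois_main {K L : Type} [Field K] [Field L] [Algebra ℂ K] [Algebra ℂ L] [Algebra K L]
    [IsScalarTower ℂ K L] [FiniteDimensional K L] (D : Derivation ℂ L L)
    (hD : ∀ u : K, D (algebraMap K L u) = 0 → ∃ c : ℂ, u = algebraMap ℂ K c) :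
    ∃ (M : Type) (_ : Field M) (_ : Algebra ℂ M) (_ : Algebra K M) (_ : IsScalarTower ℂ K M)
      (_ : FiniteDimensional K M) (j₁ j₂ : L →ₐ[ℂ] M) (D₁ D₂ : Derivation ℂ M M),
      (∀ u : K, j₁ (algebraMap K L u) = algebraMap K M u) ∧
      (∀ u : K, j₂ (algebraMap K L u) = algebraMap K M u) ∧
      (∀ f, D₁ (j₁ f) = j₁ (D f)) ∧ (∀ f, D₂ (j₂ f) = j₂ (D f)) ∧
      ((∀ u : M, D₁ u = 0 → ∃ c : ℂ, u = algebraMap ℂ M c) ∨
        ∃ y₁ y₂ : K, D₁ (algebraMap K M y₁) * D₂ (algebraMap K M y₂) -
          D₁ (algebraMap K M y₂) * D₂ (algebraMap K M y₁) ≠ 0) := by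
  have hK : CharZero K := charZero_of_injective_algebraMap (FaithfulSMul.algebraMap_injective ℂ K)
  let Ω := AlgebraicClosure L
  let N : IntermediateField K Ω := IntermediateField.normalClosure K L Ω
  have hfin : FiniteDimensional K N := normalClosure.is_finiteDimensional K L Ω
  have hnor : Normal K N := normalClosure.normal K L Ω
  have hgal : IsGalois K N := ⟨⟩
  have hLM : IsScalarTower K L N := inferInstance
  let a1 : Algebra ℂ N := ((algebraMap K N).comp (algebraMap ℂ K)).toAlgebra
  have t1 : IsScalarTower ℂ K N := IsScalarTower.of_algebraMap_eq fun _ => rfl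
  have t2 : IsScalarTower ℂ L N := IsScalarTower.of_algebraMap_eq fun c => by
    show algebraMap K N (algebraMap ℂ K c) = _
    rw [IsScalarTower.algebraMap_apply K L N, ← IsScalarTower.algebraMap_apply ℂ K L]
  have hfin2 : FiniteDimensional L N := FiniteDimensional.right K L N
  obtain ⟨D₁, hD₁⟩ := exists_extension (M := N) D
  let j₁ : L →ₐ[ℂ] N := IsScalarTower.toAlgHom ℂ L N
  have hj₁ : ∀ u : K, j₁ (algebraMap K L u) = algebraMap K N u := fun u =>
    (IsScalarTower.algebraMap_apply K L N u).symm
  have hd : ∀ u : K, D₁ (algebraMap K N u) = 0 → ∃ c : ℂ, u = algebraMap ℂ K c := by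
    intro u hu
    rw [IsScalarTower.algebraMap_apply K L N, hD₁] at hu
    exact hD u ((map_eq_zero _).1 hu)
  rcases galois_dichotomy (K := K) D₁ hd with h | ⟨g, h⟩
  · exact ⟨N, inferInstance, a1, inferInstance, t1, hfin, j₁, j₁, D₁, D₁, hj₁, hj₁, hD₁, hD₁,
      Or.inl h⟩
  · refine ⟨N, inferInstance, a1, inferInstance, t1, hfin, j₁,
      ((g.restrictScalars ℂ : N ≃ₐ[ℂ] N) : N →ₐ[ℂ] N).comp j₁, D₁, conj (g.restrictScalars ℂ) D₁,
      hj₁, ?_, hD₁, ?_, Or.inr (exists_base _ _ h)⟩
    · intro u
      show g (j₁ (algebraMap K L u)) = _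
      rw [hj₁, AlgEquiv.commutes]
    · intro f
      show conj (g.restrictScalars ℂ) D₁ (g (j₁ f)) = g (j₁ (D f))
      rw [conj_apply]
      have h5 : (g.restrictScalars ℂ).symm (g (j₁ f)) = j₁ f := (g.restrictScalars ℂ).symm_apply_apply _
      rw [h5]
      exact congrArg g (hD₁ f)

end Pool.Agent.CampanaK3
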