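import Pool.Agent.Lib_MP_1209e6_k3.Surf
import Pool.Agent.Lib_MP_1209e6_k3.Special
import Pool.Agent.Lib_MP_1209e6_nt.Reduce

/-! Assembly of Theorem K. -/

set_option autoImplicit false

open Filter Topology Pool.Agent.Campana Pool.Agent.CampanaFlow

namespace Pool.Agent.K3

/-- a surface with covering families of almost homogeneous varieties without common first integral is
Brody-special -/
theorem brody_surface {n : ℕ} (P : Ideal (MvPolynomial (Fin (n + 1)) ℂ)) [P.IsPrime]
    (hP : IsVariety P) (htr : Algebra.trdeg ℂ (FunField P) = 2) {r : ℕ} (L : Fin r → Type)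
    [∀ i, Field (L i)] [∀ i, Algebra ℂ (L i)] [∀ i, Algebra (FunField P) (L i)]
    [∀ i, IsScalarTower ℂ (FunField P) (L i)] [∀ i, FiniteDimensional (FunField P) (L i)]
    (k : ∀ i, IntermediateField ℂ (L i)) (N : Fin r → ℕ) (x : ∀ i, Fin (N i + 1) → L i)
    (h : ∀ i, AlmostHomogeneous (k i) (x i))
    (hc : ∀ u : FunField P, (∀ i, IsAlgebraic (k i) (algebraMap (FunField P) (L i) u)) →
      ∃ c : ℂ, u = algebraMap ℂ (FunField P) c) : BrodySpecial P := by
  classical
  obtain ⟨l₀, hl₀⟩ := hP.2.2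
  obtain ⟨M, _, _, _, _, _, s, i, j, D, E, hj, hD, hE, hcM⟩ :=
    Pool.Agent.CampanaNT.reduce_main (funField_fg P) L k N x h hc
  obtain ⟨R, γ, B, hT, hγ, hdense⟩ := surf_curve (K := FunField P) (M := M) (funField_fg P) htr
    (fun a => L (i a)) j hj D E hE
    (fun a => ⟨k (i a), N (i a), x (i a), (h (i a)).ne_zero, (h (i a)).gen, hD a⟩) hcM
    (Finset.univ.image fun l => ratio P l l₀)
  exact brody_of_curve P hP l₀ hl₀ R (fun l => hT (by simp)) γ B hγ hdense

end Pool.Agent.K3
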