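import Mathlib

/-!
# The unramified condition from a polynomial equation with simple root
-/

set_option autoImplicit false

open Polynomial

namespace Pool.Agent.K3Node

section

variable {S : Type} [CommRing S] [Algebra ℂ S] {κ : Type}

/-- the ideal of the differences `y j - m (y j)` -/
noncomputable def yIdeal (y : κ → S) (m : S →ₐ[ℂ] ℂ) : Ideal S :=
  Ideal.span (Set.range fun j => y j - algebraMap ℂ S (m (y j)))

theorem aeval_sub_mem (y : κ → S) (m : S →ₐ[ℂ] ℂ) (q : MvPolynomial κ ℂ) :
    MvPolynomial.aeval y q - algebraMap ℂ S (m (MvPolynomial.aeval y q)) ∈ yIdeal y m := by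
  induction q using MvPolynomial.induction_on with
  | C a => simp
  | add p q hp hq =>
    have e : MvPolynomial.aeval y (p + q) - algebraMap ℂ S (m (MvPolynomial.aeval y (p + q))) =
        (MvPolynomial.aeval y p - algebraMap ℂ S (m (MvPolynomial.aeval y p))) +
        (MvPolynomial.aeval y q - algebraMap ℂ S (m (MvPolynomial.aeval y q))) := by
      rw [map_add, map_add, map_add]; ring
    rw [e]
    exact add_mem hp hq
  | mul_X p j hp =>
    have e : MvPolynomial.aeval y (p * MvPolynomial.X j) -
        algebraMap ℂ S (m (MvPolynomial.aeval y (p * MvPolynomial.X j))) =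
        (MvPolynomial.aeval y p - algebraMap ℂ S (m (MvPolynomial.aeval y p))) * y j +
        algebraMap ℂ S (m (MvPolynomial.aeval y p)) * (y j - algebraMap ℂ S (m (y j))) := by
      rw [map_mul, map_mul, MvPolynomial.aeval_X, map_mul]; ring
    rw [e]
    exact add_mem (Ideal.mul_mem_right _ _ hp) (Ideal.mul_mem_left _ _
      (Ideal.subset_span ⟨j, rfl⟩))

/-- the polynomial with the coefficients evaluated at the point `m` -/
noncomputable def polAt (y : κ → S) (m : S →ₐ[ℂ] ℂ) (P : Polynomial (MvPolynomial κ ℂ)) : ℂ[X] :=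
  P.map ((m.comp (MvPolynomial.aeval y) : MvPolynomial κ ℂ →ₐ[ℂ] ℂ) : MvPolynomial κ ℂ →+* ℂ)

theorem eval_sub_mem (y : κ → S) (m : S →ₐ[ℂ] ℂ) (f : S) (P : Polynomial (MvPolynomial κ ℂ)) :
    Polynomial.eval₂ ((MvPolynomial.aeval y : MvPolynomial κ ℂ →ₐ[ℂ] S) :
      MvPolynomial κ ℂ →+* S) f P - Polynomial.aeval f (polAt y m P) ∈ yIdeal y m := by
  induction P using Polynomial.induction_on' with
  | add p q hp hq =>
    have e1 : polAt y m (p + q) = polAt y m p + polAt y m q := by
      rw [polAt, Polynomial.map_add]; rfl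
    rw [e1, Polynomial.eval₂_add, map_add]
    have e : ∀ a b c d : S, a + b - (c + d) = (a - c) + (b - d) := fun a b c d => by ring
    rw [e]
    exact add_mem hp hq
  | monomial n a =>
    have e1 : polAt y m (Polynomial.monomial n a) =
        Polynomial.monomial n (m (MvPolynomial.aeval y a)) := by
      rw [polAt, Polynomial.map_monomial]; rfl
    rw [e1, Polynomial.eval₂_monomial, Polynomial.aeval_monomial, ← sub_mul]
    exact Ideal.mul_mem_right _ _ (aeval_sub_mem y m a)

/-- **A simple root is unramified.** -/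
theorem unram (y : κ → S) (m : S →ₐ[ℂ] ℂ) (f : S) (P : Polynomial (MvPolynomial κ ℂ))
    (hP : Polynomial.eval₂ ((MvPolynomial.aeval y : MvPolynomial κ ℂ →ₐ[ℂ] S) :
      MvPolynomial κ ℂ →+* S) f P = 0)
    (hP' : m (Polynomial.eval₂ ((MvPolynomial.aeval y : MvPolynomial κ ℂ →ₐ[ℂ] S) :
      MvPolynomial κ ℂ →+* S) f (Polynomial.derivative P)) ≠ 0) :
    ∃ h : S, m h ≠ 0 ∧ h * (f - algebraMap ℂ S (m f)) ∈
      Ideal.span (Set.range fun j => y j - algebraMap ℂ S (m (y j))) := by
  -- the polynomial at the point has the simple root `m f`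
  have hev : ∀ Q : Polynomial (MvPolynomial κ ℂ),
      m (Polynomial.eval₂ ((MvPolynomial.aeval y : MvPolynomial κ ℂ →ₐ[ℂ] S) :
        MvPolynomial κ ℂ →+* S) f Q) = (polAt y m Q).eval (m f) := by
    intro Q
    rw [polAt, Polynomial.eval_map, ← AlgHom.coe_toRingHom m, Polynomial.hom_eval₂]
    rfl
  have hroot : (polAt y m P).eval (m f) = 0 := by
    rw [← hev, hP, map_zero]
  have hder : (Polynomial.derivative (polAt y m P)).eval (m f) ≠ 0 := by
    have e1 : Polynomial.derivative (polAt y m P) = polAt y m (Polynomial.derivative P) := by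
      rw [polAt, polAt, Polynomial.derivative_map]
    rw [e1, ← hev]
    exact hP'
  obtain ⟨Q, hQ⟩ := Polynomial.dvd_iff_isRoot.2 (show (polAt y m P).IsRoot (m f) from hroot)
  have hQm : Q.eval (m f) ≠ 0 := by
    rw [hQ] at hder
    simpa using hder
  refine ⟨Polynomial.aeval f Q, ?_, ?_⟩
  · have e1 : m (Polynomial.aeval f Q) = Q.eval (m f) := by
      rw [← Polynomial.aeval_algHom_apply, Polynomial.coe_aeval_eq_eval]
    rw [e1]
    exact hQm
  · have e1 : Polynomial.aeval f (polAt y m P) =
        (f - algebraMap ℂ S (m f)) * Polynomial.aeval f Q := by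
      rw [hQ, map_mul, map_sub, Polynomial.aeval_X, Polynomial.aeval_C]
    have e2 := eval_sub_mem y m f P
    rw [hP, zero_sub, e1] at e2
    have e3 := neg_mem e2
    rw [neg_neg, mul_comm] at e3
    exact e3

end

end Pool.Agent.K3Node
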