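import Pool.Agent.Lib_MP_1209e6_k3.Defs
import Pool.Agent.Lib_MP_1209e6_k3.HomEq
import Pool.Agent.Lib_MP_1209e6_k3.Unram

/-! PIECE AGREE: two points near `p` with the same coordinates `y` are equal (simple roots). -/

set_option autoImplicit false

open Filter Topology

namespace Pool.Agent.K3

/-- For `g ∈ G`: `P(u) - P(v) = (u - v) Q(u, v)` with `Q(p g, p g) = p (P' g) ≠ 0`, and `Q` (whose
coefficients are polynomials in the values of `y`) is continuous. -/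
theorem agree {R : Type} [CommRing R] [Algebra ℂ R] (y : Fin 2 → R) (G : Finset R)
    (hG : Algebra.adjoin ℂ (G : Set R) = ⊤) (p : R →ₐ[ℂ] ℂ)
    (hP : ∀ g ∈ G, ∃ P : Polynomial (MvPolynomial (Fin 2) ℂ),
      P.eval₂ (MvPolynomial.aeval y).toRingHom g = 0 ∧
      p (P.derivative.eval₂ (MvPolynomial.aeval y).toRingHom g) ≠ 0) :
    ∃ ε : ℝ, 0 < ε ∧ ∀ q q' : R →ₐ[ℂ] ℂ, (∀ j, ‖q (y j) - p (y j)‖ < ε) →
      (∀ g ∈ G, ‖q g - p g‖ < ε ∧ ‖q' g - p g‖ < ε) → (∀ j, q (y j) = q' (y j)) → q = q' := by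
  obtain ⟨ε, hε, h⟩ := K3Node.hom_eq (fun g : G => (g : R)) (by
      rw [Subtype.range_coe_subtype]
      exact hG) y p (fun g => by
      obtain ⟨P, h1, h2⟩ := hP g g.2
      exact K3Node.unram y p g P h1 h2)
  refine ⟨ε, hε, fun q q' _ h2 h3 => ?_⟩
  exact h ℂ q q' (fun g => (h2 g g.2).1.le) (fun g => (h2 g g.2).2.le) h3

end Pool.Agent.K3
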