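import Pool.Agent.Lib_MP_1209e6_k3.Defs
import Pool.Agent.Lib_MP_1209e6_k3.Galois

/-! PIECE CONJ: conjugates of a derivation. -/

set_option autoImplicit false

open Filter Topology Pool.Agent.CampanaFlow

namespace Pool.Agent.K3

/-- a finite extension of a finitely generated field is finitely generated -/
theorem conj_fg {K M : Type} [Field K] [Field M] [Algebra ℂ K] [Algebra ℂ M] [Algebra K M]
    [IsScalarTower ℂ K M] [FiniteDimensional K M]
    (hfg : ∃ T : Finset K, IntermediateField.adjoin ℂ (T : Set K) = ⊤) :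
    ∃ T : Finset M, IntermediateField.adjoin ℂ (T : Set M) = ⊤ := by
  classical
  obtain ⟨T, hT⟩ := hfg
  let b := Module.finBasis K M
  let T' : Finset M := T.image (algebraMap K M) ∪ Finset.univ.image b
  refine ⟨T', ?_⟩
  let φ : K →ₐ[ℂ] M := IsScalarTower.toAlgHom ℂ K M
  have h1 : ∀ k : K, algebraMap K M k ∈ IntermediateField.adjoin ℂ (T' : Set M) := by
    intro k
    have h2 : IntermediateField.adjoin ℂ (T : Set K) ≤
        (IntermediateField.adjoin ℂ (T' : Set M)).comap φ := by
      rw [IntermediateField.adjoin_le_iff]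
      intro x hx
      refine IntermediateField.subset_adjoin ℂ _ ?_
      exact Finset.mem_coe.2 (Finset.mem_union_left _ (Finset.mem_image_of_mem _ hx))
    rw [hT] at h2
    exact h2 (show k ∈ (⊤ : IntermediateField ℂ K) from trivial)
  rw [eq_top_iff]
  intro x _
  rw [← b.sum_repr x]
  refine sum_mem fun i _ => ?_
  rw [Algebra.smul_def]
  refine mul_mem (h1 _) (IntermediateField.subset_adjoin ℂ _ ?_)
  exact Finset.mem_coe.2 (Finset.mem_union_right _ (Finset.mem_image_of_mem _ (Finset.mem_univ i)))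

/-- `M` = Galois closure of `L / K` (`normalClosure K L (AlgebraicClosure L)`), `D` extends to `M`
(separable algebraic), `D_g = g D g⁻¹`, `σ_g = g σ₁`. If for all `g` and all `u v : K` the determinant
vanishes: `D = 0` on `L` (then `K` is `ℂ`, `L` is algebraic over `ℂ`), or `D_g = c_g D` on `K`, hence on `M`
(algebraic over `K`), so the kernel of `D` in `M` is Galois stable; the coefficients of `∏ (X - g u)` for
`u ∈ ker D` are killed by `D` and lie in `K`: constants, so `u` is algebraic over `ℂ`. -/
theorem conj_cases {K L : Type} [Field K] [Field L] [Algebra ℂ K] [Algebra ℂ L] [Algebra K L]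
    [IsScalarTower ℂ K L] [FiniteDimensional K L]
    (hfg : ∃ T : Finset K, IntermediateField.adjoin ℂ (T : Set K) = ⊤)
    (D : Derivation ℂ L L)
    (hc : ∀ u : K, D (algebraMap K L u) = 0 → ∃ c : ℂ, u = algebraMap ℂ K c) :
    (∀ u : L, D u = 0 → ∃ c : ℂ, u = algebraMap ℂ L c) ∨ Nonempty (Conj K L D) := by
  obtain ⟨M, i1, i2, i3, i4, i5, j₁, j₂, D₁, D₂, h1, h2, h3, h4, h5⟩ :=
    Pool.Agent.CampanaK3.galois_main D hc
  rcases h5 with h5 | ⟨y₁, y₂, h5⟩
  · left
    intro u hu
    obtain ⟨c, hc'⟩ := h5 (j₁ u) (by rw [h3, hu, map_zero])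
    refine ⟨c, (j₁ : L →+* M).injective ?_⟩
    show j₁ u = j₁ (algebraMap ℂ L c)
    rw [hc', AlgHom.commutes]
  · right
    refine ⟨{
      M := M
      σ₁ := j₁
      σ₂ := j₂
      same := fun a => by rw [h1, h2]
      D₁ := D₁
      D₂ := D₂
      comm₁ := h3
      comm₂ := h4
      u := ![y₂, y₁]
      det := ?_
      alg := ?_
      fg := conj_fg hfg }⟩
    · show D₂ (j₁ (algebraMap K L y₂)) * D₁ (j₁ (algebraMap K L y₁)) -
        D₂ (j₁ (algebraMap K L y₁)) * D₁ (j₁ (algebraMap K L y₂)) ≠ 0
      rw [h1, h1]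
      intro h6
      apply h5
      linear_combination h6
    · intro a
      have hint : IsIntegral K a := IsIntegral.of_finite K a
      refine ⟨minpoly K a, minpoly.ne_zero hint, ?_⟩
      have h6 : (j₁ : L →+* M).comp (algebraMap K L) = algebraMap K M := RingHom.ext h1
      rw [h6]
      exact minpoly.aeval K a

end Pool.Agent.K3
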