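import Pool.Agent.Lib_MP_1209e6_fl.Main

/-! Transport of almost homogeneous models along an isomorphism; covering families of degree one are
fibrations. -/

set_option autoImplicit false

open Filter Topology Pool.Agent.Campana Pool.Agent.CampanaFlow

namespace Pool.Agent.K3

section transport

variable {K L : Type} [Field K] [Field L] [Algebra ℂ K] [Algebra ℂ L] (e : K ≃ₐ[ℂ] L)

/-- transport of a derivation -/
noncomputable def dtr (E : Derivation ℂ L L) : Derivation ℂ K K :=
  Derivation.mk'
    { toFun := fun u => e.symm (E (e u))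
      map_add' := fun u v => by rw [map_add, map_add, map_add]
      map_smul' := fun c u => by
        rw [map_smul, Derivation.map_smul, map_smul, RingHom.id_apply] }
    (fun u v => by
      show e.symm (E (e (u * v))) = u • e.symm (E (e v)) + v • e.symm (E (e u))
      rw [map_mul, Derivation.leibniz, map_add, smul_eq_mul, smul_eq_mul, map_mul, map_mul,
        AlgEquiv.symm_apply_apply, AlgEquiv.symm_apply_apply, smul_eq_mul, smul_eq_mul])

theorem dtr_apply (E : Derivation ℂ L L) (u : K) : dtr e E u = e.symm (E (e u)) := rfl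

theorem tr_image (k : IntermediateField ℂ L) {ι : Type} (y : ι → L) :
    (e : K → L) '' ((k.comap (e : K →ₐ[ℂ] L) : Set K) ∪ Set.range fun i => e.symm (y i)) =
      (k : Set L) ∪ Set.range y := by
  ext z
  constructor
  · rintro ⟨w, hw | ⟨i, hi⟩, rfl⟩
    · exact Or.inl hw
    · right
      refine ⟨i, ?_⟩
      have hi' : e.symm (y i) = w := hi
      rw [← hi', AlgEquiv.apply_symm_apply]
  · rintro (hz | ⟨i, rfl⟩)
    · refine ⟨e.symm z, Or.inl ?_, e.apply_symm_apply z⟩
      show e (e.symm z) ∈ k
      rw [AlgEquiv.apply_symm_apply]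
      exact hz
    · exact ⟨e.symm (y i), Or.inr ⟨i, rfl⟩, e.apply_symm_apply _⟩

theorem tr_chart (k : IntermediateField ℂ L) {N : ℕ} (x : Fin (N + 1) → L) (j : Fin (N + 1)) (f : K) :
    f ∈ Chart (k.comap (e : K →ₐ[ℂ] L)) (fun i => e.symm (x i)) j ↔ e f ∈ Chart k x j := by
  have h1 : (Chart (k.comap (e : K →ₐ[ℂ] L)) (fun i => e.symm (x i)) j).map (e : K →ₐ[ℂ] L) =
      Chart k x j := by
    unfold Chart
    rw [AlgHom.map_adjoin]
    congr 1
    have h2 := tr_image e k fun i => x i / x j
    have h3 : (fun i => e.symm (x i / x j)) = fun i => e.symm (x i) / e.symm (x j) := by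
      funext i
      rw [map_div₀]
    rw [h3] at h2
    exact h2
  rw [← h1, Subalgebra.mem_map]
  constructor
  · intro hf
    exact ⟨f, hf, rfl⟩
  · rintro ⟨g, hg, hgf⟩
    have h4 : g = f := e.injective hgf
    rwa [← h4]

theorem tr_global (k : IntermediateField ℂ L) {N : ℕ} (x : Fin (N + 1) → L) {E : Derivation ℂ L L}
    (hE : GlobalField k x E) :
    GlobalField (k.comap (e : K →ₐ[ℂ] L)) (fun i => e.symm (x i)) (dtr e E) := by
  refine ⟨fun a ha => ?_, fun j f hf => ?_⟩
  · rw [dtr_apply, hE.1 (e a) ha, map_zero]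
  · rw [tr_chart] at hf ⊢
    rw [dtr_apply, AlgEquiv.apply_symm_apply]
    exact hE.2 j _ hf

theorem tr_homogeneous (k : IntermediateField ℂ L) {N : ℕ} (x : Fin (N + 1) → L)
    (h : AlmostHomogeneous k x) :
    AlmostHomogeneous (k.comap (e : K →ₐ[ℂ] L)) (fun i => e.symm (x i)) := by
  refine ⟨fun i => ?_, ?_, ?_⟩
  · intro h0
    exact h.ne_zero i ((map_eq_zero e.symm).1 h0)
  · rw [eq_top_iff]
    intro u _
    have h2 := tr_image e k fun i => x i / x 0
    have h3 : (fun i => e.symm (x i / x 0)) = fun i => e.symm (x i) / e.symm (x 0) := by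
      funext i
      rw [map_div₀]
    rw [h3] at h2
    have h4 : (IntermediateField.adjoin ℂ ((k.comap (e : K →ₐ[ℂ] L) : Set K) ∪
        Set.range fun i => e.symm (x i) / e.symm (x 0))).map (e : K →ₐ[ℂ] L) = ⊤ := by
      rw [IntermediateField.adjoin_map]
      have h5 : ((e : K →ₐ[ℂ] L) : K → L) '' ((k.comap (e : K →ₐ[ℂ] L) : Set K) ∪
        Set.range fun i => e.symm (x i) / e.symm (x 0)) = (k : Set L) ∪ Set.range fun i => x i / x 0 := h2
      rw [h5]
      exact h.gen
    have h6 : (e : K →ₐ[ℂ] L) u ∈ (IntermediateField.adjoin ℂ ((k.comap (e : K →ₐ[ℂ] L) : Set K) ∪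
        Set.range fun i => e.symm (x i) / e.symm (x 0))).map (e : K →ₐ[ℂ] L) := by
      rw [h4]
      trivial
    obtain ⟨v, hv, hvu⟩ := h6
    have h7 : v = u := e.injective hvu
    rwa [← h7]
  · intro D hD
    -- the transported derivation on `L`
    have h1 : dtr e.symm D ∈ Submodule.span L {E : Derivation ℂ L L | GlobalField k x E} := by
      refine h.span _ fun a ha => ?_
      rw [dtr_apply]
      have h2 : e.symm a ∈ k.comap (e : K →ₐ[ℂ] L) := by
        show e (e.symm a) ∈ k
        rw [AlgEquiv.apply_symm_apply]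
        exact ha
      rw [hD _ h2, map_zero]
    have h3 : ∀ E ∈ Submodule.span L {E : Derivation ℂ L L | GlobalField k x E},
        dtr e E ∈ Submodule.span K {E : Derivation ℂ K K |
          GlobalField (k.comap (e : K →ₐ[ℂ] L)) (fun i => e.symm (x i)) E} := by
      intro E hE
      induction hE using Submodule.span_induction with
      | mem E hE => exact Submodule.subset_span (tr_global e k x hE)
      | zero =>
        have h4 : dtr e (0 : Derivation ℂ L L) = 0 := by
          ext u
          rw [dtr_apply]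
          simp
        rw [h4]
        exact Submodule.zero_mem _
      | add E F _ _ hE hF =>
        have h4 : dtr e (E + F) = dtr e E + dtr e F := by
          ext u
          rw [dtr_apply, Derivation.add_apply, Derivation.add_apply, map_add, dtr_apply, dtr_apply]
        rw [h4]
        exact Submodule.add_mem _ hE hF
      | smul a E _ hE =>
        have h4 : dtr e (a • E) = e.symm a • dtr e E := by
          ext u
          rw [dtr_apply, Derivation.smul_apply, Derivation.smul_apply, smul_eq_mul, map_mul, smul_eq_mul,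
            dtr_apply]
        rw [h4]
        exact Submodule.smul_mem _ _ hE
    have h5 : dtr e (dtr e.symm D) = D := by
      ext u
      rw [dtr_apply, dtr_apply, AlgEquiv.symm_symm, AlgEquiv.symm_apply_apply, AlgEquiv.symm_apply_apply]
    rw [← h5]
    exact h3 _ h1

end transport

/-- covering families of degree one are fibrations -/
theorem brody_fib {n : ℕ} (P : Ideal (MvPolynomial (Fin (n + 1)) ℂ)) [P.IsPrime]
    (hP : IsVariety P) {r : ℕ} (L : Fin r → Type)
    [∀ i, Field (L i)] [∀ i, Algebra ℂ (L i)] [∀ i, Algebra (FunField P) (L i)]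
    [∀ i, IsScalarTower ℂ (FunField P) (L i)] [∀ i, FiniteDimensional (FunField P) (L i)]
    (k : ∀ i, IntermediateField ℂ (L i)) (N : Fin r → ℕ) (x : ∀ i, Fin (N i + 1) → L i)
    (h : ∀ i, AlmostHomogeneous (k i) (x i))
    (hs : ∀ i, Function.Surjective (algebraMap (FunField P) (L i)))
    (hc : ∀ u : FunField P, (∀ i, IsAlgebraic (k i) (algebraMap (FunField P) (L i) u)) →
      ∃ c : ℂ, u = algebraMap ℂ (FunField P) c) : BrodySpecial P := by
  let e : ∀ i, FunField P ≃ₐ[ℂ] L i := fun i =>
    AlgEquiv.ofBijective (IsScalarTower.toAlgHom ℂ (FunField P) (L i))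
      ⟨(algebraMap (FunField P) (L i)).injective, hs i⟩
  refine (CampanaFlow.main P hP (fun i => (k i).comap (e i : FunField P →ₐ[ℂ] L i)) N
    (fun i l => (e i).symm (x i l)) (fun i => tr_homogeneous (e i) (k i) (x i) (h i)) ?_).2
  intro u hu
  apply hc
  intro i
  have h1 := hu i
  let f : (k i).comap (e i : FunField P →ₐ[ℂ] L i) →+* k i :=
    ((e i : FunField P →+* L i).comp (algebraMap ((k i).comap (e i : FunField P →ₐ[ℂ] L i))
      (FunField P))).codRestrict (k i) fun a => a.2
  have hf : Function.Injective f := f.injective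
  exact h1.ringHom_of_comp_eq f (e i : FunField P →+* L i) hf (by
    ext a
    rfl)

end Pool.Agent.K3
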