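import Pool.Agent.Lib_MP_1209e6_k3.Main
import Pool.Agent.Lib_MP_1209e6_k3.Fib9

/-!
# Campana's conjecture for varieties with covering families of almost homogeneous varieties

Let `X` be a complex projective variety with finitely many covering families of almost homogeneous
projective varieties: total spaces `V_i → B_i` with `V_i ⇢ X` generically finite and dominant, whose
generic member over `k_i = ℂ(B_i)` is almost homogeneous (curves of genus at most one, torsors under
abelian varieties, …). If every rational function on `X` which is algebraic over all the fields `k_i` is
constant, then `X` is special. If moreover `X` is a surface, or if all the families are fibrations of `X`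
(`V_i = X`), then `X` is Brody-special.

Every projective K3 surface has a covering family of (singular) curves of geometric genus one. If it is
not an elliptic fibration, the theorem gives a Zariski dense entire curve.

Sketch of the proof for surfaces. In the Galois closure `M` of the `L_i = ℂ(V_i)` over `ℂ(X)` take all
conjugates of the global vector fields of the `V_i`. If two of them, `D₁` and `D₂`, are independent, take
a point `m` at which they are, and the tubes `F₁(s, z) = m exp (s D₂) exp (z D₁)`,
`F₂(s', z') = m exp (s' D₁) exp (z' D₂)`, which are defined for all times `z`, `z'` if `s`, `s'` are small
(meromorphic families of flow lines, since the members of the families are projective). The equation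
`F₁(s(ζ), z(ζ)) = F₂(s'(ζ), z'(ζ))` on an annulus around `|ζ| = 1` has a solution with `s`, `z`
holomorphic outside of the annulus, `s'`, `z'` holomorphic inside except for `ζ = 0`, and leading terms
`s = z' = η / ζ`, `z = s' = η (exp ζ - 1)`: a contraction in the Wiener algebra of the annulus. This glues
to a meromorphic map from `ℂ^*` to `X`, a smoothing of the union of the two flow lines at the node `m`;
composed with `exp` it is an entire curve. A function which vanishes on it vanishes at `F₁(s, z)` for
`(s, z)` close to `(0, T)`, `s ≠ 0`, arbitrarily close for each small `T`, because `η (exp ζ - 1)` takes
the value `T` at a sequence going to infinity; hence all its Taylor coefficients along `F₁` vanish, and it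
is zero.
-/

set_option autoImplicit false

open Pool.Agent.Campana Pool.Agent.CampanaFlow

namespace Pool.Agent.Results.MP_1209e6_ag.CoveringFamilies

/-- The function field of the projective variety with homogeneous prime ideal `P`: the field
generated by the quotients `x_i / x_j` in the fraction field of the coordinate ring. -/
noncomputable abbrev functionField {n : ℕ} (P : Ideal (MvPolynomial (Fin (n + 1)) ℂ)) [P.IsPrime] :
    IntermediateField ℂ (FractionRing (MvPolynomial (Fin (n + 1)) ℂ ⧸ P)) :=
  IntermediateField.adjoin ℂ
    (Set.range fun ij : Fin (n + 1) × Fin (n + 1) => coord P ij.1 / coord P ij.2)

/-- A covering family of almost homogeneous varieties of the variety with function field `K`: a finite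
extension `L` of `K`, which is the function field of an almost homogeneous projective variety over the
field `k` (the total space of the family is a generically finite cover of the variety). -/
structure CoveringFamily (K : Type) [Field K] [Algebra ℂ K] where
  /-- the function field of the total space of the family -/
  L : Type
  [field : Field L]
  [algebraComplex : Algebra ℂ L]
  [algebra : Algebra K L]
  [tower : IsScalarTower ℂ K L]
  [finite : FiniteDimensional K L]
  /-- the function field of the base of the family -/
  k : IntermediateField ℂ L
  /-- the number of homogeneous coordinates minus one -/
  N : ℕ
  /-- the generic point of the generic member of the family -/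
  x : Fin (N + 1) → L
  /-- the generic member is almost homogeneous -/
  homogeneous : AlmostHomogeneous k x

attribute [instance] CoveringFamily.field CoveringFamily.algebraComplex CoveringFamily.algebra
  CoveringFamily.tower CoveringFamily.finite

/-- A projective variety with covering families of almost homogeneous varieties which have no common
non-constant rational function is special; it is Brody-special if it is a surface, or if the families are
fibrations. -/
theorem result (n : ℕ) (P : Ideal (MvPolynomial (Fin (n + 1)) ℂ)) [P.IsPrime] (hP : IsVariety P)
    (r : ℕ) (F : Fin r → CoveringFamily (functionField P))
    (h : ∀ u : functionField P,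
      (∀ i, IsAlgebraic (F i).k (algebraMap (functionField P) (F i).L u)) →
        ∃ c : ℂ, u = algebraMap ℂ (functionField P) c) :
    SpecialField (functionField P) ∧
      ((Algebra.trdeg ℂ (functionField P) = 2 ∨
          ∀ i, Function.Surjective (algebraMap (functionField P) (F i).L)) → BrodySpecial P) := by
  let i1 : ∀ i, Algebra (FunField P) (F i).L := fun i => (F i).algebra
  have i2 : ∀ i, IsScalarTower ℂ (FunField P) (F i).L := fun i => (F i).tower
  have i3 : ∀ i, FiniteDimensional (FunField P) (F i).L := fun i => (F i).finite
  refine ⟨Pool.Agent.K3.special_covers (K := FunField P) (funField_fg P) (fun i => (F i).L)
    (fun i => (F i).k) (fun i => (F i).N) (fun i => (F i).x) (fun i => (F i).homogeneous) h, ?_⟩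
  rintro (htr | hs)
  · exact Pool.Agent.K3.brody_surface P hP htr (fun i => (F i).L) (fun i => (F i).k)
      (fun i => (F i).N) (fun i => (F i).x) (fun i => (F i).homogeneous) h
  · exact Pool.Agent.K3.brody_fib P hP (fun i => (F i).L) (fun i => (F i).k)
      (fun i => (F i).N) (fun i => (F i).x) (fun i => (F i).homogeneous) hs h

end Pool.Agent.Results.MP_1209e6_ag.CoveringFamilies
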