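import Pool.Agent.Lib_MP_1209e6_k3.Defs
import Pool.Agent.Lib_MP_1209e6_fl.D4

/-! PIECE NOREL: no algebraic relation between `y 0, y 1` along the double flow. -/

set_option autoImplicit false

open Filter Topology Pool.Agent.CampanaFlow

namespace Pool.Agent.K3

/-- chain rule -/
theorem nr_chain {R : Type} [CommRing R] [Algebra ℂ R] (D : Derivation ℂ R R) (Y : Fin 2 → R)
    (c : MvPolynomial (Fin 2) ℂ) :
    D (MvPolynomial.aeval Y c) =
      ∑ j, MvPolynomial.aeval Y (MvPolynomial.pderiv j c) * D (Y j) := by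
  induction c using MvPolynomial.induction_on with
  | C a => simp
  | add p q hp hq =>
    rw [map_add, map_add, hp, hq, ← Finset.sum_add_distrib]
    refine Finset.sum_congr rfl fun j _ => ?_
    rw [map_add, map_add, add_mul]
  | mul_X p i hp =>
    rw [map_mul, Derivation.leibniz, hp, MvPolynomial.aeval_X, smul_eq_mul, smul_eq_mul]
    have h1 : ∀ j, MvPolynomial.aeval Y (MvPolynomial.pderiv j (p * MvPolynomial.X i)) * D (Y j) =
        (if j = i then MvPolynomial.aeval Y p * D (Y i) else 0) +
          Y i * (MvPolynomial.aeval Y (MvPolynomial.pderiv j p) * D (Y j)) := by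
      intro j
      rw [MvPolynomial.pderiv_mul, map_add, map_mul, map_mul, MvPolynomial.aeval_X]
      by_cases h : j = i
      · subst h
        rw [MvPolynomial.pderiv_X_self, map_one, if_pos rfl]
        ring
      · rw [MvPolynomial.pderiv_X_of_ne (Ne.symm h), map_zero, if_neg h]
        ring
    rw [Finset.sum_congr rfl fun j _ => h1 j, Finset.sum_add_distrib, ← Finset.mul_sum,
      Finset.sum_ite_eq' Finset.univ i, if_pos (Finset.mem_univ i)]

theorem nr_deg {c : MvPolynomial (Fin 2) ℂ} {N : ℕ} (hc : c.totalDegree ≤ N + 1) (j : Fin 2) :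
    (MvPolynomial.pderiv j c).totalDegree ≤ N := by
  classical
  unfold MvPolynomial.totalDegree
  refine Finset.sup_le fun m hm => ?_
  rw [MvPolynomial.mem_support_iff, MvPolynomial.coeff_pderiv] at hm
  have h1 : m + Finsupp.single j 1 ∈ c.support :=
    MvPolynomial.mem_support_iff.2 (left_ne_zero_of_mul hm)
  have h2 := (MvPolynomial.le_totalDegree h1).trans hc
  rw [Finsupp.sum_add_index' (fun _ => rfl) (fun _ _ _ => rfl), Finsupp.sum_single_index rfl] at h2
  omega

theorem nr_const {c : MvPolynomial (Fin 2) ℂ} (hc : ∀ j, MvPolynomial.pderiv j c = 0) :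
    c = MvPolynomial.C (MvPolynomial.coeff 0 c) := by
  classical
  ext m
  rw [MvPolynomial.coeff_C]
  by_cases hm : 0 = m
  · rw [if_pos hm, hm]
  · rw [if_neg hm]
    obtain ⟨j, hj⟩ : ∃ j, m j ≠ 0 := by
      by_contra hcon
      push Not at hcon
      exact hm (Finsupp.ext fun j => by rw [hcon j]; rfl)
    have h1 : m = (m - Finsupp.single j 1) + Finsupp.single j 1 := by
      ext i
      rw [Finsupp.add_apply, Finsupp.tsub_apply]
      by_cases h : j = i
      · subst h
        rw [Finsupp.single_eq_same]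
        omega
      · rw [Finsupp.single_eq_of_ne' h]
        omega
    have h2 := MvPolynomial.coeff_pderiv (i := j) c (m - Finsupp.single j 1)
    rw [hc j, MvPolynomial.coeff_zero, ← h1] at h2
    have h3 : (((m - Finsupp.single j 1 : Fin 2 →₀ ℕ) j : ℕ) : ℂ) + 1 ≠ 0 :=
      Nat.cast_add_one_ne_zero _
    exact (mul_eq_zero.1 h2.symm).resolve_right h3

/-- a nonzero determinant of two derivations gives algebraically independent elements -/
theorem nr_indep {R : Type} [CommRing R] [IsDomain R] [Algebra ℂ R] (D E : Derivation ℂ R R)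
    (Y : Fin 2 → R) (hdet : D (Y 0) * E (Y 1) - D (Y 1) * E (Y 0) ≠ 0) (N : ℕ) :
    ∀ c : MvPolynomial (Fin 2) ℂ, c.totalDegree ≤ N → MvPolynomial.aeval Y c = 0 → c = 0 := by
  have hconst : ∀ c : MvPolynomial (Fin 2) ℂ, MvPolynomial.aeval Y c = 0 →
      c = MvPolynomial.C (MvPolynomial.coeff 0 c) → c = 0 := by
    intro c h0 h1
    rw [h1, MvPolynomial.aeval_C] at h0
    have h2 : MvPolynomial.coeff 0 c = 0 := by
      have := (algebraMap ℂ R).injective (a₁ := MvPolynomial.coeff 0 c) (a₂ := 0)
      exact this (by rw [h0, map_zero])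
    rw [h1, h2, map_zero]
  induction N with
  | zero =>
    intro c hc h0
    exact hconst c h0 (MvPolynomial.totalDegree_eq_zero_iff_eq_C.1 (Nat.le_zero.1 hc))
  | succ N ih =>
    intro c hc h0
    have h1 := nr_chain D Y c
    have h2 := nr_chain E Y c
    rw [h0, map_zero, Fin.sum_univ_two] at h1 h2
    have h3 : MvPolynomial.aeval Y (MvPolynomial.pderiv 0 c) = 0 := by
      have : MvPolynomial.aeval Y (MvPolynomial.pderiv 0 c) *
          (D (Y 0) * E (Y 1) - D (Y 1) * E (Y 0)) = 0 := by
        linear_combination (-E (Y 1)) * h1 + D (Y 1) * h2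
      exact (mul_eq_zero.1 this).resolve_right hdet
    have h4 : MvPolynomial.aeval Y (MvPolynomial.pderiv 1 c) = 0 := by
      have : MvPolynomial.aeval Y (MvPolynomial.pderiv 1 c) *
          (D (Y 0) * E (Y 1) - D (Y 1) * E (Y 0)) = 0 := by
        linear_combination E (Y 0) * h1 - D (Y 0) * h2
      exact (mul_eq_zero.1 this).resolve_right hdet
    refine hconst c h0 (nr_const fun j => ?_)
    fin_cases j
    · exact ih _ (nr_deg hc 0) h3
    · exact ih _ (nr_deg hc 1) h4

/-- a derivation applied to all coefficients of a power series -/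
noncomputable def nrD {A : Type} [CommRing A] [Algebra ℂ A] (D : Derivation ℂ A A) :
    Derivation ℂ (PowerSeries A) (PowerSeries A) :=
  Derivation.mk'
    { toFun := fun φ => PowerSeries.mk fun n => D (PowerSeries.coeff n φ)
      map_add' := fun φ ψ => by
        ext n
        rw [map_add, PowerSeries.coeff_mk, PowerSeries.coeff_mk, PowerSeries.coeff_mk, map_add,
          map_add]
      map_smul' := fun r φ => by
        ext n
        simp }
    (fun φ ψ => by
      ext n
      simp only [LinearMap.coe_mk, AddHom.coe_mk, smul_eq_mul, map_add]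
      rw [PowerSeries.coeff_mk, PowerSeries.coeff_mul, PowerSeries.coeff_mul, PowerSeries.coeff_mul,
        map_sum, ← Finset.Nat.sum_antidiagonal_swap
          (f := fun x => PowerSeries.coeff x.1 ψ * PowerSeries.coeff x.2 _), ← Finset.sum_add_distrib]
      refine Finset.sum_congr rfl fun x _ => ?_
      simp only [Derivation.leibniz, smul_eq_mul, PowerSeries.coeff_mk, Prod.fst_swap,
        Prod.snd_swap])

theorem nrD_coeff {A : Type} [CommRing A] [Algebra ℂ A] (D : Derivation ℂ A A) (φ : PowerSeries A)
    (n : ℕ) : PowerSeries.coeff n (nrD D φ) = D (PowerSeries.coeff n φ) := by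
  show PowerSeries.coeff n (PowerSeries.mk fun n => D (PowerSeries.coeff n φ)) = _
  rw [PowerSeries.coeff_mk]

/-- the derivative of power series, as a derivation over `ℂ` -/
noncomputable def nrZ (A : Type) [CommRing A] [Algebra ℂ A] :
    Derivation ℂ (PowerSeries A) (PowerSeries A) :=
  Derivation.mk'
    { toFun := fun φ => PowerSeries.derivative A φ
      map_add' := fun φ ψ => map_add _ φ ψ
      map_smul' := fun r φ => by
        ext n
        simp [PowerSeries.coeff_derivative] }
    (fun φ ψ => (PowerSeries.derivative A).leibniz φ ψ)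

theorem nrZ_coeff {A : Type} [CommRing A] [Algebra ℂ A] (φ : PowerSeries A) (n : ℕ) :
    PowerSeries.coeff n (nrZ A φ) = PowerSeries.coeff (n + 1) φ * (n + 1) :=
  PowerSeries.coeff_derivative φ n

/-- `F (s, z) = (ps2 (co2 d e p (y 0)) s z, ps2 (co2 d e p (y 1)) s z)` has the invertible strict derivative
`(p (d (y j)), p (e (y j)))` at the origin. Here the proof is algebraic: the double Taylor series gives a ring
homomorphism to `ℂ⟦s⟧⟦z⟧`, which kills `f`, hence `c (y)`; the partial derivatives with respect to `s` and `z`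
are derivations of `ℂ⟦s⟧⟦z⟧` with a nonzero determinant at the images of `y 0, y 1`. -/
theorem norel {S : Type} [CommRing S] [Algebra ℂ S] [Algebra.FiniteType ℂ S] (d e : Derivation ℂ S S)
    (p : S →ₐ[ℂ] ℂ) (y : Fin 2 → S) (hdet : p (d (y 0) * e (y 1) - d (y 1) * e (y 0)) ≠ 0)
    (c : MvPolynomial (Fin 2) ℂ) (hc : c ≠ 0) (f g : S) (hfg : MvPolynomial.aeval y c = f * g)
    (hf : ∀ m n, co2 d e p f m n = 0) : False := by
  have hΦf : D4_T e (D4_T d p) f = 0 := by
    rw [D4_T_eq_zero]
    intro n
    rw [D4_T_eq_zero]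
    intro m
    have h1 := hf m n
    unfold co2 at h1
    rcases div_eq_zero_iff.1 h1 with h2 | h2
    · exact h2
    · exfalso
      rcases mul_eq_zero.1 h2 with h3 | h3
      · exact Nat.factorial_ne_zero m (by exact_mod_cast h3)
      · exact Nat.factorial_ne_zero n (by exact_mod_cast h3)
  have hker : MvPolynomial.aeval (fun j => D4_T e (D4_T d p) (y j)) c = 0 := by
    have h1 : MvPolynomial.aeval (fun j => D4_T e (D4_T d p) (y j)) c =
        D4_T e (D4_T d p) (MvPolynomial.aeval y c) := by
      rw [← MvPolynomial.comp_aeval_apply]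
    rw [h1, hfg, map_mul, hΦf, zero_mul]
  have hs : ∀ h : S, PowerSeries.constantCoeff (PowerSeries.constantCoeff
      (nrD (nrZ ℂ) (D4_T e (D4_T d p) h))) = p (d h) := by
    intro h
    rw [← PowerSeries.coeff_zero_eq_constantCoeff_apply,
      ← PowerSeries.coeff_zero_eq_constantCoeff_apply, nrD_coeff, nrZ_coeff]
    show PowerSeries.coeff (0 + 1) (PowerSeries.coeff 0 (PowerSeries.mk fun n =>
      D4_T d p (D4_c e n h))) * _ = _
    rw [PowerSeries.coeff_mk]
    show PowerSeries.coeff (0 + 1) (PowerSeries.mk fun m => p (D4_c d m (D4_c e 0 h))) * _ = _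
    rw [PowerSeries.coeff_mk, D4_c_zero]
    simp [D4_c]
  have hz : ∀ h : S, PowerSeries.constantCoeff (PowerSeries.constantCoeff
      (nrZ (PowerSeries ℂ) (D4_T e (D4_T d p) h))) = p (e h) := by
    intro h
    rw [← PowerSeries.coeff_zero_eq_constantCoeff_apply,
      ← PowerSeries.coeff_zero_eq_constantCoeff_apply, nrZ_coeff]
    show PowerSeries.coeff 0 (PowerSeries.coeff (0 + 1) (PowerSeries.mk fun n =>
      D4_T d p (D4_c e n h)) * _) = _
    rw [PowerSeries.coeff_mk]
    have h1 : PowerSeries.coeff 0 (D4_T d p (D4_c e (0 + 1) h)) = p (e h) := by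
      show PowerSeries.coeff 0 (PowerSeries.mk fun m => p (D4_c d m (D4_c e (0 + 1) h))) = _
      rw [PowerSeries.coeff_mk, D4_c_zero]
      simp [D4_c]
    simpa using h1
  refine hc (nr_indep (nrD (nrZ ℂ)) (nrZ (PowerSeries ℂ))
    (fun j => D4_T e (D4_T d p) (y j)) ?_ c.totalDegree c le_rfl hker)
  intro h0
  have h1 := congrArg (fun u => PowerSeries.constantCoeff (PowerSeries.constantCoeff u)) h0
  simp only [map_sub, map_mul, map_zero] at h1
  rw [hs, hs, hz, hz] at h1
  apply hdet
  rw [map_sub, map_mul, map_mul]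
  exact h1

end Pool.Agent.K3
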