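import Pool.Agent.Lib_MP_1209e6_k3.Defs
import Pool.Agent.Lib_MP_1209e6_k3.NoRel

/-! PIECE REL: algebraic relations over the two coordinates. -/

set_option autoImplicit false

open Filter Topology Pool.Agent.CampanaFlow

namespace Pool.Agent.K3

/-- a nonzero determinant of two derivations gives algebraically independent elements (a relation of minimal
degree: its partial derivatives vanish at `y`) -/
theorem indep {M : Type} [Field M] [Algebra ℂ M] (D₁ D₂ : Derivation ℂ M M) (y : Fin 2 → M)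
    (hdet : D₂ (y 0) * D₁ (y 1) - D₂ (y 1) * D₁ (y 0) ≠ 0) : AlgebraicIndependent ℂ y := by
  rw [algebraicIndependent_iff]
  exact fun c hc => nr_indep D₂ D₁ y hdet c.totalDegree c le_rfl hc

/-- transcendence degree two -/
theorem alg_of_trdeg {K M : Type} [Field K] [Algebra ℂ K] [Field M] [Algebra ℂ M] (σ : K →ₐ[ℂ] M)
    (htr : Algebra.trdeg ℂ K = 2) (y : Fin 2 → K) (hy : AlgebraicIndependent ℂ y)
    (halg : ∀ a : M, ∃ P : Polynomial K, P ≠ 0 ∧ P.eval₂ (σ : K →+* M) a = 0) (a : M) :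
    ∃ P : Polynomial (MvPolynomial (Fin 2) ℂ), P ≠ 0 ∧
      P.eval₂ (MvPolynomial.aeval fun j => σ (y j)).toRingHom a = 0 := by
  have hb : IsTranscendenceBasis ℂ y := by
    refine hy.isTranscendenceBasis_of_trdeg_le ?_ ?_
    · rw [htr]
      exact Cardinal.ofNat_lt_aleph0
    · rw [htr]
      simp
  letI : Algebra K M := (σ : K →+* M).toAlgebra
  have : IsScalarTower ℂ K M := IsScalarTower.of_algebraMap_eq fun r => (σ.commutes r).symm
  have h1 : Algebra.IsAlgebraic (Algebra.adjoin ℂ (Set.range y)) K := hb.isAlgebraic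
  have h2 : Algebra.IsAlgebraic K M := ⟨fun x => by
    obtain ⟨P, hP, h0⟩ := halg x
    exact ⟨P, hP, h0⟩⟩
  have h3 : Algebra.IsAlgebraic (Algebra.adjoin ℂ (Set.range y)) M :=
    Algebra.IsAlgebraic.trans _ K M
  obtain ⟨P, hP, h0⟩ := h3.isAlgebraic a
  let φ : MvPolynomial (Fin 2) ℂ ≃ₐ[ℂ] Algebra.adjoin ℂ (Set.range y) := hy.aevalEquiv
  refine ⟨P.map (φ.symm : Algebra.adjoin ℂ (Set.range y) →+* MvPolynomial (Fin 2) ℂ), ?_, ?_⟩
  · rw [Ne, Polynomial.map_eq_zero_iff]
    · exact hP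
    · exact φ.symm.injective
  · rw [Polynomial.eval₂_map]
    rw [Polynomial.aeval_def] at h0
    rw [← h0]
    congr 1
    refine RingHom.ext fun z => ?_
    obtain ⟨w, rfl⟩ := φ.surjective z
    show MvPolynomial.aeval (fun j => σ (y j)) (φ.symm (φ w)) = σ ((φ w : Algebra.adjoin ℂ (Set.range y)) : K)
    rw [φ.symm_apply_apply]
    have h4 : ((φ w : Algebra.adjoin ℂ (Set.range y)) : K) = MvPolynomial.aeval y w :=
      hy.algebraMap_aevalEquiv w
    rw [h4, MvPolynomial.comp_aeval_apply]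

theorem rel_min {M : Type} [Field M] [Algebra ℂ M] (y : Fin 2 → M) (f : M)
    (h : ∃ P : Polynomial (MvPolynomial (Fin 2) ℂ), P ≠ 0 ∧
      P.eval₂ (MvPolynomial.aeval y).toRingHom f = 0) :
    ∃ P : Polynomial (MvPolynomial (Fin 2) ℂ), P ≠ 0 ∧
      P.eval₂ (MvPolynomial.aeval y).toRingHom f = 0 ∧
      ∀ Q : Polynomial (MvPolynomial (Fin 2) ℂ), Q.natDegree < P.natDegree →
        Q.eval₂ (MvPolynomial.aeval y).toRingHom f = 0 → Q = 0 := by
  classical
  have hex : ∃ n : ℕ, ∃ P : Polynomial (MvPolynomial (Fin 2) ℂ), P.natDegree = n ∧ P ≠ 0 ∧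
      P.eval₂ (MvPolynomial.aeval y).toRingHom f = 0 := by
    obtain ⟨P, hP, h0⟩ := h
    exact ⟨_, P, rfl, hP, h0⟩
  obtain ⟨P, hn, hP, h0⟩ := Nat.find_spec hex
  refine ⟨P, hP, h0, fun Q hQ hQ0 => ?_⟩
  by_contra hne
  rw [hn] at hQ
  exact Nat.find_min hex hQ ⟨Q, rfl, hne, hQ0⟩

/-- simple roots: a nonzero relation of minimal degree -/
theorem rel_simple {M : Type} [Field M] [Algebra ℂ M] (y : Fin 2 → M)
    (hy : AlgebraicIndependent ℂ y) (f : M)
    (h : ∃ P : Polynomial (MvPolynomial (Fin 2) ℂ), P ≠ 0 ∧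
      P.eval₂ (MvPolynomial.aeval y).toRingHom f = 0) :
    ∃ P : Polynomial (MvPolynomial (Fin 2) ℂ),
      P.eval₂ (MvPolynomial.aeval y).toRingHom f = 0 ∧
      P.derivative.eval₂ (MvPolynomial.aeval y).toRingHom f ≠ 0 := by
  obtain ⟨P, hP, h0, hmin⟩ := rel_min y f h
  refine ⟨P, h0, fun hd => ?_⟩
  have hnd : P.natDegree ≠ 0 := by
    intro hdeg
    obtain ⟨c, rfl⟩ := Polynomial.natDegree_eq_zero.1 hdeg
    rw [Polynomial.eval₂_C] at h0
    have h1 : c = 0 := (algebraicIndependent_iff.1 hy) c h0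
    exact hP (by rw [h1, map_zero])
  have h1 : P.derivative = 0 :=
    hmin _ (Polynomial.natDegree_derivative_lt hnd) hd
  exact hnd (Polynomial.derivative_eq_zero.1 h1)

/-- a nonzero multiple of `f` is a polynomial in `y`: constant coefficient of a relation of minimal degree -/
theorem rel_mul {M : Type} [Field M] [Algebra ℂ M] (y : Fin 2 → M) (f : M) (hf : f ≠ 0)
    (h : ∃ P : Polynomial (MvPolynomial (Fin 2) ℂ), P ≠ 0 ∧
      P.eval₂ (MvPolynomial.aeval y).toRingHom f = 0) :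
    ∃ (c : MvPolynomial (Fin 2) ℂ) (Q : Polynomial (MvPolynomial (Fin 2) ℂ)), c ≠ 0 ∧
      MvPolynomial.aeval y c = f * Q.eval₂ (MvPolynomial.aeval y).toRingHom f := by
  obtain ⟨P, hP, h0, hmin⟩ := rel_min y f h
  have h1 := Polynomial.divX_mul_X_add P
  have h2 : P.divX.eval₂ (MvPolynomial.aeval y).toRingHom f * f +
      MvPolynomial.aeval y (P.coeff 0) = 0 := by
    rw [← h0]
    conv_rhs => rw [← h1]
    rw [Polynomial.eval₂_add, Polynomial.eval₂_mul, Polynomial.eval₂_X, Polynomial.eval₂_C]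
    rfl
  refine ⟨P.coeff 0, -P.divX, ?_, ?_⟩
  · intro hc
    rw [hc, map_zero, add_zero] at h2
    have h3 : P.divX.eval₂ (MvPolynomial.aeval y).toRingHom f = 0 :=
      (mul_eq_zero.1 h2).resolve_right hf
    have hnd : P.natDegree ≠ 0 := by
      intro hdeg
      obtain ⟨c, rfl⟩ := Polynomial.natDegree_eq_zero.1 hdeg
      rw [Polynomial.coeff_C_zero] at hc
      exact hP (by rw [hc, map_zero])
    have h4 : P.divX = 0 := hmin _ (by rw [Polynomial.natDegree_divX_eq_natDegree_tsub_one]; omega) h3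
    rw [h4, hc, map_zero, zero_mul, zero_add] at h1
    exact hP h1.symm
  · rw [Polynomial.eval₂_neg]
    linear_combination h2

end Pool.Agent.K3
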