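import Pool.Agent.Lib_MP_1209e6_k3.Defs

/-! PIECE STABLE: a finitely generated ring stable under derivations. -/

set_option autoImplicit false

open Filter Topology Pool.Agent.CampanaFlow

namespace Pool.Agent.K3

/-- a derivation which maps generators of a subalgebra into a larger subalgebra maps the whole
subalgebra there -/
theorem stable_pres {M : Type} [Field M] [Algebra ℂ M] (D : Derivation ℂ M M)
    (R : Subalgebra ℂ M) (s : Set M)
    (hs : Algebra.adjoin ℂ s ≤ R) (h : ∀ y ∈ s, D y ∈ R) :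
    ∀ f ∈ Algebra.adjoin ℂ s, D f ∈ R := by
  intro f hf
  induction hf using Algebra.adjoin_induction with
  | mem x hx => exact h x hx
  | algebraMap r => rw [Derivation.map_algebraMap]; exact R.zero_mem
  | add x y _ _ hx hy => rw [map_add]; exact R.add_mem hx hy
  | mul x y hx' hy' hx hy =>
    rw [Derivation.leibniz, smul_eq_mul, smul_eq_mul]
    exact R.add_mem (R.mul_mem (hs hx') hy) (R.mul_mem (hs hy') hx)

/-- `A` = ring generated by a finite set `G ⊇ T` generating the field; `D i g = a / b` with `a, b ∈ A`, `b ≠ 0`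
(one common `b`); `S = A[1/b]`. -/
theorem stable {M : Type} [Field M] [Algebra ℂ M]
    (hfg : ∃ T : Finset M, IntermediateField.adjoin ℂ (T : Set M) = ⊤)
    (D : Fin 2 → Derivation ℂ M M) (T : Finset M) :
    ∃ (S : Subalgebra ℂ M) (d : Fin 2 → Derivation ℂ S S), Algebra.FiniteType ℂ S ∧
      (T : Set M) ⊆ S ∧ ∀ i (f : S), ((d i f : S) : M) = D i f := by
  classical
  obtain ⟨T₀, hT₀⟩ := hfg
  let G : Finset M := T ∪ T₀
  let A : Subalgebra ℂ M := Algebra.adjoin ℂ (G : Set M)
  have hfrac : ∀ u : M, ∃ r ∈ A, ∃ s ∈ A, s ≠ 0 ∧ u = r / s := by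
    intro u
    have hu : u ∈ IntermediateField.adjoin ℂ (G : Set M) := by
      have h1 : IntermediateField.adjoin ℂ (T₀ : Set M) ≤
          IntermediateField.adjoin ℂ (G : Set M) := by
        apply IntermediateField.adjoin.mono
        intro y hy
        exact Finset.mem_coe.2 (Finset.mem_union_right _ hy)
      rw [hT₀] at h1
      exact h1 trivial
    rw [IntermediateField.mem_adjoin_iff_div] at hu
    obtain ⟨r, hr, s, hs, h⟩ := hu
    by_cases hs0 : s = 0
    · refine ⟨0, Subalgebra.zero_mem _, 1, Subalgebra.one_mem _, one_ne_zero, ?_⟩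
      rw [h, hs0, div_zero, zero_div]
    · exact ⟨r, hr, s, hs, hs0, h⟩
  choose r hr s hs hs0 hrs using hfrac
  let s' : M → A := fun u => ⟨s u, hs u⟩
  let b' : A := ∏ i : Fin 2, ∏ g ∈ G, s' (D i g)
  have hb0 : (b' : M) ≠ 0 := by
    have h1 : b' ≠ 0 := by
      refine Finset.prod_ne_zero_iff.2 fun i _ => Finset.prod_ne_zero_iff.2 fun g _ => ?_
      intro h
      exact hs0 (D i g) (congrArg Subtype.val h)
    intro h
    exact h1 (Subtype.ext h)
  let S : Subalgebra ℂ M := Algebra.adjoin ℂ ((insert (b' : M)⁻¹ G : Finset M) : Set M)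
  have hAS : A ≤ S := Algebra.adjoin_mono (by
    intro y hy
    exact Finset.mem_coe.2 (Finset.mem_insert_of_mem hy))
  have hbi : (b' : M)⁻¹ ∈ S :=
    Algebra.subset_adjoin (Finset.mem_coe.2 (Finset.mem_insert_self _ _))
  have hDG : ∀ i, ∀ g ∈ (G : Set M), D i g ∈ S := by
    intro i g hg
    have hdvd : s' (D i g) ∣ b' :=
      (Finset.dvd_prod_of_mem (fun g => s' (D i g)) (Finset.mem_coe.1 hg)).trans
        (Finset.dvd_prod_of_mem (fun i => ∏ g ∈ G, s' (D i g)) (Finset.mem_univ i))
    obtain ⟨t, ht⟩ := hdvd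
    have h1 : (b' : M) = s (D i g) * t := congrArg Subtype.val ht
    have h2 : D i g = r (D i g) * ((t : M) * (b' : M)⁻¹) := by
      have h3 := hs0 (D i g)
      have ht0 : (t : M) ≠ 0 := by
        intro h
        rw [h, mul_zero] at h1
        exact hb0 h1
      conv_lhs => rw [hrs (D i g)]
      rw [h1]
      field_simp
    rw [h2]
    exact S.mul_mem (hAS (hr _)) (S.mul_mem (hAS t.2) hbi)
  have hDA : ∀ i, ∀ f ∈ A, D i f ∈ S := fun i => stable_pres (D i) S _ hAS (hDG i)
  have hDS : ∀ i, ∀ f ∈ S, D i f ∈ S := by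
    intro i
    refine stable_pres (D i) S _ le_rfl ?_
    intro y hy
    rcases Finset.mem_insert.1 (Finset.mem_coe.1 hy) with rfl | hy
    · rw [Derivation.leibniz_inv]
      rw [smul_eq_mul]
      refine S.mul_mem ?_ (hDA i _ b'.2)
      refine S.neg_mem (S.pow_mem hbi _)
    · exact hDG i y hy
  let d : Fin 2 → Derivation ℂ S S := fun i => Derivation.mk'
    (LinearMap.codRestrict (Subalgebra.toSubmodule S)
      ((D i).toLinearMap.comp S.val.toLinearMap) (fun f => hDS i f f.2)) (by
        intro a b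
        apply Subtype.ext
        show D i ((a : M) * b) = (a : M) * D i b + (b : M) * D i a
        rw [Derivation.leibniz]
        rfl)
  refine ⟨S, d, (Subalgebra.fg_iff_finiteType S).1 ⟨_, rfl⟩, ?_, fun i f => rfl⟩
  intro y hy
  refine hAS (Algebra.subset_adjoin ?_)
  exact Finset.mem_coe.2 (Finset.mem_union_left _ hy)

end Pool.Agent.K3
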