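import Pool.Agent.Lib_MP_1209e6_k3.NodeCurve
import Pool.Agent.Lib_MP_1209e6_k3.ConjCases
import Pool.Agent.Lib_MP_1209e6_k3.Rel
import Pool.Agent.Lib_MP_1209e6_k3.Stable
import Pool.Agent.Lib_MP_1209e6_fl.D9

/-! PIECE CURVE: the dense curve of a covered surface. -/

set_option autoImplicit false

open Filter Topology Pool.Agent.CampanaFlow

namespace Pool.Agent.K3

/-- A finite extension of a finitely generated field is finitely generated. -/
theorem cover_fg {K L : Type} [Field K] [Algebra ℂ K] [Field L] [Algebra ℂ L] [Algebra K L]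
    [IsScalarTower ℂ K L] [FiniteDimensional K L]
    (hfg : ∃ T : Finset K, IntermediateField.adjoin ℂ (T : Set K) = ⊤) :
    ∃ T : Finset L, IntermediateField.adjoin ℂ (T : Set L) = ⊤ := by
  have hessK : Algebra.EssFiniteType ℂ K := IntermediateField.fg_top_iff.1 hfg
  have hessL : Algebra.EssFiniteType ℂ L := Algebra.EssFiniteType.comp ℂ K L
  exact IntermediateField.fg_top_iff.2 hessL

/-- Case 1: the derivation `D` of the covering field has only the constants as first integrals. -/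
theorem cover_curve_one {K L : Type} [Field K] [Field L] [Algebra ℂ K] [Algebra ℂ L] [Algebra K L]
    [IsScalarTower ℂ K L] [FiniteDimensional K L]
    (hfg : ∃ T : Finset K, IntermediateField.adjoin ℂ (T : Set K) = ⊤)
    (D : Derivation ℂ L L) (k : IntermediateField ℂ L) (N : ℕ)
    (x : Fin (N + 1) → L) (hx : ∀ l, x l ≠ 0)
    (hgen : IntermediateField.adjoin ℂ ((k : Set L) ∪ Set.range fun l => x l / x 0) = ⊤)
    (hD : GlobalField k x D)
    (hc : ∀ u : L, D u = 0 → ∃ c : ℂ, u = algebraMap ℂ L c) (T : Finset K) :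
    ∃ (R : Subalgebra ℂ K) (γ : ℂ → R →ₐ[ℂ] ℂ) (B : Set ℂ), (T : Set K) ⊆ R ∧
      IsCurve Set.univ γ B ∧ ∀ f : R, (∀ z, z ∉ B → γ z f = 0) → f = 0 := by
  classical
  let j : K →ₐ[ℂ] L := IsScalarTower.toAlgHom ℂ K L
  obtain ⟨S, d, hS, hT, hd, hcd⟩ := exists_ring (cover_fg (K := K) hfg)
    (fun _ : Unit => D) (fun _ => ⟨k, N, x, hx, hgen, hD⟩) (T.image j)
  obtain ⟨p, hp⟩ := very_general S (fun _ : Unit => D) d hd fun u hu => hc u (hu ())
  obtain ⟨γ, B, hγ, hdense⟩ := dense_curve d (fun i => (hcd i).some) p hp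
  let i : S.comap j →ₐ[ℂ] S := (j.comp (S.comap j).val).codRestrict S fun f => f.2
  refine ⟨S.comap j, fun z => (γ z).comp i, B, fun a ha => ?_,
    ⟨hγ.disc, fun f z hz hzB => hγ.ana (i f) z hz hzB, fun f z hz => hγ.mer (i f) z hz⟩, ?_⟩
  · exact hT (Finset.mem_coe.2 (Finset.mem_image.2 ⟨a, ha, rfl⟩))
  · intro f hf
    have h1 := congrArg Subtype.val (hdense (i f) hf)
    exact Subtype.ext ((map_eq_zero j).1 h1)

/-- Case 1 of `conj_cases` (only constants in the kernel of `D` on `L`): `exists_ring` (one derivation),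
`very_general`, `dense_curve`, restricted to `R`. Case 2: `exists_ring` on `L` for `D` gives `S_L` with
`ChartData` and the images of `T` and of the `u j`; `stable` on `M` with the images of generators of `S_L` under
`σ₁, σ₂`, `d 0 = D₂`, `d 1 = D₁`; a point `p` (`avoid`) off the determinant and the derivatives of the simple
relations of the generators (`rel_simple`); `hrel` from `rel_mul`; `node_curve`. -/
theorem cover_curve {K L : Type} [Field K] [Field L] [Algebra ℂ K] [Algebra ℂ L] [Algebra K L]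
    [IsScalarTower ℂ K L] [FiniteDimensional K L]
    (hfg : ∃ T : Finset K, IntermediateField.adjoin ℂ (T : Set K) = ⊤)
    (htr : Algebra.trdeg ℂ K = 2) (D : Derivation ℂ L L) (k : IntermediateField ℂ L) (N : ℕ)
    (x : Fin (N + 1) → L) (hx : ∀ l, x l ≠ 0)
    (hgen : IntermediateField.adjoin ℂ ((k : Set L) ∪ Set.range fun l => x l / x 0) = ⊤)
    (hD : GlobalField k x D)
    (hc : ∀ u : K, D (algebraMap K L u) = 0 → ∃ c : ℂ, u = algebraMap ℂ K c) (T : Finset K) :
    ∃ (R : Subalgebra ℂ K) (γ : ℂ → R →ₐ[ℂ] ℂ) (B : Set ℂ), (T : Set K) ⊆ R ∧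
      IsCurve Set.univ γ B ∧ ∀ f : R, (∀ z, z ∉ B → γ z f = 0) → f = 0 := by
  classical
  rcases conj_cases hfg D hc with h | ⟨Cj⟩
  · exact cover_curve_one hfg D k N x hx hgen hD h T
  obtain ⟨M, σ₁, σ₂, hsame, D₁, D₂, hcomm₁, hcomm₂, u, hdet, halg, hMfg⟩ := Cj
  let j : K →ₐ[ℂ] L := IsScalarTower.toAlgHom ℂ K L
  -- the ring of the covering
  obtain ⟨SL, dL, hSL, hTL, hdL, hcd⟩ := exists_ring (cover_fg (K := K) hfg)
    (fun _ : Unit => D) (fun _ => ⟨k, N, x, hx, hgen, hD⟩)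
    ((T ∪ Finset.univ.image u).image j)
  -- the ring of the base
  let R : Subalgebra ℂ K := Algebra.adjoin ℂ ((T ∪ Finset.univ.image u : Finset K) : Set K)
  have hTR : ((T ∪ Finset.univ.image u : Finset K) : Set K) ⊆ R := Algebra.subset_adjoin
  have huR : ∀ i, u i ∈ R := fun i => hTR (by simp)
  have hRS : ∀ f : R, j f ∈ SL := by
    have h1 : R ≤ SL.comap j := by
      refine Algebra.adjoin_le fun a ha => ?_
      exact hTL (Finset.mem_coe.2 (Finset.mem_image.2 ⟨a, Finset.mem_coe.1 ha, rfl⟩))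
    exact fun f => h1 f.2
  let j₁ : R →ₐ[ℂ] SL := (j.comp R.val).codRestrict SL hRS
  -- generators of the ring of the covering
  obtain ⟨GS, hGS⟩ := Subalgebra.fg_iff_finiteType SL |>.2 hSL
  -- the big ring
  obtain ⟨S, dd, hS, hTS, hdd⟩ := stable hMfg ![D₂, D₁] (GS.image σ₁ ∪ GS.image σ₂)
  have hm₁ : ∀ f : SL, σ₁ f ∈ S := by
    have h1 : SL ≤ S.comap σ₁ := by
      rw [← hGS]
      refine Algebra.adjoin_le fun a ha => ?_
      exact hTS (Finset.mem_coe.2 (Finset.mem_union_left _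
        (Finset.mem_image.2 ⟨a, Finset.mem_coe.1 ha, rfl⟩)))
    exact fun f => h1 f.2
  have hm₂ : ∀ f : SL, σ₂ f ∈ S := by
    have h1 : SL ≤ S.comap σ₂ := by
      rw [← hGS]
      refine Algebra.adjoin_le fun a ha => ?_
      exact hTS (Finset.mem_coe.2 (Finset.mem_union_right _
        (Finset.mem_image.2 ⟨a, Finset.mem_coe.1 ha, rfl⟩)))
    exact fun f => h1 f.2
  let ι₁ : SL →ₐ[ℂ] S := (σ₁.comp SL.val).codRestrict S hm₁
  let ι₂ : SL →ₐ[ℂ] S := (σ₂.comp SL.val).codRestrict S hm₂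
  let σ : K →ₐ[ℂ] M := σ₁.comp j
  -- the coordinates
  let y : Fin 2 → R := fun i => ⟨u i, huR i⟩
  let yM : Fin 2 → M := fun i => σ (u i)
  have hyM : AlgebraicIndependent ℂ yM := indep D₁ D₂ yM hdet
  have hu : AlgebraicIndependent ℂ u := AlgebraicIndependent.of_comp σ hyM
  have hP0 : ∀ a : M, ∃ P : Polynomial (MvPolynomial (Fin 2) ℂ), P ≠ 0 ∧
      P.eval₂ (MvPolynomial.aeval yM).toRingHom a = 0 :=
    alg_of_trdeg σ htr u hu halg
  -- evaluation in the different rings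
  let φ : R →ₐ[ℂ] M := σ.comp R.val
  have hφ : ∀ f : R, φ f = ((ι₁ (j₁ f) : S) : M) := fun f => rfl
  have hφinj : Function.Injective φ := fun a b hab =>
    Subtype.ext (σ.toRingHom.injective hab)
  have hev : ∀ (P : Polynomial (MvPolynomial (Fin 2) ℂ)) (f : R),
      φ (P.eval₂ (MvPolynomial.aeval y).toRingHom f) =
        P.eval₂ (MvPolynomial.aeval yM).toRingHom (φ f) := by
    intro P f
    have h1 : (φ.toRingHom).comp (MvPolynomial.aeval y : MvPolynomial (Fin 2) ℂ →ₐ[ℂ] R).toRingHom =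
        (MvPolynomial.aeval yM : MvPolynomial (Fin 2) ℂ →ₐ[ℂ] M).toRingHom := by
      have h2 : φ.comp (MvPolynomial.aeval y) = MvPolynomial.aeval yM := by
        apply MvPolynomial.algHom_ext
        intro i
        simp [y, yM, φ]
      exact congrArg AlgHom.toRingHom h2
    rw [← h1]
    exact Polynomial.hom_eval₂ P _ φ.toRingHom f
  -- simple relations of the generators
  let G : Finset R := (T ∪ Finset.univ.image u).attach.image fun a => ⟨a.1, hTR a.2⟩
  have hG : Algebra.adjoin ℂ (G : Set R) = ⊤ := by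
    have h1 : (G : Set R) =
        ((↑) : R → K) ⁻¹' ((T ∪ Finset.univ.image u : Finset K) : Set K) := by
      ext a
      simp only [G, Finset.coe_image, Set.mem_image, Finset.mem_coe, Finset.mem_attach, true_and,
        Subtype.exists, Set.mem_preimage]
      constructor
      · rintro ⟨b, hb, rfl⟩
        exact hb
      · intro ha
        exact ⟨a, ha, rfl⟩
    rw [h1]
    exact Algebra.adjoin_adjoin_coe_preimage
  have hPs : ∀ g : R, ∃ P : Polynomial (MvPolynomial (Fin 2) ℂ),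
      P.eval₂ (MvPolynomial.aeval y).toRingHom g = 0 ∧
      P.derivative.eval₂ (MvPolynomial.aeval y).toRingHom g ≠ 0 := by
    intro g
    obtain ⟨P, hP1, hP2⟩ := rel_simple yM hyM (φ g) (hP0 _)
    refine ⟨P, hφinj ?_, fun h => hP2 ?_⟩
    · rw [hev, hP1, map_zero]
    · rw [← hev, h, map_zero]
  choose Pr hPr1 hPr2 using hPs
  -- the point
  have hinj : ∀ f : R, f ≠ 0 → ι₁ (j₁ f) ≠ 0 := by
    intro f hf h
    apply hf
    apply hφinj
    rw [hφ, h, map_zero]
    rfl
  have hdetS : dd 0 (ι₁ (j₁ (y 0))) * dd 1 (ι₁ (j₁ (y 1))) -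
      dd 0 (ι₁ (j₁ (y 1))) * dd 1 (ι₁ (j₁ (y 0))) ≠ 0 := by
    intro h
    apply hdet
    have h1 := congrArg Subtype.val h
    simp only [AddSubgroupClass.coe_sub, MulMemClass.coe_mul, hdd, Matrix.cons_val_zero,
      Matrix.cons_val_one, ZeroMemClass.coe_zero] at h1
    exact h1
  have hW : (dd 0 (ι₁ (j₁ (y 0))) * dd 1 (ι₁ (j₁ (y 1))) -
      dd 0 (ι₁ (j₁ (y 1))) * dd 1 (ι₁ (j₁ (y 0)))) *
      ∏ g ∈ G, ι₁ (j₁ ((Pr g).derivative.eval₂ (MvPolynomial.aeval y).toRingHom g)) ≠ 0 :=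
    mul_ne_zero hdetS (Finset.prod_ne_zero_iff.2 fun g _ => hinj _ (hPr2 g))
  obtain ⟨p, hp⟩ := avoid (fun _ => _) fun _ => hW
  have hp0 := hp 0
  rw [map_mul, map_prod] at hp0
  have hpdet := left_ne_zero_of_mul hp0
  have hpG := Finset.prod_ne_zero_iff.1 (right_ne_zero_of_mul hp0)
  -- the two tubes
  obtain ⟨γ, B, hγ, hdense⟩ := node_curve (dd 0) (dd 1) ι₁ ι₂ (dL ()) (dL ())
    (fun a => Subtype.ext (by
      rw [hdd]
      show σ₁ ((dL () a : SL) : L) = D₁ (σ₁ a)
      rw [hdL, hcomm₁]))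
    (fun a => Subtype.ext (by
      rw [hdd]
      show σ₂ ((dL () a : SL) : L) = D₂ (σ₂ a)
      rw [hdL, hcomm₂]))
    (hcd ()).some (hcd ()).some j₁ j₁ (fun a => Subtype.ext (hsame a)) p y G hG
    (fun g hg => ⟨Pr g, hPr1 g, hpG g hg⟩) hpdet (fun f hf => by
      obtain ⟨c, Q, hc0, hcQ⟩ := rel_mul yM (φ f) (fun h => hf (hφinj (by rw [h, map_zero]))) (hP0 _)
      refine ⟨c, ι₁ (j₁ (Q.eval₂ (MvPolynomial.aeval y).toRingHom f)), hc0, Subtype.ext ?_⟩
      show ((MvPolynomial.aeval (fun j => ι₁ (j₁ (y j))) c : S) : M) = φ f * φ (Q.eval₂ _ f)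
      rw [hev, ← hcQ]
      have h2 : S.val.comp (MvPolynomial.aeval (fun j => ι₁ (j₁ (y j)))) = MvPolynomial.aeval yM := by
        apply MvPolynomial.algHom_ext
        intro i
        simp [y, yM]
        rfl
      exact DFunLike.congr_fun h2 c)
  exact ⟨R, γ, B, fun a ha => hTR (by simp [Finset.mem_coe.1 ha]), hγ, hdense⟩

end Pool.Agent.K3
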