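import Pool.Agent.Lib_MP_1209e6_fl.Defs

/-!
# Two tubes glued at a node: definitions

`MP_1209e6_ag`, Theorem K (helper92).
-/

set_option autoImplicit false

open Filter Topology Pool.Agent.CampanaFlow

namespace Pool.Agent.K3

/-- a double power series -/
noncomputable def ps2 (c : ℕ → ℕ → ℂ) (x y : ℂ) : ℂ := ∑' p : ℕ × ℕ, c p.1 p.2 * x ^ p.1 * y ^ p.2

/-- Taylor coefficients of `f` along: first the flow of `d` from the point `p` (variable `s`, exponent `m`),
then the flow of `e` (variable `z`, exponent `n`). -/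
noncomputable def co2 {S : Type} [CommRing S] [Algebra ℂ S] (d e : Derivation ℂ S S) (p : S →ₐ[ℂ] ℂ)
    (f : S) (m n : ℕ) : ℂ := p (d^[m] (e^[n] f)) / (m.factorial * n.factorial)

/-- right half plane `|exp w| > 1/2` -/
def Up : Set ℂ := {w : ℂ | -Real.log 2 < w.re}

/-- left half plane `|exp w| < 2` -/
def Um : Set ℂ := {w : ℂ | w.re < Real.log 2}

/-- Two conjugates of the derivation `D` of `L` in a finite extension `M` of `K`, which are independent
(on the functions `u 0, u 1` of `K`). -/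
structure Conj (K L : Type) [Field K] [Field L] [Algebra ℂ K] [Algebra ℂ L] [Algebra K L]
    (D : Derivation ℂ L L) where
  M : Type
  [field : Field M]
  [algC : Algebra ℂ M]
  σ₁ : L →ₐ[ℂ] M
  σ₂ : L →ₐ[ℂ] M
  same : ∀ a : K, σ₁ (algebraMap K L a) = σ₂ (algebraMap K L a)
  D₁ : Derivation ℂ M M
  D₂ : Derivation ℂ M M
  comm₁ : ∀ a, D₁ (σ₁ a) = σ₁ (D a)
  comm₂ : ∀ a, D₂ (σ₂ a) = σ₂ (D a)
  u : Fin 2 → K
  det : D₂ (σ₁ (algebraMap K L (u 0))) * D₁ (σ₁ (algebraMap K L (u 1))) -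
    D₂ (σ₁ (algebraMap K L (u 1))) * D₁ (σ₁ (algebraMap K L (u 0))) ≠ 0
  alg : ∀ a : M, ∃ P : Polynomial K, P ≠ 0 ∧
    P.eval₂ ((σ₁ : L →+* M).comp (algebraMap K L)) a = 0
  fg : ∃ T : Finset M, IntermediateField.adjoin ℂ (T : Set M) = ⊤

end Pool.Agent.K3
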