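import Pool.Agent.Lib_MP_1209e6_k3.Defs
import Pool.Agent.Lib_MP_1209e6_kd.Dens

/-! PIECE DENS: a double series which vanishes at points `(u k, v k) → (0, T)`, `u k ≠ 0`, is zero. -/

set_option autoImplicit false

open Filter Topology

namespace Pool.Agent.K3

/-- Let `m` be minimal such that the row `c m ·` is not zero. `ps2 c u v = u^m ps2 (c (m + ·)) u v`, so
`ps2 (c (m + ·)) (u k) (v k) = 0`, in the limit `∑ c m n T^n = 0` for all small `T`: the row is zero. -/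
theorem dens (c : ℕ → ℕ → ℂ) {C K : ℝ} (hK : 0 < K) (hc : ∀ m n, ‖c m n‖ ≤ C * K ^ (m + n))
    {ε : ℝ} (hε : 0 < ε)
    (h : ∀ T : ℂ, ‖T‖ < ε → ∃ u v : ℕ → ℂ, (∀ k, u k ≠ 0) ∧ Tendsto u atTop (𝓝 0) ∧
      Tendsto v atTop (𝓝 T) ∧ ∀ k, ps2 c (u k) (v k) = 0) : ∀ m n, c m n = 0 := by
  have hC : 0 ≤ C := by
    have h0 := (norm_nonneg _).trans (hc 0 0)
    simpa using h0
  have hr0 : 0 < min ε (1 / (2 * K)) := lt_min hε (by positivity)
  have hKr : K * min ε (1 / (2 * K)) < 1 := by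
    have h1 : K * min ε (1 / (2 * K)) ≤ K * (1 / (2 * K)) :=
      mul_le_mul_of_nonneg_left (min_le_right _ _) hK.le
    have h2 : K * (1 / (2 * K)) = 1 / 2 := by field_simp
    linarith
  refine KDGlue.coeff_zero_of_seq hc hC hK.le hr0 hKr fun T hT => ?_
  obtain ⟨u, v, hu0, hu, hv, hz⟩ := h T (hT.trans_le (min_le_left _ _))
  refine ⟨u, v, hu, hv, Eventually.of_forall hu0, Eventually.of_forall fun k => ?_⟩
  rw [← hz k]
  unfold ps2 KDGlue.ds
  refine tsum_congr fun p => ?_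
  rw [smul_eq_mul, mul_assoc]

end Pool.Agent.K3
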