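import Mathlib

/-!
# The density lemma at a node

A power series in two variables which vanishes along `ζ ↦ (s ζ, z ζ)` near infinity, where
`s ζ ~ c / ζ` and `z ζ = η (e ^ ζ - 1) + o(1)`, is zero.
-/

set_option autoImplicit false

open Filter Topology

namespace Pool.Agent.K3Node

/-- the double series with the first `a` columns removed -/
noncomputable def dsum (g : ℕ → ℕ → ℂ) (a : ℕ) (s z : ℂ) : ℂ :=
  ∑' p : ℕ × ℕ, g (a + p.1) p.2 * s ^ p.1 * z ^ p.2

section

variable {g : ℕ → ℕ → ℂ} {δ : ℝ}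

theorem summ_shift (hg : ∀ r : ℝ, 0 ≤ r → r < δ → Summable fun p : ℕ × ℕ =>
    ‖g p.1 p.2‖ * r ^ p.1 * r ^ p.2) (a : ℕ) {r : ℝ} (hr : 0 < r) (hrδ : r < δ) :
    Summable fun p : ℕ × ℕ => ‖g (a + p.1) p.2‖ * r ^ p.1 * r ^ p.2 := by
  have hinj : Function.Injective fun p : ℕ × ℕ => (a + p.1, p.2) := by
    intro p q h
    simp only [Prod.mk.injEq] at h
    exact Prod.ext (by omega) h.2
  have h1 := (hg r hr.le hrδ).comp_injective hinj
  have h2 := h1.mul_left ((r ^ a)⁻¹)
  refine h2.congr fun p => ?_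
  have : r ^ a ≠ 0 := (pow_pos hr a).ne'
  simp only [Function.comp, pow_add]
  field_simp

theorem summ_val (hg : ∀ r : ℝ, 0 ≤ r → r < δ → Summable fun p : ℕ × ℕ =>
    ‖g p.1 p.2‖ * r ^ p.1 * r ^ p.2) (a : ℕ) {s z : ℂ} (hs : ‖s‖ < δ) (hz : ‖z‖ < δ) :
    Summable fun p : ℕ × ℕ => g (a + p.1) p.2 * s ^ p.1 * z ^ p.2 := by
  obtain ⟨r, hr1, hr2⟩ := exists_between (max_lt hs hz)
  have hs' : ‖s‖ < r := (le_max_left _ _).trans_lt hr1
  have hz' : ‖z‖ < r := (le_max_right _ _).trans_lt hr1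
  have hr : 0 < r := (norm_nonneg _).trans_lt hs'
  refine Summable.of_norm_bounded (summ_shift hg a hr hr2) fun p => ?_
  rw [norm_mul, norm_mul, norm_pow, norm_pow]
  gcongr

theorem continuousAt_dsum (hg : ∀ r : ℝ, 0 ≤ r → r < δ → Summable fun p : ℕ × ℕ =>
    ‖g p.1 p.2‖ * r ^ p.1 * r ^ p.2) (a : ℕ) {T : ℂ} (hT : ‖T‖ < δ) :
    ContinuousAt (fun p : ℂ × ℂ => dsum g a p.1 p.2) (0, T) := by
  obtain ⟨r, hr1, hr2⟩ := exists_between hT
  have hr : 0 < r := (norm_nonneg _).trans_lt hr1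
  have h1 : ContinuousOn (fun p : ℂ × ℂ => dsum g a p.1 p.2)
      (Metric.ball (0 : ℂ) r ×ˢ Metric.ball (0 : ℂ) r) := by
    unfold dsum
    refine continuousOn_tsum (u := fun p : ℕ × ℕ => ‖g (a + p.1) p.2‖ * r ^ p.1 * r ^ p.2)
      (fun p => ?_) (summ_shift hg a hr hr2) fun p x hx => ?_
    · fun_prop
    · obtain ⟨hx1, hx2⟩ := hx
      rw [mem_ball_zero_iff] at hx1 hx2
      rw [norm_mul, norm_mul, norm_pow, norm_pow]
      gcongr
  refine h1.continuousAt ?_
  refine prod_mem_nhds (Metric.ball_mem_nhds _ hr) (Metric.isOpen_ball.mem_nhds ?_)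
  rw [mem_ball_zero_iff]
  exact hr1

/-- peel off the vanishing columns -/
theorem dsum_zero_eq (a : ℕ) (h0 : ∀ a' < a, ∀ b, g a' b = 0) {s z : ℂ} :
    dsum g 0 s z = s ^ a * dsum g a s z := by
  unfold dsum
  rw [← tsum_mul_left]
  have hinj : Function.Injective fun p : ℕ × ℕ => (a + p.1, p.2) := by
    intro p q h
    simp only [Prod.mk.injEq] at h
    exact Prod.ext (by omega) h.2
  have h1 := hinj.tsum_eq (f := fun p : ℕ × ℕ => g (0 + p.1) p.2 * s ^ p.1 * z ^ p.2) ?_
  · rw [← h1]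
    refine tsum_congr fun p => ?_
    simp only [zero_add, pow_add]
    ring
  · intro p hp
    rw [Function.mem_support] at hp
    by_cases h : p.1 < a
    · exfalso
      apply hp
      rw [zero_add, h0 p.1 h p.2]
      ring
    · exact ⟨(p.1 - a, p.2), Prod.ext (by simp; omega) rfl⟩

end

attribute [local irreducible] dsum

/-- **The density lemma.** -/
theorem density {g : ℕ → ℕ → ℂ} {δ δ' : ℝ} (hδ' : 0 < δ') (hδδ : δ' ≤ δ)
    (hg : ∀ r : ℝ, 0 ≤ r → r < δ → Summable fun p : ℕ × ℕ => ‖g p.1 p.2‖ * r ^ p.1 * r ^ p.2)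
    {η c : ℂ} (hη : η ≠ 0) (hc : c ≠ 0) {s z : ℂ → ℂ}
    (hs : Tendsto (fun w => w * s w) (Bornology.cobounded ℂ) (𝓝 c))
    (hz : Tendsto (fun w => z w - η * (Complex.exp w - 1)) (Bornology.cobounded ℂ) (𝓝 0))
    (h0 : ∀ᶠ w in Bornology.cobounded ℂ, ‖z w‖ < δ' →
      ∑' p : ℕ × ℕ, g p.1 p.2 * s w ^ p.1 * z w ^ p.2 = 0) :
    ∀ a b, g a b = 0 := by
  have hδ : 0 < δ := hδ'.trans_le hδδ
  -- `s → 0`, `s ≠ 0` near infinity
  have hinv : Tendsto (fun w : ℂ => w⁻¹) (Bornology.cobounded ℂ) (𝓝 0) := tendsto_inv₀_cobounded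
  have hne : ∀ᶠ w : ℂ in Bornology.cobounded ℂ, w ≠ 0 := by
    have h1 : Tendsto (fun w : ℂ => ‖w‖) (Bornology.cobounded ℂ) atTop :=
      tendsto_norm_cobounded_atTop
    filter_upwards [h1.eventually_gt_atTop 0] with w hw
    exact norm_pos_iff.1 hw
  have hs0 : Tendsto s (Bornology.cobounded ℂ) (𝓝 0) := by
    have h1 := hinv.mul hs
    rw [zero_mul] at h1
    refine h1.congr' ?_
    filter_upwards [hne] with w hw
    field_simp
  have hsne : ∀ᶠ w in Bornology.cobounded ℂ, s w ≠ 0 := by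
    filter_upwards [hs.eventually_ne hc] with w hw h
    apply hw
    rw [h, mul_zero]
  intro a
  induction a using Nat.strong_induction_on with
  | _ a ih =>
  -- the function of `T` vanishes
  have hkey : ∀ T : ℂ, ‖T‖ < δ' → 1 + T / η ≠ 0 → dsum g a 0 T = 0 := by
    intro T hT hT1
    obtain ⟨ζ, hζ⟩ : ∃ ζ : ℕ → ℂ, ∀ k : ℕ, ζ k = Complex.log (1 + T / η) +
      (k : ℂ) * (2 * Real.pi * Complex.I) := ⟨_, fun _ => rfl⟩
    have hexp : ∀ k, Complex.exp (ζ k) = 1 + T / η := by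
      intro k
      rw [hζ, Complex.exp_add, Complex.exp_log hT1, Complex.exp_nat_mul_two_pi_mul_I, mul_one]
    have hζt : Tendsto ζ atTop (Bornology.cobounded ℂ) := by
      rw [← tendsto_norm_atTop_iff_cobounded]
      have h0 : Tendsto (fun k : ℕ => (k : ℝ) * (2 * Real.pi) + -‖Complex.log (1 + T / η)‖)
          atTop atTop :=
        tendsto_atTop_add_const_right _ _
          ((tendsto_natCast_atTop_atTop).atTop_mul_const (by positivity))
      refine tendsto_atTop_mono (fun k => ?_) h0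
      have h1 : ‖((k : ℂ) * (2 * Real.pi * Complex.I) : ℂ)‖ = k * (2 * Real.pi) := by
        rw [norm_mul, norm_mul, norm_mul]
        simp [abs_of_pos Real.pi_pos]
      have h2 := norm_sub_le (ζ k) (Complex.log (1 + T / η))
      have h3 : ζ k - Complex.log (1 + T / η) = (k : ℂ) * (2 * Real.pi * Complex.I) := by
        rw [hζ]; ring
      rw [h3, h1] at h2
      linarith
    have hzT : Tendsto (fun k => z (ζ k)) atTop (𝓝 T) := by
      have h1 := (hz.comp hζt).add_const T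
      rw [zero_add] at h1
      refine h1.congr fun k => ?_
      have h2 : η * (Complex.exp (ζ k) - 1) = T := by
        rw [hexp, add_sub_cancel_left, mul_div_cancel₀ _ hη]
      show z (ζ k) - η * (Complex.exp (ζ k) - 1) + T = z (ζ k)
      rw [h2, sub_add_cancel]
    have hsT : Tendsto (fun k => s (ζ k)) atTop (𝓝 0) := hs0.comp hζt
    have hcts := (continuousAt_dsum hg a (hT.trans_le hδδ)).tendsto
    have hpr : Tendsto (fun k => (s (ζ k), z (ζ k))) atTop (𝓝 ((0 : ℂ), T)) :=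
      hsT.prodMk_nhds hzT
    have hlim : Tendsto (fun k => dsum g a (s (ζ k)) (z (ζ k))) atTop (𝓝 (dsum g a 0 T)) :=
      hcts.comp hpr
    have hzero : ∀ᶠ k in atTop, dsum g a (s (ζ k)) (z (ζ k)) = 0 := by
      have h1 : ∀ᶠ k in atTop, ‖z (ζ k)‖ < δ' := hzT.norm.eventually_lt_const hT
      filter_upwards [h1, hζt.eventually h0, hζt.eventually hsne] with k hk1 hk2 hk3
      have h2 := hk2 hk1
      have h3 : dsum g 0 (s (ζ k)) (z (ζ k)) = 0 := by
        rw [← h2]
        unfold dsum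
        simp only [zero_add]
      rw [dsum_zero_eq a ih] at h3
      exact (mul_eq_zero.1 h3).resolve_left (pow_ne_zero _ hk3)
    refine tendsto_nhds_unique hlim ?_
    exact tendsto_const_nhds.congr' (hzero.mono fun k hk => hk.symm)
  -- the power series in `T`
  have hsum : ∀ r : ℝ, 0 < r → r < δ → Summable fun b : ℕ => ‖g a b‖ * r ^ b := by
    intro r hr hrδ
    have h1 := (summ_shift hg a hr hrδ).comp_injective
      (i := fun b : ℕ => ((0 : ℕ), b)) (fun b b' h => (Prod.mk.inj h).2)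
    refine h1.congr fun b => ?_
    simp
  have hval : ∀ T : ℂ, dsum g a 0 T = ∑' b : ℕ, g a b * T ^ b := by
    intro T
    unfold dsum
    have hinj : Function.Injective fun b : ℕ => ((0 : ℕ), b) := fun b b' h => (Prod.mk.inj h).2
    rw [← hinj.tsum_eq (f := fun p : ℕ × ℕ => g (a + p.1) p.2 * (0 : ℂ) ^ p.1 * T ^ p.2)]
    · refine tsum_congr fun b => ?_
      simp
    · intro p hp
      rw [Function.mem_support] at hp
      by_cases h : p.1 = 0
      · exact ⟨p.2, Prod.ext h.symm rfl⟩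
      · exfalso
        apply hp
        rw [zero_pow h]
        ring
  set ps : FormalMultilinearSeries ℂ ℂ ℂ := FormalMultilinearSeries.ofScalars ℂ (g a) with hps
  have hrad : ENNReal.ofReal (δ / 2) ≤ ps.radius := by
    refine FormalMultilinearSeries.le_radius_of_summable_norm (r := ⟨δ / 2, by positivity⟩) ps ?_ |>.trans' ?_
    · have h1 := hsum (δ / 2) (by positivity) (by linarith)
      refine h1.congr fun b => ?_
      rw [hps, FormalMultilinearSeries.ofScalars_norm]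
      rfl
    · rw [ENNReal.ofReal_eq_coe_nnreal (by positivity)]
      exact le_rfl
  have hball : HasFPowerSeriesOnBall ps.sum ps 0 ps.radius :=
    ps.hasFPowerSeriesOnBall (lt_of_lt_of_le (ENNReal.ofReal_pos.2 (by positivity)) hrad)
  have hz0 : ps.sum =ᶠ[𝓝 0] 0 := by
    have h1 : ∀ᶠ T : ℂ in 𝓝 0, ‖T‖ < δ' := by
      have := Metric.ball_mem_nhds (0 : ℂ) hδ'
      filter_upwards [this] with T hT
      rwa [mem_ball_zero_iff] at hT
    have h2 : ∀ᶠ T : ℂ in 𝓝 0, 1 + T / η ≠ 0 := by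
      have h3 : ContinuousAt (fun T : ℂ => 1 + T / η) 0 := by fun_prop
      refine h3.eventually_ne ?_
      simp
    filter_upwards [h1, h2] with T hT1 hT2
    have h3 := hkey T hT1 hT2
    rw [hval] at h3
    show ps.sum T = 0
    rw [FormalMultilinearSeries.sum, ← h3]
    refine tsum_congr fun b => ?_
    rw [hps]
    simp [FormalMultilinearSeries.ofScalars]
  have hps0 : ps = 0 := by
    have h1 : HasFPowerSeriesAt ps.sum ps 0 := hball.hasFPowerSeriesAt
    have h2 : HasFPowerSeriesAt (0 : ℂ → ℂ) ps 0 := h1.congr hz0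
    exact h2.eq_formalMultilinearSeries (hasFPowerSeriesAt_const (c := (0 : ℂ)) |>.congr (by rfl)) |>.trans (by
      ext; simp)
  intro b
  have h1 : ps.coeff b = 0 := by rw [hps0]; rfl
  rw [hps] at h1
  simpa using h1

end Pool.Agent.K3Node
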