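import Pool.Agent.Lib_MP_1209e6_k3.Defs
import Pool.Agent.Lib_MP_1209e6_k3.Galois

/-! PIECE FAM: derivations of `M` with common kernel `ℂ`: two independent ones, or one with kernel `ℂ`. -/

set_option autoImplicit false

open Filter Topology Pool.Agent.CampanaFlow

namespace Pool.Agent.K3

/-- If all determinants vanish: some `E a` is not zero on `K` (or all `E a` vanish on `K`, hence on `M`
(algebraic over `K`), and every element of `K` is constant); all the others are multiples of it on `K`, hence
on `M`, so the kernel of `E a` is the common kernel `ℂ`; `j a` is injective. -/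
theorem fam_cases {K M : Type} [Field K] [Algebra ℂ K] [Field M] [Algebra ℂ M] [Algebra K M]
    [IsScalarTower ℂ K M] [FiniteDimensional K M] {s : ℕ} (L : Fin s → Type)
    [∀ a, Field (L a)] [∀ a, Algebra ℂ (L a)] (j : ∀ a, L a →ₐ[ℂ] M)
    (D : ∀ a, Derivation ℂ (L a) (L a)) (E : Fin s → Derivation ℂ M M)
    (hE : ∀ a f, E a (j a f) = j a (D a f))
    (hc : ∀ u : M, (∀ a, E a u = 0) → ∃ c : ℂ, u = algebraMap ℂ M c) :
    (∃ (a b : Fin s) (u : Fin 2 → K), E a (algebraMap K M (u 0)) * E b (algebraMap K M (u 1)) -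
        E a (algebraMap K M (u 1)) * E b (algebraMap K M (u 0)) ≠ 0) ∨
      (∃ a, ∀ u : L a, D a u = 0 → ∃ c : ℂ, u = algebraMap ℂ (L a) c) ∨
      ∀ u : K, ∃ c : ℂ, u = algebraMap ℂ K c := by
  by_cases h : ∃ (a b : Fin s) (u : Fin 2 → K), E a (algebraMap K M (u 0)) * E b (algebraMap K M (u 1)) -
        E a (algebraMap K M (u 1)) * E b (algebraMap K M (u 0)) ≠ 0
  · exact Or.inl h
  push Not at h
  by_cases h2 : ∀ a, ∀ y : K, E a (algebraMap K M y) = 0
  · refine Or.inr (Or.inr fun y => ?_)
    obtain ⟨c, hc'⟩ := hc (algebraMap K M y) fun a => h2 a y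
    refine ⟨c, (algebraMap K M).injective ?_⟩
    rw [hc', ← IsScalarTower.algebraMap_apply]
  push Not at h2
  obtain ⟨a, y, hy⟩ := h2
  refine Or.inr (Or.inl ⟨a, fun u hu => ?_⟩)
  have h3 : ∀ b, E b (j a u) = 0 := by
    intro b
    let F : Derivation ℂ M M := E a (algebraMap K M y) • E b - E b (algebraMap K M y) • E a
    have hF : ∀ v : M, F v = 0 := by
      apply Pool.Agent.CampanaK3.eq_zero_of_base (K := K) F
      intro z
      show E a (algebraMap K M y) * E b (algebraMap K M z) -
        E b (algebraMap K M y) * E a (algebraMap K M z) = 0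
      have h4 := h a b ![y, z]
      have h5 : E a (algebraMap K M y) * E b (algebraMap K M z) -
        E a (algebraMap K M z) * E b (algebraMap K M y) = 0 := h4
      rw [← h5]
      ring
    have h6 : E a (algebraMap K M y) * E b (j a u) - E b (algebraMap K M y) * E a (j a u) = 0 := hF (j a u)
    rw [hE a u, hu, map_zero, mul_zero, sub_zero] at h6
    exact (mul_eq_zero.1 h6).resolve_left hy
  obtain ⟨c, hc'⟩ := hc (j a u) h3
  refine ⟨c, (j a : L a →+* M).injective ?_⟩
  show j a u = j a (algebraMap ℂ (L a) c)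
  rw [hc', AlgHom.commutes]

end Pool.Agent.K3
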