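import Mathlib

/-!
# The contraction for the gluing of two tubes (MP_1209e6_ag, Theorem K, piece P5, abstract form)
-/

set_option autoImplicit false

namespace Pool.Agent.K3

/-- abstract fixed point: `s - z' = A (s, z, s', z')`, `z - s' = B (s, z, s', z')` with prescribed
parts `s = s0 + [A]_-`, `z' = s0 - [A]_+`, `z = z0 + [B]_-`, `s' = z0 - [B]_+` -/
theorem exists_fixed {E : Type*} [NormedAddCommGroup E] [CompleteSpace E]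
    (Nn Pp : E →+ E) (hN : ∀ x, ‖Nn x‖ ≤ ‖x‖) (hP : ∀ x, ‖Pp x‖ ≤ ‖x‖)
    (hNP : ∀ x, Nn x + Pp x = x) (A B : E → E → E → E → E) {ρ : ℝ} (hρ : 0 < ρ)
    (hA0 : A 0 0 0 0 = 0) (hB0 : B 0 0 0 0 = 0)
    (hA : ∀ x1 x2 x3 x4 y1 y2 y3 y4 : E, ‖x1‖ ≤ ρ → ‖x2‖ ≤ ρ → ‖x3‖ ≤ ρ → ‖x4‖ ≤ ρ →
      ‖y1‖ ≤ ρ → ‖y2‖ ≤ ρ → ‖y3‖ ≤ ρ → ‖y4‖ ≤ ρ →
      ‖A x1 x2 x3 x4 - A y1 y2 y3 y4‖ ≤
        1 / 2 * max (max ‖x1 - y1‖ ‖x2 - y2‖) (max ‖x3 - y3‖ ‖x4 - y4‖))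
    (hB : ∀ x1 x2 x3 x4 y1 y2 y3 y4 : E, ‖x1‖ ≤ ρ → ‖x2‖ ≤ ρ → ‖x3‖ ≤ ρ → ‖x4‖ ≤ ρ →
      ‖y1‖ ≤ ρ → ‖y2‖ ≤ ρ → ‖y3‖ ≤ ρ → ‖y4‖ ≤ ρ →
      ‖B x1 x2 x3 x4 - B y1 y2 y3 y4‖ ≤
        1 / 2 * max (max ‖x1 - y1‖ ‖x2 - y2‖) (max ‖x3 - y3‖ ‖x4 - y4‖))
    (s0 z0 : E) (hs0 : ‖s0‖ ≤ ρ / 4) (hz0 : ‖z0‖ ≤ ρ / 4) :
    ∃ a b : E, a = A (s0 + Nn a) (z0 + Nn b) (z0 - Pp b) (s0 - Pp a) ∧
      b = B (s0 + Nn a) (z0 + Nn b) (z0 - Pp b) (s0 - Pp a) ∧ ‖a‖ ≤ ρ / 2 ∧ ‖b‖ ≤ ρ / 2 := by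
  classical
  -- the closed ball
  let K : Set (E × E) := Metric.closedBall 0 (ρ / 2)
  have hK : ∀ x : E × E, x ∈ K ↔ ‖x.1‖ ≤ ρ / 2 ∧ ‖x.2‖ ≤ ρ / 2 := by
    intro x
    simp only [K, Metric.mem_closedBall, dist_zero_right, Prod.norm_def, max_le_iff]
  have hb : ∀ u v : E, ‖u‖ ≤ ρ / 4 → ‖v‖ ≤ ρ / 2 → ‖u + v‖ ≤ ρ := fun u v hu hv =>
    (norm_add_le _ _).trans (by linarith)
  have hb' : ∀ u v : E, ‖u‖ ≤ ρ / 4 → ‖v‖ ≤ ρ / 2 → ‖u - v‖ ≤ ρ := fun u v hu hv =>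
    (norm_sub_le _ _).trans (by linarith)
  have hb3 : ∀ u v : E, ‖u‖ ≤ ρ / 4 → ‖v‖ ≤ ρ / 2 → ‖u + v‖ ≤ 3 / 4 * ρ := fun u v hu hv =>
    (norm_add_le _ _).trans (by linarith)
  have hb3' : ∀ u v : E, ‖u‖ ≤ ρ / 4 → ‖v‖ ≤ ρ / 2 → ‖u - v‖ ≤ 3 / 4 * ρ := fun u v hu hv =>
    (norm_sub_le _ _).trans (by linarith)
  let T : E × E → E × E := fun x =>
    (A (s0 + Nn x.1) (z0 + Nn x.2) (z0 - Pp x.2) (s0 - Pp x.1),
      B (s0 + Nn x.1) (z0 + Nn x.2) (z0 - Pp x.2) (s0 - Pp x.1))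
  have hdiff : ∀ x y : E × E, x ∈ K → y ∈ K → dist (T x) (T y) ≤ 1 / 2 * dist x y := by
    intro x y hx hy
    rw [hK] at hx hy
    have e1 : max (max ‖s0 + Nn x.1 - (s0 + Nn y.1)‖ ‖z0 + Nn x.2 - (z0 + Nn y.2)‖)
        (max ‖z0 - Pp x.2 - (z0 - Pp y.2)‖ ‖s0 - Pp x.1 - (s0 - Pp y.1)‖) ≤ ‖x - y‖ := by
      have h1 : ‖x.1 - y.1‖ ≤ ‖x - y‖ := norm_fst_le (x - y)
      have h2 : ‖x.2 - y.2‖ ≤ ‖x - y‖ := norm_snd_le (x - y)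
      refine max_le (max_le ?_ ?_) (max_le ?_ ?_)
      · rw [add_sub_add_left_eq_sub, ← map_sub]; exact (hN _).trans h1
      · rw [add_sub_add_left_eq_sub, ← map_sub]; exact (hN _).trans h2
      · rw [sub_sub_sub_cancel_left, ← map_sub, ← norm_neg, ← map_neg, neg_sub]
        exact (hP _).trans h2
      · rw [sub_sub_sub_cancel_left, ← map_sub, ← norm_neg, ← map_neg, neg_sub]
        exact (hP _).trans h1
    rw [dist_eq_norm, dist_eq_norm, Prod.norm_def]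
    refine max_le ?_ ?_
    · refine (hA _ _ _ _ _ _ _ _ ?_ ?_ ?_ ?_ ?_ ?_ ?_ ?_).trans ?_
      · exact hb _ _ hs0 ((hN _).trans hx.1)
      · exact hb _ _ hz0 ((hN _).trans hx.2)
      · exact hb' _ _ hz0 ((hP _).trans hx.2)
      · exact hb' _ _ hs0 ((hP _).trans hx.1)
      · exact hb _ _ hs0 ((hN _).trans hy.1)
      · exact hb _ _ hz0 ((hN _).trans hy.2)
      · exact hb' _ _ hz0 ((hP _).trans hy.2)
      · exact hb' _ _ hs0 ((hP _).trans hy.1)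
      · linarith
    · refine (hB _ _ _ _ _ _ _ _ ?_ ?_ ?_ ?_ ?_ ?_ ?_ ?_).trans ?_
      · exact hb _ _ hs0 ((hN _).trans hx.1)
      · exact hb _ _ hz0 ((hN _).trans hx.2)
      · exact hb' _ _ hz0 ((hP _).trans hx.2)
      · exact hb' _ _ hs0 ((hP _).trans hx.1)
      · exact hb _ _ hs0 ((hN _).trans hy.1)
      · exact hb _ _ hz0 ((hN _).trans hy.2)
      · exact hb' _ _ hz0 ((hP _).trans hy.2)
      · exact hb' _ _ hs0 ((hP _).trans hy.1)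
      · linarith
  have hρ0 : ‖(0 : E)‖ ≤ ρ := by rw [norm_zero]; exact hρ.le
  have hmap : Set.MapsTo T K K := by
    intro x hx
    rw [hK] at hx ⊢
    have h1 := hb3 _ _ hs0 ((hN x.1).trans hx.1)
    have h2 := hb3 _ _ hz0 ((hN x.2).trans hx.2)
    have h3 := hb3' _ _ hz0 ((hP x.2).trans hx.2)
    have h4 := hb3' _ _ hs0 ((hP x.1).trans hx.1)
    have h5 : max (max ‖s0 + Nn x.1 - 0‖ ‖z0 + Nn x.2 - 0‖)
        (max ‖z0 - Pp x.2 - 0‖ ‖s0 - Pp x.1 - 0‖) ≤ 3 / 4 * ρ := by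
      simp only [sub_zero]
      exact max_le (max_le h1 h2) (max_le h3 h4)
    constructor
    · have h6 := hA (s0 + Nn x.1) (z0 + Nn x.2) (z0 - Pp x.2) (s0 - Pp x.1) 0 0 0 0
        (h1.trans (by linarith)) (h2.trans (by linarith)) (h3.trans (by linarith))
        (h4.trans (by linarith)) hρ0 hρ0 hρ0 hρ0
      rw [hA0, sub_zero] at h6
      exact h6.trans (by linarith)
    · have h6 := hB (s0 + Nn x.1) (z0 + Nn x.2) (z0 - Pp x.2) (s0 - Pp x.1) 0 0 0 0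
        (h1.trans (by linarith)) (h2.trans (by linarith)) (h3.trans (by linarith))
        (h4.trans (by linarith)) hρ0 hρ0 hρ0 hρ0
      rw [hB0, sub_zero] at h6
      exact h6.trans (by linarith)
  have hcomplete : IsComplete K := Metric.isClosed_closedBall.isComplete
  have hctr : ContractingWith (1 / 2 : NNReal) (hmap.restrict T K K) := by
    refine ⟨by norm_num, LipschitzWith.of_dist_le_mul fun x y => ?_⟩
    have h1 := hdiff x y x.2 y.2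
    have h2 : ((1 / 2 : NNReal) : ℝ) = 1 / 2 := by norm_num
    rw [h2, Subtype.dist_eq, Subtype.dist_eq]
    exact h1
  obtain ⟨x, hxK, hfix, -⟩ := ContractingWith.exists_fixedPoint' hcomplete hmap hctr
    (x := (0 : E × E)) ((hK 0).2 ⟨by simp; linarith, by simp; linarith⟩) (edist_ne_top _ _)
  rw [hK] at hxK
  have h1 : T x = x := hfix
  exact ⟨x.1, x.2, (congrArg Prod.fst h1).symm, (congrArg Prod.snd h1).symm, hxK.1, hxK.2⟩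

end Pool.Agent.K3
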