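import Pool.Agent.Lib_MP_1209e6_k3.Defs
import Pool.Agent.Lib_MP_1209e6_kc.U3

/-! PIECE FLOWON (helper16): the flow of a meromorphic curve on a convex open set. -/

set_option autoImplicit false

open Filter Topology Pool.Agent.CampanaFlow

namespace Pool.Agent.K3

variable {S : Type} [CommRing S] [Algebra ℂ S]

theorem flow_on {D : Derivation ℂ S S} (cd : ChartData D) {U : Set ℂ} (hU : IsOpen U)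
    (hUc : Convex ℝ U) {γ : ℂ → S →ₐ[ℂ] ℂ} {B : Set ℂ} (hγ : IsCurve U γ B) (τ : ℂ → ℂ)
    (hτ : ∀ w ∈ U, AnalyticAt ℂ τ w)
    (hb : ∀ R : ℝ, ∃ C : ℝ, ∀ w ∈ U, ‖w‖ < R → w ∉ B → ‖τ w‖ * cd.size (γ w) ≤ C)
    {w₀ : ℂ} (hw₀ : w₀ ∈ U) (hw₀B : w₀ ∉ B)
    (hq : ∀ᶠ w in 𝓝 w₀, ∃ q, IsFlow D (γ w) (τ w) q) :
    ∃ (γ' : ℂ → S →ₐ[ℂ] ℂ) (B' : Set ℂ), IsCurve U γ' B' ∧
      ∀ w ∈ U, w ∉ B → ∀ q, IsFlow D (γ w) (τ w) q → w ∉ B' ∧ γ' w = q := by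
  exact Pool.Agent.CampanaK.flow_on cd hU hUc hγ τ hτ hb hw₀ hw₀B hq

end Pool.Agent.K3
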