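import Pool.Agent.Lib_MP_1209e6_k3.GrowTwo
import Pool.Agent.Lib_MP_1209e6_fl.F2
import Pool.Agent.Lib_MP_1209e6_fl.F4

/-! PIECE FLOW2: the double flow for small times is given by the double series. -/

set_option autoImplicit false

open Filter Topology Pool.Agent.CampanaFlow

namespace Pool.Agent.K3

variable {S : Type} [CommRing S] [Algebra ℂ S]

/-- the bound of one term of a double series -/
theorem f2w_term {c : ℕ → ℕ → ℂ} {C K : ℝ} (hc : ∀ m n, ‖c m n‖ ≤ C * K ^ (m + n))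
    (x y : ℂ) (p : ℕ × ℕ) :
    ‖c p.1 p.2 * x ^ p.1 * y ^ p.2‖ ≤ C * ((K * ‖x‖) ^ p.1 * (K * ‖y‖) ^ p.2) := by
  rw [norm_mul, norm_mul, norm_pow, norm_pow]
  calc ‖c p.1 p.2‖ * ‖x‖ ^ p.1 * ‖y‖ ^ p.2 ≤ C * K ^ (p.1 + p.2) * ‖x‖ ^ p.1 * ‖y‖ ^ p.2 := by
        gcongr
        exact hc _ _
    _ = C * ((K * ‖x‖) ^ p.1 * (K * ‖y‖) ^ p.2) := by
        rw [pow_add, mul_pow, mul_pow]; ring

theorem f2w_geo {x y : ℝ} (hx0 : 0 ≤ x) (hx : x < 1) (hy0 : 0 ≤ y) (hy : y < 1) :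
    Summable fun p : ℕ × ℕ => x ^ p.1 * y ^ p.2 :=
  (summable_geometric_of_lt_one hx0 hx).mul_of_nonneg (summable_geometric_of_lt_one hy0 hy)
    (fun _ => pow_nonneg hx0 _) (fun _ => pow_nonneg hy0 _)

theorem f2w_geo_tsum {x y : ℝ} (hx0 : 0 ≤ x) (hx : x < 1) (hy0 : 0 ≤ y) (hy : y < 1) :
    ∑' p : ℕ × ℕ, x ^ p.1 * y ^ p.2 = (1 - x)⁻¹ * (1 - y)⁻¹ := by
  rw [← tsum_geometric_of_lt_one hx0 hx, ← tsum_geometric_of_lt_one hy0 hy]
  exact ((summable_geometric_of_lt_one hx0 hx).tsum_mul_tsum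
    (summable_geometric_of_lt_one hy0 hy) (f2w_geo hx0 hx hy0 hy)).symm

theorem f2w_summable {c : ℕ → ℕ → ℂ} {C K : ℝ} (hK : 0 < K)
    (hc : ∀ m n, ‖c m n‖ ≤ C * K ^ (m + n)) {x y : ℂ} (hx : K * ‖x‖ < 1) (hy : K * ‖y‖ < 1) :
    Summable fun p : ℕ × ℕ => c p.1 p.2 * x ^ p.1 * y ^ p.2 := by
  refine Summable.of_norm (Summable.of_nonneg_of_le (fun p => norm_nonneg _) (f2w_term hc x y) ?_)
  exact (f2w_geo (by positivity) hx (by positivity) hy).mul_left C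

theorem f2w_nonneg {c : ℕ → ℕ → ℂ} {C K : ℝ} (hc : ∀ m n, ‖c m n‖ ≤ C * K ^ (m + n)) : 0 ≤ C := by
  have h := (norm_nonneg _).trans (hc 0 0)
  simpa using h

/-- `unif_radius` of `fl/F4` (or `grow2` + `exists_isFlow`) gives the two flows; the value of `f` is
`∑_n z^n / n! q (e^n f) = ∑_n ∑_m …`, absolutely summable by `grow2` when `K ρ < 1`. -/
theorem flow2 [Algebra.FiniteType ℂ S] (d e : Derivation ℂ S S) (p : S →ₐ[ℂ] ℂ) :
    ∃ ρ : ℝ, 0 < ρ ∧ ∀ s z : ℂ, ‖s‖ < ρ → ‖z‖ < ρ → ∃ q q' : S →ₐ[ℂ] ℂ,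
      IsFlow d p s q ∧ IsFlow e q z q' ∧ ∀ f : S, q' f = ps2 (co2 d e p f) s z := by
  obtain ⟨K, hK, hgr⟩ := grow2 d e p
  refine ⟨1 / K, by positivity, fun s z hs hz => ?_⟩
  have hs1 : K * ‖s‖ < 1 := by
    rw [lt_div_iff₀ hK] at hs
    linarith
  have hz1 : K * ‖z‖ < 1 := by
    rw [lt_div_iff₀ hK] at hz
    linarith
  have hgs : Summable fun m : ℕ => (K * ‖s‖) ^ m := summable_geometric_of_lt_one (by positivity) hs1
  have hgz : Summable fun m : ℕ => (K * ‖z‖) ^ m := summable_geometric_of_lt_one (by positivity) hz1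
  have hco : ∀ f : S, ∀ m n : ℕ, tc d p (e^[n] f) m = co2 d e p f m n * n.factorial := by
    intro f m n
    unfold tc co2
    have h1 : (n.factorial : ℂ) ≠ 0 := by exact_mod_cast Nat.factorial_ne_zero _
    have h2 : (m.factorial : ℂ) ≠ 0 := by exact_mod_cast Nat.factorial_ne_zero _
    field_simp
  have hconv : ∀ f : S, Conv d p s f := by
    intro f
    obtain ⟨C, hC⟩ := hgr f
    refine Summable.of_nonneg_of_le (fun m => by positivity) (fun m => ?_) (hgs.mul_left C)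
    have h1 := hco f m 0
    rw [Function.iterate_zero, id_eq, Nat.factorial_zero, Nat.cast_one, mul_one] at h1
    rw [h1]
    calc ‖co2 d e p f m 0‖ * ‖s‖ ^ m ≤ C * K ^ (m + 0) * ‖s‖ ^ m := by
          gcongr
          exact hC m 0
      _ = C * (K * ‖s‖) ^ m := by rw [add_zero, mul_pow]; ring
  obtain ⟨q, hq⟩ := exists_isFlow hconv
  have hsum : ∀ f : S, Summable fun a : ℕ × ℕ => co2 d e p f a.1 a.2 * s ^ a.1 * z ^ a.2 := by
    intro f
    obtain ⟨C, hC⟩ := hgr f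
    exact f2w_summable hK hC hs1 hz1
  have hqn : ∀ f : S, ∀ n : ℕ, tc e q f n = ∑' m : ℕ, co2 d e p f m n * s ^ m := by
    intro f n
    have h1 : (n.factorial : ℂ) ≠ 0 := by exact_mod_cast Nat.factorial_ne_zero _
    have h2 : tc e q f n = q (e^[n] f) / n.factorial := rfl
    rw [h2, (hq (e^[n] f)).2, div_eq_iff h1, ← tsum_mul_right]
    unfold ev
    refine tsum_congr fun m => ?_
    rw [hco]
    ring
  have hconv' : ∀ f : S, Conv e q z f := by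
    intro f
    obtain ⟨C, hC⟩ := hgr f
    have hC0 := f2w_nonneg hC
    have hb : ∀ n : ℕ, ‖tc e q f n‖ ≤ (C * (1 - K * ‖s‖)⁻¹) * K ^ n := by
      intro n
      rw [hqn]
      have h3 : HasSum (fun m : ℕ => C * K ^ n * (K * ‖s‖) ^ m) (C * K ^ n * (1 - K * ‖s‖)⁻¹) :=
        (hasSum_geometric_of_lt_one (by positivity) hs1).mul_left _
      refine (tsum_of_norm_bounded h3 fun m => ?_).trans (le_of_eq (by ring))
      rw [norm_mul, norm_pow]
      calc ‖co2 d e p f m n‖ * ‖s‖ ^ m ≤ C * K ^ (m + n) * ‖s‖ ^ m := by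
            gcongr
            exact hC m n
        _ = C * K ^ n * (K * ‖s‖) ^ m := by rw [pow_add, mul_pow]; ring
    refine Summable.of_nonneg_of_le (fun m => by positivity) (fun n => ?_)
      (hgz.mul_left (C * (1 - K * ‖s‖)⁻¹))
    calc ‖tc e q f n‖ * ‖z‖ ^ n ≤ (C * (1 - K * ‖s‖)⁻¹) * K ^ n * ‖z‖ ^ n := by
          gcongr
          exact hb n
      _ = (C * (1 - K * ‖s‖)⁻¹) * (K * ‖z‖) ^ n := by rw [mul_pow]; ring
  obtain ⟨q', hq'⟩ := exists_isFlow hconv'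
  refine ⟨q, q', hq, hq', fun f => ?_⟩
  rw [(hq' f).2]
  unfold ev ps2
  have hsw : Summable fun a : ℕ × ℕ => co2 d e p f a.2 a.1 * s ^ a.2 * z ^ a.1 :=
    (Equiv.prodComm ℕ ℕ).summable_iff.2 (hsum f)
  have h1 : (∑' a : ℕ × ℕ, co2 d e p f a.1 a.2 * s ^ a.1 * z ^ a.2) =
      ∑' a : ℕ × ℕ, co2 d e p f a.2 a.1 * s ^ a.2 * z ^ a.1 :=
    ((Equiv.prodComm ℕ ℕ).tsum_eq
      (fun a : ℕ × ℕ => co2 d e p f a.1 a.2 * s ^ a.1 * z ^ a.2)).symm
  rw [h1, hsw.tsum_prod]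
  refine tsum_congr fun n => ?_
  rw [hqn, ← tsum_mul_right]

/-- continuity at the origin -/
theorem near2 [Algebra.FiniteType ℂ S] (d e : Derivation ℂ S S) (p : S →ₐ[ℂ] ℂ) (f : S) {ε : ℝ}
    (hε : 0 < ε) : ∃ ρ : ℝ, 0 < ρ ∧ ∀ s z : ℂ, ‖s‖ < ρ → ‖z‖ < ρ →
      ‖ps2 (co2 d e p f) s z - p f‖ < ε := by
  obtain ⟨K, hK, hgr⟩ := grow2 d e p
  obtain ⟨C, hC⟩ := hgr f
  have hC0 := f2w_nonneg hC
  refine ⟨min (1 / (2 * K)) (ε / (8 * C * K + 1)), by positivity, fun s z hs hz => ?_⟩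
  have hr1 := min_le_left (1 / (2 * K)) (ε / (8 * C * K + 1))
  have hr2 := min_le_right (1 / (2 * K)) (ε / (8 * C * K + 1))
  obtain ⟨x, hx⟩ : ∃ x : ℝ, x = K * ‖s‖ := ⟨_, rfl⟩
  obtain ⟨y, hy⟩ : ∃ y : ℝ, y = K * ‖z‖ := ⟨_, rfl⟩
  have hx0 : 0 ≤ x := by rw [hx]; positivity
  have hy0 : 0 ≤ y := by rw [hy]; positivity
  have hhalf : ∀ t : ℝ, t < min (1 / (2 * K)) (ε / (8 * C * K + 1)) → K * t ≤ 1 / 2 := by
    intro t ht
    have h1 : t < 1 / (2 * K) := lt_of_lt_of_le ht hr1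
    rw [lt_div_iff₀ (by positivity)] at h1
    linarith
  have hx1 : x ≤ 1 / 2 := by rw [hx]; exact hhalf _ hs
  have hy1 : y ≤ 1 / 2 := by rw [hy]; exact hhalf _ hz
  have hsmall : ∀ t : ℝ, 0 ≤ t → t < min (1 / (2 * K)) (ε / (8 * C * K + 1)) →
      8 * C * (K * t) + t < ε := by
    intro t _ ht
    have h1 : t < ε / (8 * C * K + 1) := lt_of_lt_of_le ht hr2
    rw [lt_div_iff₀ (by positivity)] at h1
    linarith
  have hxs := hsmall _ (norm_nonneg s) hs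
  have hys := hsmall _ (norm_nonneg z) hz
  rw [← hx] at hxs
  rw [← hy] at hys
  have hs0 := norm_nonneg s
  have hz0 := norm_nonneg z
  have hsum : Summable fun a : ℕ × ℕ => co2 d e p f a.1 a.2 * s ^ a.1 * z ^ a.2 :=
    f2w_summable hK hC (by rw [← hx]; linarith) (by rw [← hy]; linarith)
  have h00 : co2 d e p f 0 0 = p f := by simp [co2]
  have hgeo : Summable fun a : ℕ × ℕ => x ^ a.1 * y ^ a.2 :=
    f2w_geo hx0 (by linarith) hy0 (by linarith)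
  have hsplit : ps2 (co2 d e p f) s z - p f =
      ∑' a : ℕ × ℕ, (co2 d e p f a.1 a.2 * s ^ a.1 * z ^ a.2 - if a = (0, 0) then p f else 0) := by
    have h1 : HasSum (fun a : ℕ × ℕ => if a = (0, 0) then p f else 0) (p f) :=
      hasSum_ite_eq (0, 0) (p f)
    rw [hsum.tsum_sub h1.summable, h1.tsum_eq]
    rfl
  have hgsub : HasSum (fun a : ℕ × ℕ => C * (x ^ a.1 * y ^ a.2 - if a = (0, 0) then 1 else 0))
      (C * ((1 - x)⁻¹ * (1 - y)⁻¹ - 1)) := by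
    have h1 : HasSum (fun a : ℕ × ℕ => if a = (0, 0) then (1 : ℝ) else 0) 1 :=
      hasSum_ite_eq (0, 0) (1 : ℝ)
    have h2 : HasSum (fun a : ℕ × ℕ => x ^ a.1 * y ^ a.2) ((1 - x)⁻¹ * (1 - y)⁻¹) := by
      rw [← f2w_geo_tsum hx0 (by linarith) hy0 (by linarith)]
      exact hgeo.hasSum
    exact (h2.sub h1).mul_left C
  have hbd : ‖ps2 (co2 d e p f) s z - p f‖ ≤ C * ((1 - x)⁻¹ * (1 - y)⁻¹ - 1) := by
    rw [hsplit]
    refine tsum_of_norm_bounded hgsub fun a => ?_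
    by_cases ha : a = (0, 0)
    · subst ha
      simp [h00]
    · rw [if_neg ha, if_neg ha, sub_zero, sub_zero, hx, hy]
      exact f2w_term hC s z a
  have hfin : C * ((1 - x)⁻¹ * (1 - y)⁻¹ - 1) ≤ 4 * C * (x + y) := by
    have h1 : (1 - x)⁻¹ * (1 - y)⁻¹ - 1 ≤ 4 * (x + y) := by
      have hx2 : 0 < 1 - x := by linarith
      have hy2 : 0 < 1 - y := by linarith
      have h2 : (1 - x)⁻¹ * (1 - y)⁻¹ - 1 = (x + y - x * y) / ((1 - x) * (1 - y)) := by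
        field_simp
        ring
      rw [h2, div_le_iff₀ (by positivity)]
      have h3 : 1 / 4 ≤ (1 - x) * (1 - y) := by nlinarith
      have h4 : 0 ≤ x * y := by positivity
      nlinarith [add_nonneg hx0 hy0]
    calc C * ((1 - x)⁻¹ * (1 - y)⁻¹ - 1) ≤ C * (4 * (x + y)) := mul_le_mul_of_nonneg_left h1 hC0
      _ = 4 * C * (x + y) := by ring
  have hlast : 4 * C * (x + y) < ε := by nlinarith
  exact (hbd.trans hfin).trans_lt hlast

end Pool.Agent.K3
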