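import Pool.Agent.Lib_MP_1209e6_k3.Defs

/-! PIECE GLUE2: gluing two curves. -/

set_option autoImplicit false

open Filter Topology Pool.Agent.CampanaFlow

namespace Pool.Agent.K3

variable {R : Type} [CommRing R] [Algebra ℂ R]

/-- restriction of a curve along a homomorphism -/
theorem isCurve_comp {S : Type} [CommRing S] [Algebra ℂ S] {U : Set ℂ} {γ : ℂ → S →ₐ[ℂ] ℂ}
    {B : Set ℂ} (h : IsCurve U γ B) (ι : R →ₐ[ℂ] S) : IsCurve U (fun w => (γ w).comp ι) B :=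
  ⟨h.disc, fun f z hz hzB => h.ana (ι f) z hz hzB, fun f z hz => h.mer (ι f) z hz⟩

theorem glue2 {U V : Set ℂ} (hU : IsOpen U) (hV : IsOpen V) (hUV : U ∪ V = Set.univ)
    {γ γ' : ℂ → R →ₐ[ℂ] ℂ} {B B' : Set ℂ} (h : IsCurve U γ B) (h' : IsCurve V γ' B')
    (he : ∀ w ∈ U, w ∈ V → w ∉ B ∧ w ∉ B' ∧ γ w = γ' w) :
    ∃ (δ : ℂ → R →ₐ[ℂ] ℂ) (E : Set ℂ), IsCurve Set.univ δ E ∧
      (∀ w ∈ U, w ∉ B → w ∉ E ∧ δ w = γ w) ∧ (∀ w ∈ V, w ∉ B' → w ∉ E ∧ δ w = γ' w) := by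
  classical
  let δ : ℂ → R →ₐ[ℂ] ℂ := fun w => if w ∈ U then γ w else γ' w
  let E : Set ℂ := {w | (w ∈ U ∧ w ∈ B) ∨ (w ∈ V ∧ w ∈ B')}
  have hδU : ∀ w ∈ U, δ w = γ w := fun w hw => if_pos hw
  have hδV : ∀ w ∈ V, δ w = γ' w := by
    intro w hw
    by_cases hwU : w ∈ U
    · rw [hδU w hwU]
      exact (he w hwU hw).2.2
    · exact if_neg hwU
  have hEU : ∀ w ∈ U, w ∉ B → w ∉ E := by
    rintro w hw hwB (⟨-, h1⟩ | ⟨h1, h2⟩)
    · exact hwB h1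
    · exact (he w hw h1).2.1 h2
  have hEV : ∀ w ∈ V, w ∉ B' → w ∉ E := by
    rintro w hw hwB (⟨h1, h2⟩ | ⟨-, h1⟩)
    · exact (he w h1 hw).1 h2
    · exact hwB h1
  have hcov : ∀ z : ℂ, z ∈ U ∨ z ∈ V := fun z => by
    have h1 : z ∈ U ∪ V := hUV ▸ Set.mem_univ z
    exact h1
  refine ⟨δ, E, ⟨?_, ?_, ?_⟩, fun w hw hwB => ⟨hEU w hw hwB, hδU w hw⟩,
    fun w hw hwB => ⟨hEV w hw hwB, hδV w hw⟩⟩
  · intro z _
    rcases hcov z with hz | hz
    · filter_upwards [h.disc z hz, nhdsWithin_le_nhds (hU.mem_nhds hz)] with w h1 h2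
      exact hEU w h2 h1
    · filter_upwards [h'.disc z hz, nhdsWithin_le_nhds (hV.mem_nhds hz)] with w h1 h2
      exact hEV w h2 h1
  · intro f z _ hzE
    rcases hcov z with hz | hz
    · refine (h.ana f z hz fun h1 => hzE (Or.inl ⟨hz, h1⟩)).congr ?_
      filter_upwards [hU.mem_nhds hz] with w hw
      rw [hδU w hw]
    · refine (h'.ana f z hz fun h1 => hzE (Or.inr ⟨hz, h1⟩)).congr ?_
      filter_upwards [hV.mem_nhds hz] with w hw
      rw [hδV w hw]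
  · intro f z _
    rcases hcov z with hz | hz
    · refine (h.mer f z hz).congr ?_
      filter_upwards [nhdsWithin_le_nhds (hU.mem_nhds hz)] with w hw
      rw [hδU w hw]
    · refine (h'.mer f z hz).congr ?_
      filter_upwards [nhdsWithin_le_nhds (hV.mem_nhds hz)] with w hw
      rw [hδV w hw]

end Pool.Agent.K3
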