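import Pool.Agent.Lib_MP_1209e6_k3.Defs
import Pool.Agent.Lib_MP_1209e6_fl.F4
import Pool.Agent.Lib_MP_1209e6_kc.BGrow

/-! PIECE GROW2: growth of double Taylor coefficients, and the double flow for small times. -/

set_option autoImplicit false

open Filter Topology Pool.Agent.CampanaFlow

namespace Pool.Agent.K3

variable {S : Type} [CommRing S] [Algebra ℂ S]

theorem grow2_word {ι : Type} (d : ι → Derivation ℂ S S) (a : ι) (m : ℕ) (l : List ι) (f : S) :
    word d (List.replicate m a ++ l) f = (d a)^[m] (word d l f) := by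
  induction m with
  | zero => rfl
  | succ m ih =>
    rw [List.replicate_succ, List.cons_append, Function.iterate_succ_apply', ← ih]
    rfl

/-- Generators `g` of `S`, `d g`, `e g` polynomials in the generators of degree `≤ r`: a word of length `N`
in `d, e` applied to a polynomial of degree `≤ a` has degree `≤ a + N r` and coefficient sum
`≤ C κ^N a (a + r) … (a + (N-1) r) ≤ C' K'^N N!`; `N! / (m! n!) ≤ 2^N`. (The lemma `grow` of `fl/F3` does one
derivation: apply its method, or `f3nu_der` twice.) -/
theorem grow2 [Algebra.FiniteType ℂ S] (d e : Derivation ℂ S S) (p : S →ₐ[ℂ] ℂ) :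
    ∃ K : ℝ, 0 < K ∧ ∀ f : S, ∃ C : ℝ, ∀ m n : ℕ, ‖co2 d e p f m n‖ ≤ C * K ^ (m + n) := by
  obtain ⟨G, hG⟩ := (Algebra.FiniteType.out : (⊤ : Subalgebra ℂ S).FG)
  let dd : Bool → Derivation ℂ S S := fun b => bif b then d else e
  obtain ⟨K, hK, H⟩ := CampanaB.unif_grow dd G hG (∑ g ∈ G, ‖p g‖)
  refine ⟨2 * K, by positivity, fun f => ?_⟩
  obtain ⟨C, hC, HC⟩ := H f
  refine ⟨C, fun m n => ?_⟩
  have h1 := HC ℂ p (fun g hg =>
    Finset.single_le_sum (f := fun g => ‖p g‖) (fun g _ => norm_nonneg _) hg)
    (List.replicate m true ++ List.replicate n false)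
  have h2 : word dd (List.replicate m true ++ List.replicate n false) f = d^[m] (e^[n] f) := by
    rw [grow2_word]
    have h3 := grow2_word dd false n [] f
    rw [List.append_nil] at h3
    rw [h3]
    rfl
  rw [h2, List.length_append, List.length_replicate, List.length_replicate] at h1
  have hf : (0 : ℝ) < m.factorial * n.factorial := by positivity
  unfold co2
  rw [norm_div, norm_mul, Complex.norm_natCast, Complex.norm_natCast, div_le_iff₀ hf]
  have h4 : ((m + n).factorial : ℝ) ≤ 2 ^ (m + n) * (m.factorial * n.factorial) := by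
    have h5 := Nat.add_choose_mul_factorial_mul_factorial m n
    have h6 := Nat.choose_le_two_pow (m + n) n
    have h7 : (m + n).factorial ≤ 2 ^ (m + n) * (m.factorial * n.factorial) := by
      rw [← h5, mul_assoc]
      exact Nat.mul_le_mul_right _ h6
    exact_mod_cast h7
  calc ‖p (d^[m] (e^[n] f))‖ ≤ C * (m + n).factorial * K ^ (m + n) := h1
    _ ≤ C * (2 ^ (m + n) * (m.factorial * n.factorial)) * K ^ (m + n) := by gcongr
    _ = _ := by rw [mul_pow]; ring

end Pool.Agent.K3
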