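import Pool.Agent.Lib_MP_1858fb_w.Wiener

/-!
# Functions given by the elements of a Wiener algebra (MP_1209e6_ag, Theorem K)

`f` supported on negative exponents: `val · f` is analytic outside the inner circle and tends to `0`
at infinity; `f` supported on nonnegative exponents: analytic inside the outer circle.
-/

set_option autoImplicit false

open Filter Topology

namespace Pool.Agent.K3

open Pool.Agent.Lib_MP_1858fb_w Pool.Agent.Lib_MP_1858fb_w.W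

variable {ω : Wt}

theorem norm_val_le_mul {S : Set ℤ} {t : ℂ} {M : ℝ} (_hM : 0 ≤ M)
    (hb : ∀ i ∈ S, ‖t ^ i‖ ≤ M * ω.w i) {f : W ω} (hf : Supp S f) : ‖val t f‖ ≤ M * ‖f‖ := by
  have h1 : HasSum (fun k => M * (‖f.co k‖ * ω.w k)) (M * ‖f‖) := by
    rw [norm_eq]; exact (summ f).hasSum.mul_left M
  refine tsum_of_norm_bounded h1 fun k => ?_
  by_cases hk : k ∈ S
  · rw [norm_mul]
    calc ‖f.co k‖ * ‖t ^ k‖ ≤ ‖f.co k‖ * (M * ω.w k) :=
          mul_le_mul_of_nonneg_left (hb k hk) (norm_nonneg _)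
      _ = M * (‖f.co k‖ * ω.w k) := by ring
  · rw [hf k hk, zero_mul, norm_zero, zero_mul, mul_zero]

theorem differentiableOn_val {S : Set ℤ} {U : Set ℂ} (hU : IsOpen U)
    (hb : ∀ t ∈ U, ∀ i ∈ S, ‖t ^ i‖ ≤ ω.w i) (hd : ∀ t ∈ U, ∀ i ∈ S, t ≠ 0 ∨ 0 ≤ i)
    {f : W ω} (hf : Supp S f) : DifferentiableOn ℂ (fun t => val t f) U := by
  have h := Complex.differentiableOn_tsum_of_summable_norm (F := fun (k : ℤ) (t : ℂ) => f.co k * t ^ k)
    (U := U) (summ f) (fun k => ?_) hU (fun k t ht => ?_)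
  · exact h
  · by_cases hk : k ∈ S
    · intro t ht
      exact ((differentiableAt_zpow.2 (hd t ht k hk)).const_mul _).differentiableWithinAt
    · simp only [hf k hk, zero_mul]
      exact differentiableOn_const _
  · by_cases hk : k ∈ S
    · rw [norm_mul]
      exact mul_le_mul_of_nonneg_left (hb t ht k hk) (norm_nonneg _)
    · simp only [hf k hk, zero_mul, norm_zero, le_refl]

/-- the annulus `1/2 < |ζ| < 2` -/
noncomputable abbrev ω0 : Wt := Wt.ann (1 / 2) 2 (by norm_num) (by norm_num)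

theorem w0_neg {k : ℤ} (hk : k ≤ 0) : ω0.w k = (1 / 2 : ℝ) ^ k :=
  Wt.ann_nonpos (r₁ := 1 / 2) (r₂ := 2) (by norm_num) (by norm_num) hk

theorem w0_nonneg {k : ℤ} (hk : 0 ≤ k) : ω0.w k = (2 : ℝ) ^ k :=
  Wt.ann_nonneg (r₁ := 1 / 2) (r₂ := 2) (by norm_num) (by norm_num) hk

theorem neg_bound {t : ℂ} (ht : 1 / 2 ≤ ‖t‖) {k : ℤ} (hk : k < 0) : ‖t ^ k‖ ≤ ω0.w k := by
  rw [w0_neg hk.le, norm_zpow]
  obtain ⟨n, hn⟩ := Int.eq_ofNat_of_zero_le (neg_nonneg.2 hk.le)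
  have hk2 : k = -(n : ℤ) := by have : -k = (n : ℤ) := hn; omega
  rw [hk2, zpow_neg, zpow_neg, zpow_natCast, zpow_natCast]
  exact inv_anti₀ (by positivity) (pow_le_pow_left₀ (by norm_num) ht n)

theorem nonneg_bound {t : ℂ} (ht : ‖t‖ ≤ 2) {k : ℤ} (hk : 0 ≤ k) : ‖t ^ k‖ ≤ ω0.w k := by
  rw [w0_nonneg hk, norm_zpow]
  obtain ⟨n, rfl⟩ := Int.eq_ofNat_of_zero_le hk
  rw [zpow_natCast, zpow_natCast]
  exact pow_le_pow_left₀ (norm_nonneg _) ht n

/-- negative part: analytic outside the circle of radius `1/2` -/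
theorem analyticAt_val_neg {f : W ω0} (hf : Supp {k | k < 0} f) {t : ℂ} (ht : 1 / 2 < ‖t‖) :
    AnalyticAt ℂ (fun t => val t f) t := by
  have hU : IsOpen {t : ℂ | 1 / 2 < ‖t‖} := isOpen_lt continuous_const continuous_norm
  have h := differentiableOn_val (S := {k | k < 0}) (U := {t : ℂ | 1 / 2 < ‖t‖}) hU
    (fun t ht i hi => neg_bound (le_of_lt ht) hi)
    (fun t ht i _ => Or.inl fun h0 => by
      have h1 : (1 : ℝ) / 2 < ‖t‖ := ht
      rw [h0, norm_zero] at h1; norm_num at h1) hf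
  exact h.analyticAt (hU.mem_nhds ht)

theorem norm_val_neg {f : W ω0} (hf : Supp {k | k < 0} f) {t : ℂ} (ht : 1 / 2 ≤ ‖t‖) :
    ‖val t f‖ ≤ ‖f‖ := norm_val_le (fun _ hi => neg_bound ht hi) hf

/-- nonnegative part: analytic inside the circle of radius `2` -/
theorem analyticAt_val_nonneg {f : W ω0} (hf : Supp {k | 0 ≤ k} f) {t : ℂ} (ht : ‖t‖ < 2) :
    AnalyticAt ℂ (fun t => val t f) t := by
  have hU : IsOpen {t : ℂ | ‖t‖ < 2} := isOpen_lt continuous_norm continuous_const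
  have h := differentiableOn_val (S := {k | 0 ≤ k}) (U := {t : ℂ | ‖t‖ < 2}) hU
    (fun t ht i hi => nonneg_bound (le_of_lt ht) hi) (fun t ht i hi => Or.inr hi) hf
  exact h.analyticAt (hU.mem_nhds ht)

theorem norm_val_nonneg {f : W ω0} (hf : Supp {k | 0 ≤ k} f) {t : ℂ} (ht : ‖t‖ ≤ 2) :
    ‖val t f‖ ≤ ‖f‖ := norm_val_le (fun _ hi => nonneg_bound ht hi) hf

theorem far_bound {t : ℂ} (ht : 1 ≤ ‖t‖) (n : ℕ) {k : ℤ} (hk : k ≤ -(n : ℤ)) :
    ‖t ^ k‖ ≤ (‖t‖ ^ n)⁻¹ * ω0.w k := by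
  have h0 : 0 < ‖t‖ := lt_of_lt_of_le one_pos ht
  have hk0 : k ≤ 0 := hk.trans (by omega)
  obtain ⟨m, hm⟩ := Int.eq_ofNat_of_zero_le (neg_nonneg.2 hk0)
  have hk2 : k = -(m : ℤ) := by have : -k = (m : ℤ) := hm; omega
  have hnm : n ≤ m := by omega
  rw [w0_neg hk0, norm_zpow, hk2, zpow_neg, zpow_neg, zpow_natCast, zpow_natCast]
  have h1 : ((1 / 2 : ℝ) ^ m)⁻¹ = 2 ^ m := by rw [one_div, inv_pow, inv_inv]
  rw [h1]
  have h2 : (‖t‖ ^ m)⁻¹ ≤ (‖t‖ ^ n)⁻¹ :=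
    inv_anti₀ (by positivity) (pow_le_pow_right₀ ht hnm)
  have h3 : (1 : ℝ) ≤ 2 ^ m := one_le_pow₀ (by norm_num)
  calc (‖t‖ ^ m)⁻¹ ≤ (‖t‖ ^ n)⁻¹ := h2
    _ = (‖t‖ ^ n)⁻¹ * 1 := (mul_one _).symm
    _ ≤ (‖t‖ ^ n)⁻¹ * 2 ^ m := mul_le_mul_of_nonneg_left h3 (by positivity)

/-- `val · f` tends to `0` at infinity -/
theorem tendsto_val_neg {f : W ω0} (hf : Supp {k | k < 0} f) :
    Tendsto (fun t => val t f) (Bornology.cobounded ℂ) (𝓝 0) := by
  have h1 : Tendsto (fun t : ℂ => ‖t‖⁻¹ * ‖f‖) (Bornology.cobounded ℂ) (𝓝 0) := by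
    have := (tendsto_inv_atTop_zero.comp (tendsto_norm_cobounded_atTop (E := ℂ))).mul_const ‖f‖
    rwa [zero_mul] at this
  refine squeeze_zero_norm' ?_ h1
  have h2 : ∀ᶠ t : ℂ in Bornology.cobounded ℂ, 1 ≤ ‖t‖ :=
    (tendsto_norm_cobounded_atTop (E := ℂ)).eventually_ge_atTop 1
  filter_upwards [h2] with t ht
  refine norm_val_le_mul (S := {k | k < 0}) (by positivity) (fun i hi => ?_) hf
  have := far_bound ht 1 (k := i) (by have : i < 0 := hi; push_cast; omega)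
  rwa [pow_one] at this

/-- `ζ f(ζ)` tends to the coefficient of `ζ⁻¹` at infinity -/
theorem tendsto_mul_val_neg {f : W ω0} (hf : Supp {k | k < 0} f) :
    Tendsto (fun t => t * val t f) (Bornology.cobounded ℂ) (𝓝 (f.co (-1))) := by
  set h : W ω0 := f - mono ω0 (-1) (f.co (-1)) with hh
  have hS : Supp {k | k ≤ -2} h := by
    intro k hk
    have hk' : ¬ k ≤ -2 := hk
    rw [hh, co_sub, co_mono]
    by_cases h1 : k = -1
    · rw [if_pos h1, h1, sub_self]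
    · rw [if_neg h1, sub_zero]
      exact hf k (by
        show ¬ k < 0
        omega)
  have h1 : Tendsto (fun t : ℂ => ‖t‖⁻¹ * ‖h‖) (Bornology.cobounded ℂ) (𝓝 0) := by
    have := (tendsto_inv_atTop_zero.comp (tendsto_norm_cobounded_atTop (E := ℂ))).mul_const ‖h‖
    rwa [zero_mul] at this
  rw [tendsto_iff_norm_sub_tendsto_zero]
  refine squeeze_zero' (Eventually.of_forall fun _ => norm_nonneg _) ?_ h1
  have h2 : ∀ᶠ t : ℂ in Bornology.cobounded ℂ, 1 ≤ ‖t‖ :=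
    (tendsto_norm_cobounded_atTop (E := ℂ)).eventually_ge_atTop 1
  filter_upwards [h2] with t ht
  have h0 : 0 < ‖t‖ := lt_of_lt_of_le one_pos ht
  have ht0 : t ≠ 0 := norm_pos_iff.1 h0
  have e1 : val t f = val t h + val t (mono ω0 (-1) (f.co (-1))) := by
    have e2 : f = h + mono ω0 (-1) (f.co (-1)) := by rw [hh]; abel
    conv_lhs => rw [e2]
    refine val_add (S := {k | k < 0}) (fun i hi => neg_bound (by linarith) hi) ?_ ?_
    · exact hS.mono_set fun k hk => by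
        have : k ≤ -2 := hk
        show k < 0
        omega
    · exact supp_mono (by show (-1 : ℤ) < 0; norm_num) _
  have e3 : t * val t f - f.co (-1) = t * val t h := by
    rw [e1, val_mono, mul_add]
    have : t * (f.co (-1) * t ^ (-1 : ℤ)) = f.co (-1) := by
      rw [zpow_neg_one]; field_simp
    rw [this]; ring
  rw [e3, norm_mul]
  have h3 : ‖val t h‖ ≤ (‖t‖ ^ 2)⁻¹ * ‖h‖ :=
    norm_val_le_mul (S := {k | k ≤ -2}) (by positivity)
      (fun i hi => far_bound ht 2 (k := i) (by have : i ≤ -2 := hi; push_cast; omega)) hS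
  calc ‖t‖ * ‖val t h‖ ≤ ‖t‖ * ((‖t‖ ^ 2)⁻¹ * ‖h‖) := mul_le_mul_of_nonneg_left h3 h0.le
    _ = ‖t‖⁻¹ * ‖h‖ := by field_simp

theorem valNeg (f : W (Wt.ann (1 / 2) 2 (by norm_num) (by norm_num)))
    (hf : W.Supp {k | k < 0} f) :
    (∀ ζ : ℂ, 1 / 2 < ‖ζ‖ → AnalyticAt ℂ (fun t => W.val t f) ζ ∧ ‖W.val ζ f‖ ≤ ‖f‖) ∧
      Tendsto (fun ζ => ζ * W.val ζ f) (Bornology.cobounded ℂ) (𝓝 (f.co (-1))) ∧
      Tendsto (fun ζ => W.val ζ f) (Bornology.cobounded ℂ) (𝓝 0) :=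
  ⟨fun _ h => ⟨analyticAt_val_neg hf h, norm_val_neg hf h.le⟩, tendsto_mul_val_neg hf,
    tendsto_val_neg hf⟩

theorem valNng (f : W (Wt.ann (1 / 2) 2 (by norm_num) (by norm_num)))
    (hf : W.Supp {k | 0 ≤ k} f) :
    ∀ ζ : ℂ, ‖ζ‖ < 2 → AnalyticAt ℂ (fun t => W.val t f) ζ ∧ ‖W.val ζ f‖ ≤ ‖f‖ :=
  fun _ h => ⟨analyticAt_val_nonneg hf h, norm_val_nonneg hf h.le⟩

end Pool.Agent.K3
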