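import Pool.Agent.Lib_MP_1209e6_k3.NodeFix
import Pool.Agent.Lib_MP_1209e6_k3.WVal

/-!
# The smoothing of a node

`MP_1209e6_ag`, pieces P4 and P5 (helper73): solution of `F1(s,z) = F2(s',z')` on an annulus.
-/

set_option autoImplicit false

open Filter Topology

namespace Pool.Agent.K3

open Pool.Agent.Lib_MP_1858fb_w

/-- the weight of the annulus `1/2 ≤ |ζ| ≤ 2` -/
noncomputable abbrev wn : Wt := Wt.ann (1/2) 2 (by norm_num) (by norm_num)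

theorem w_one : wn.w 1 = 2 := by
  show max ((1/2 : ℝ) ^ (1 : ℤ)) ((2 : ℝ) ^ (1 : ℤ)) = 2
  norm_num

theorem w_neg_one : wn.w (-1) = 2 := by
  show max ((1/2 : ℝ) ^ (-1 : ℤ)) ((2 : ℝ) ^ (-1 : ℤ)) = 2
  norm_num

theorem node (a b : Fin 2 → ℕ → ℕ → ℂ) {K C : ℝ} (hK : 0 < K)
    (ha : ∀ j p q, ‖a j p q‖ ≤ C * K ^ (p + q)) (hb : ∀ j p q, ‖b j p q‖ ≤ C * K ^ (p + q))
    (h0 : ∀ j, a j 0 0 = b j 0 0) (h1 : ∀ j, a j 1 0 = b j 0 1) (h2 : ∀ j, a j 0 1 = b j 1 0)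
    (hdet : a 0 1 0 * a 1 0 1 ≠ a 0 0 1 * a 1 1 0) {δ : ℝ} (hδ : 0 < δ) :
    ∃ (η σ : ℂ) (s z s' z' : ℂ → ℂ), η ≠ 0 ∧ σ ≠ 0 ∧
      (∀ ζ, 1/2 < ‖ζ‖ → AnalyticAt ℂ s ζ ∧ AnalyticAt ℂ z ζ ∧ ‖s ζ‖ ≤ δ) ∧
      (∀ ζ, ζ ≠ 0 → ‖ζ‖ < 2 → AnalyticAt ℂ s' ζ ∧ AnalyticAt ℂ z' ζ ∧ ‖s' ζ‖ ≤ δ) ∧
      (∀ ζ, 1/2 < ‖ζ‖ → ‖ζ‖ < 2 → ‖z ζ‖ ≤ δ ∧ ‖z' ζ‖ ≤ δ ∧
        ∀ j, ps2 (a j) (s ζ) (z ζ) = ps2 (b j) (s' ζ) (z' ζ)) ∧
      Tendsto (fun ζ => ζ * s ζ) (Bornology.cobounded ℂ) (𝓝 σ) ∧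
      Tendsto (fun ζ => z ζ - η * (Complex.exp ζ - 1)) (Bornology.cobounded ℂ) (𝓝 0) := by
  classical
  set X : W wn := W.mono wn 1 1 with hX
  set Y : W wn := W.mono wn (-1) 1 with hY
  have nX : ‖X‖ = 2 := by rw [hX, W.norm_mono, w_one]; simp
  have nY : ‖Y‖ = 2 := by rw [hY, W.norm_mono, w_neg_one]; simp
  have hXs : Summable fun n : ℕ => ((n.factorial : ℂ)⁻¹) • X ^ n := by
    refine Summable.of_norm_bounded (Real.summable_pow_div_factorial 2) fun n => ?_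
    refine (norm_smul_le _ _).trans ?_
    rw [norm_inv, Complex.norm_natCast, div_eq_inv_mul]
    refine mul_le_mul_of_nonneg_left ?_ (by positivity)
    refine (norm_pow_le _ _).trans ?_
    rw [nX]
  set E : W wn := (∑' n : ℕ, ((n.factorial : ℂ)⁻¹) • X ^ n) - 1 with hE
  set c₀ : ℝ := ‖E‖ + Real.exp 2 + 2 with hc
  have he : 0 < Real.exp 2 := Real.exp_pos 2
  have hEn : 0 ≤ ‖E‖ := norm_nonneg E
  have nE : ‖E‖ ≤ c₀ := by linarith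
  have nY' : ‖Y‖ ≤ c₀ := by rw [nY]; linarith
  set P : W wn →L[ℂ] W wn := W.proj {k | k < 0} with hP
  set Q : W wn →L[ℂ] W wn := W.proj {k | k < 0}ᶜ with hQ
  have hQset : ({k : ℤ | k < 0}ᶜ : Set ℤ) = {k | 0 ≤ k} := by ext k; simp
  obtain ⟨η, u, v, hη, hηδ, hKη, hu, hv, heq⟩ := NodeP.node_fix P Q
    (fun x => W.proj_add_compl _ x) (fun x => W.norm_proj_le _ x) (fun x => W.norm_proj_le _ x)
    Y E (by linarith : (1:ℝ) ≤ c₀) nY' nE a b hK ha hb h0 h1 h2 hdet hδ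
  have hPu : ‖P u‖ ≤ η := (W.norm_proj_le _ u).trans hu
  have hPv : ‖P v‖ ≤ η := (W.norm_proj_le _ v).trans hv
  have hQu : ‖Q u‖ ≤ η := (W.norm_proj_le _ u).trans hu
  have hQv : ‖Q v‖ ≤ η := (W.norm_proj_le _ v).trans hv
  obtain ⟨an1, lim1, -⟩ := valNeg (P u) (W.supp_proj _ u)
  obtain ⟨an2, -, lim2⟩ := valNeg (P v) (W.supp_proj _ v)
  have an3 := valNng (Q u) (hQset ▸ W.supp_proj _ u)
  have an4 := valNng (Q v) (hQset ▸ W.supp_proj _ v)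
  have hη' : (η : ℂ) ≠ 0 := by exact_mod_cast hη.ne'
  have hηn : ‖(η : ℂ)‖ = η := by rw [Complex.norm_real, Real.norm_of_nonneg hη.le]
  -- evaluation at the points of the annulus
  have hev : ∀ ζ : ℂ, 1/2 < ‖ζ‖ → ‖ζ‖ < 2 → ∃ φ : W wn →ₐ[ℂ] ℂ, Continuous φ ∧
      (∀ f, φ f = W.val ζ f) ∧ (∀ f, ‖φ f‖ ≤ ‖f‖) ∧ φ Y = ζ⁻¹ ∧ φ E = Complex.exp ζ - 1 := by
    intro ζ hζ1 hζ2
    have hζ0 : ζ ≠ 0 := by
      rintro rfl
      rw [norm_zero] at hζ1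
      linarith
    have hb : ∀ k : ℤ, ‖ζ ^ k‖ ≤ wn.w k := fun k =>
      Wt.ann_zpow_le (by norm_num) (by norm_num) hζ1.le hζ2.le k
    have hφn : ∀ f : W wn, ‖W.ev ζ hζ0 hb f‖ ≤ ‖f‖ := fun f => W.norm_ev_le ζ hζ0 hb f
    have hφc : Continuous (W.ev ζ hζ0 hb : W wn → ℂ) := by
      have : (W.ev ζ hζ0 hb : W wn → ℂ) =
          (LinearMap.mkContinuous (W.ev ζ hζ0 hb).toLinearMap 1
            (fun f => by rw [one_mul]; exact hφn f) : W wn → ℂ) := rfl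
      rw [this]
      exact ContinuousLinearMap.continuous _
    refine ⟨W.ev ζ hζ0 hb, hφc, fun f => rfl, hφn, ?_, ?_⟩
    · rw [W.ev_apply, hY, W.val_mono, one_mul, zpow_neg_one]
    · have hXv : W.ev ζ hζ0 hb X = ζ := by
        rw [W.ev_apply, hX, W.val_mono, one_mul, zpow_one]
      rw [hE, map_sub, map_one]
      congr 1
      have h := hXs.map_tsum (W.ev ζ hζ0 hb : W wn →+ ℂ) hφc
      refine h.trans ?_
      rw [Complex.exp_eq_exp_ℂ, ← (NormedSpace.expSeries_div_hasSum_exp (𝔸 := ℂ) ζ).tsum_eq]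
      refine tsum_congr fun n => ?_
      show W.ev ζ hζ0 hb (((n.factorial : ℂ)⁻¹) • X ^ n) = _
      rw [map_smul, map_pow, hXv, smul_eq_mul, div_eq_inv_mul]
  have hco : ‖(P u).co (-1)‖ < η := by
    have h := W.norm_co_le (P u) (-1)
    rw [w_neg_one] at h
    have := norm_nonneg ((P u).co (-1))
    linarith
  have hPune : (η : ℂ) + (P u).co (-1) ≠ 0 := by
    intro h
    have h2 : (P u).co (-1) = -(η : ℂ) := by linear_combination h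
    rw [h2, norm_neg, hηn] at hco
    exact lt_irrefl _ hco
  have hanexp : ∀ ζ : ℂ, AnalyticAt ℂ (fun t => (η : ℂ) * (Complex.exp t - 1)) ζ := fun ζ => by
    fun_prop
  have haninv : ∀ ζ : ℂ, ζ ≠ 0 → AnalyticAt ℂ (fun t : ℂ => (η : ℂ) * t⁻¹) ζ := fun ζ hζ =>
    analyticAt_const.mul (analyticAt_inv hζ)
  refine ⟨η, η + (P u).co (-1), fun ζ => η * ζ⁻¹ + W.val ζ (P u),
    fun ζ => η * (Complex.exp ζ - 1) + W.val ζ (P v),
    fun ζ => η * (Complex.exp ζ - 1) - W.val ζ (Q v),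
    fun ζ => η * ζ⁻¹ - W.val ζ (Q u), hη', hPune, ?_, ?_, ?_, ?_, ?_⟩
  · intro ζ hζ
    have hζ0 : ζ ≠ 0 := by
      rintro rfl
      rw [norm_zero] at hζ
      linarith
    refine ⟨(haninv ζ hζ0).add (an1 ζ hζ).1, (hanexp ζ).add (an2 ζ hζ).1, ?_⟩
    have hinv : ‖ζ⁻¹‖ ≤ 2 := by
      rw [norm_inv]
      calc ‖ζ‖⁻¹ ≤ (1/2 : ℝ)⁻¹ := inv_anti₀ (by norm_num) hζ.le
        _ = 2 := by norm_num
    calc ‖(η : ℂ) * ζ⁻¹ + W.val ζ (P u)‖ ≤ ‖(η : ℂ) * ζ⁻¹‖ + ‖W.val ζ (P u)‖ := norm_add_le _ _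
      _ ≤ η * 2 + η := by
          rw [norm_mul, hηn]
          exact add_le_add (mul_le_mul_of_nonneg_left hinv hη.le) ((an1 ζ hζ).2.trans hPu)
      _ ≤ (c₀ + 1) * η := by nlinarith
      _ ≤ δ := hηδ
  · intro ζ hζ0 hζ
    refine ⟨(hanexp ζ).sub (an4 ζ hζ).1, (haninv ζ hζ0).sub (an3 ζ hζ).1, ?_⟩
    have hexp : ‖Complex.exp ζ - 1‖ ≤ Real.exp 2 + 1 := by
      refine (norm_sub_le _ _).trans ?_
      rw [norm_one]
      have h1 := Complex.norm_exp_le_exp_norm ζ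
      have h2 : Real.exp ‖ζ‖ ≤ Real.exp 2 := Real.exp_le_exp.2 hζ.le
      linarith
    calc ‖(η : ℂ) * (Complex.exp ζ - 1) - W.val ζ (Q v)‖
        ≤ ‖(η : ℂ) * (Complex.exp ζ - 1)‖ + ‖W.val ζ (Q v)‖ := norm_sub_le _ _
      _ ≤ η * (Real.exp 2 + 1) + η := by
          rw [norm_mul, hηn]
          exact add_le_add (mul_le_mul_of_nonneg_left hexp hη.le) ((an4 ζ hζ).2.trans hQv)
      _ ≤ (c₀ + 1) * η := by nlinarith
      _ ≤ δ := hηδ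
  · intro ζ hζ1 hζ2
    obtain ⟨φ, hφc, hφv, hφn, hφY, hφE⟩ := hev ζ hζ1 hζ2
    have bnd : ∀ T : W wn, ‖T‖ ≤ c₀ → ∀ r : W wn, ‖r‖ ≤ η → ‖(η : ℂ) • T + r‖ ≤ (c₀ + 1) * η := by
      intro T hT r hr
      refine (norm_add_le _ _).trans ?_
      rw [norm_smul, hηn]
      nlinarith [mul_le_mul_of_nonneg_left hT hη.le]
    have bnd' : ∀ T : W wn, ‖T‖ ≤ c₀ → ∀ r : W wn, ‖r‖ ≤ η → ‖(η : ℂ) • T - r‖ ≤ (c₀ + 1) * η := by
      intro T hT r hr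
      rw [sub_eq_add_neg]
      exact bnd T hT (-r) (by rwa [norm_neg])
    have half : ∀ {x : W wn}, ‖x‖ ≤ (c₀ + 1) * η → K * ‖x‖ ≤ 1 / 2 := fun {x} hx => by
      have := mul_le_mul_of_nonneg_left hx hK.le
      linarith
    have es : φ ((η : ℂ) • Y + P u) = η * ζ⁻¹ + W.val ζ (P u) := by
      rw [map_add, map_smul, hφY, hφv, smul_eq_mul]
    have ez : φ ((η : ℂ) • E + P v) = η * (Complex.exp ζ - 1) + W.val ζ (P v) := by
      rw [map_add, map_smul, hφE, hφv, smul_eq_mul]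
    have es' : φ ((η : ℂ) • E - Q v) = η * (Complex.exp ζ - 1) - W.val ζ (Q v) := by
      rw [map_sub, map_smul, hφE, hφv, smul_eq_mul]
    have ez' : φ ((η : ℂ) • Y - Q u) = η * ζ⁻¹ - W.val ζ (Q u) := by
      rw [map_sub, map_smul, hφY, hφv, smul_eq_mul]
    refine ⟨?_, ?_, fun j => ?_⟩
    · show ‖(η : ℂ) * (Complex.exp ζ - 1) + W.val ζ (P v)‖ ≤ δ
      rw [← ez]
      exact (hφn _).trans ((bnd E nE _ hPv).trans hηδ)
    · show ‖(η : ℂ) * ζ⁻¹ - W.val ζ (Q u)‖ ≤ δ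
      rw [← ez']
      exact (hφn _).trans ((bnd' Y nY' _ hQu).trans hηδ)
    · show ps2 (a j) (η * ζ⁻¹ + W.val ζ (P u)) (η * (Complex.exp ζ - 1) + W.val ζ (P v)) =
        ps2 (b j) (η * (Complex.exp ζ - 1) - W.val ζ (Q v)) (η * ζ⁻¹ - W.val ζ (Q u))
      rw [← es, ← ez, ← es', ← ez',
        ← NodeP.map_psA φ hφc hK (ha j) (half (bnd Y nY' _ hPu)) (half (bnd E nE _ hPv)),
        ← NodeP.map_psA φ hφc hK (hb j) (half (bnd' E nE _ hQv)) (half (bnd' Y nY' _ hQu)),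
        heq j]
  · have h1 : Tendsto (fun ζ : ℂ => (η : ℂ) * (ζ * ζ⁻¹) + ζ * W.val ζ (P u))
        (Bornology.cobounded ℂ) (𝓝 (η * 1 + (P u).co (-1))) := by
      refine Tendsto.add ?_ lim1
      refine Tendsto.const_mul _ ?_
      refine tendsto_const_nhds.congr' ?_
      filter_upwards [Bornology.eventually_ne_cobounded (0 : ℂ)] with ζ hζ
      rw [mul_inv_cancel₀ hζ]
    rw [mul_one] at h1
    refine h1.congr fun ζ => ?_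
    ring
  · refine lim2.congr fun ζ => ?_
    ring

end Pool.Agent.K3
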