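import Pool.Agent.Lib_MP_1209e6_k3.FlowTwo
import Pool.Agent.Lib_MP_1209e6_k3.FlowOn
import Pool.Agent.Lib_MP_1209e6_fl.F5

/-! PIECE OUTER: the flow of the family of points `p ∘ exp (s d)` by any time. -/

set_option autoImplicit false

open Filter Topology Pool.Agent.CampanaFlow

namespace Pool.Agent.K3

theorem outer_ana {S : Type} [CommRing S] [Algebra ℂ S] (D : Derivation ℂ S S) (q : S →ₐ[ℂ] ℂ)
    (f : S) {ρ : ℝ} (h : Conv D q (ρ : ℂ) f) (hρ : 0 < ρ) :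
    DifferentiableOn ℂ (fun t => ev D q t f) (Metric.ball 0 ρ) := by
  unfold ev
  refine Complex.differentiableOn_tsum_of_summable_norm (u := fun n => ‖tc D q f n‖ * ρ ^ n) ?_ ?_
    Metric.isOpen_ball ?_
  · unfold Conv at h
    simpa [abs_of_pos hρ] using h
  · intro n
    fun_prop
  · intro n w hw
    rw [norm_mul, norm_pow]
    have : ‖w‖ ≤ ρ := (mem_ball_zero_iff.1 hw).le
    gcongr

theorem outer_bound {S : Type} [CommRing S] [Algebra ℂ S] (D : Derivation ℂ S S) (q : S →ₐ[ℂ] ℂ)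
    (f : S) {ρ : ℝ} (h : Conv D q (ρ : ℂ) f) (hρ : 0 < ρ) :
    ∃ C : ℝ, ∀ t : ℂ, ‖t‖ < ρ → ‖ev D q t f‖ ≤ C := by
  have h' : Summable fun n => ‖tc D q f n‖ * ρ ^ n := by
    unfold Conv at h
    simpa [abs_of_pos hρ] using h
  refine ⟨∑' n, ‖tc D q f n‖ * ρ ^ n, fun t ht => ?_⟩
  unfold ev
  refine tsum_of_norm_bounded h'.hasSum fun n => ?_
  rw [norm_mul, norm_pow]
  gcongr

theorem outer_size {S : Type} [CommRing S] [Algebra ℂ S] {D : Derivation ℂ S S}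
    (cd : ChartData D) (M : Fin cd.e → ℝ) :
    ∃ C : ℝ, ∀ q : S →ₐ[ℂ] ℂ, (∀ a, ‖q (cd.c a)‖ ≤ M a) → cd.size q ≤ C := by
  refine ⟨(1 + cd.deg) * ∑ j, ∑ l, ∑ s ∈ (cd.P j l).support, ‖(cd.P j l).coeff s‖ *
    ((∏ a, M a ^ s (Sum.inl a)) * ∏ i, (2 : ℝ) ^ s (Sum.inr i)), fun q hq => ?_⟩
  unfold ChartData.size
  gcongr with j _ l _ s hs a ha
  exact hq a

/-- `γ₀ w` = restriction to `S₁` of the point `q` of `flow2` with `s = s w`, `z = 0`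
(`γ₀ w f = ps2 (co2 d e p (ι f)) (s w) 0`, a power series in `s w`): a curve on `U` without exceptional points,
with bounded values of the finitely many constants of `cd` (small `ρ`), so `cd.size (γ₀ w)` is bounded.
`flow_on` with `τ`. If `‖τ w‖ < ρ`, the point `q'` of `flow2` restricted to `S₁` is the flow of `γ₀ w` by
`e₁` (since `ι ∘ e₁ = e ∘ ι`). -/
theorem outer {S S₁ : Type} [CommRing S] [Algebra ℂ S] [Algebra.FiniteType ℂ S] [CommRing S₁]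
    [Algebra ℂ S₁] (d e : Derivation ℂ S S) (ι : S₁ →ₐ[ℂ] S) (e₁ : Derivation ℂ S₁ S₁)
    (hι : ∀ a, ι (e₁ a) = e (ι a)) (cd : ChartData e₁) (p : S →ₐ[ℂ] ℂ) :
    ∃ ρ : ℝ, 0 < ρ ∧ ∀ U : Set ℂ, IsOpen U → Convex ℝ U → ∀ s τ : ℂ → ℂ,
      (∀ w ∈ U, AnalyticAt ℂ s w) → (∀ w ∈ U, AnalyticAt ℂ τ w) → (∀ w ∈ U, ‖s w‖ < ρ) →
      (∀ R : ℝ, ∃ C : ℝ, ∀ w ∈ U, ‖w‖ < R → ‖τ w‖ ≤ C) → (∃ w₀ ∈ U, ‖τ w₀‖ < ρ) →
      ∃ (γ : ℂ → S₁ →ₐ[ℂ] ℂ) (B : Set ℂ), IsCurve U γ B ∧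
        ∀ w ∈ U, ‖τ w‖ < ρ → w ∉ B ∧ ∀ f, γ w f = ps2 (co2 d e p (ι f)) (s w) (τ w) := by
  obtain ⟨ρ₁, hρ₁, hfl⟩ := flow2 d e p
  obtain ⟨ρ, hρ, hρρ⟩ : ∃ ρ : ℝ, 0 < ρ ∧ ρ < ρ₁ := ⟨ρ₁ / 2, by positivity, by linarith⟩
  refine ⟨ρ, hρ, ?_⟩
  have hconv : ∀ f, Conv d p (ρ : ℂ) f := by
    intro f
    obtain ⟨q, q', h1, -⟩ := hfl (ρ : ℂ) 0 (by
      rw [Complex.norm_real, Real.norm_of_nonneg hρ.le]
      exact hρρ) (by simpa using hρ₁)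
    exact (h1 f).1
  have hfs : ∀ s : ℂ, ∃ q : S →ₐ[ℂ] ℂ, ‖s‖ < ρ → IsFlow d p s q := by
    intro s
    by_cases hs : ‖s‖ < ρ
    · obtain ⟨q, q', h1, -⟩ := hfl s 0 (hs.trans hρρ) (by simpa using hρ₁)
      exact ⟨q, fun _ => h1⟩
    · exact ⟨p, fun h => absurd h hs⟩
  choose Q hQ using hfs
  intro U hU hUc s τ hs hτ hsρ hτb hex
  obtain ⟨w₀, hw₀, hτw₀⟩ := hex
  have hiter : ∀ (n : ℕ) (f : S₁), ι (e₁^[n] f) = e^[n] (ι f) := by
    intro n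
    induction n with
    | zero => intro f; rfl
    | succ n ih =>
      intro f
      rw [Function.iterate_succ_apply, Function.iterate_succ_apply, ih, hι]
  have hana : ∀ f : S₁, ∀ z ∈ U, AnalyticAt ℂ (fun w => ((Q (s w)).comp ι) f) z := by
    intro f z hz
    have h1 : AnalyticAt ℂ (fun t => ev d p t (ι f)) (s z) :=
      (outer_ana d p (ι f) (hconv _) hρ).analyticAt
        (Metric.isOpen_ball.mem_nhds (mem_ball_zero_iff.2 (hsρ z hz)))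
    have h2 : AnalyticAt ℂ (fun w => ev d p (s w) (ι f)) z := h1.comp (hs z hz)
    refine h2.congr ?_
    filter_upwards [hU.mem_nhds hz] with w hw
    exact ((hQ (s w) (hsρ w hw) (ι f)).2).symm
  have hγ₀ : IsCurve U (fun w => (Q (s w)).comp ι) ∅ :=
    { disc := fun z _ => Eventually.of_forall fun w => Set.notMem_empty w
      ana := fun f z hz _ => hana f z hz
      mer := fun f z hz => (hana f z hz).meromorphicAt }
  have hflow : ∀ w ∈ U, ‖τ w‖ < ρ → ∃ q' : S →ₐ[ℂ] ℂ,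
      IsFlow e₁ ((Q (s w)).comp ι) (τ w) (q'.comp ι) ∧
      ∀ f, q' f = ps2 (co2 d e p f) (s w) (τ w) := by
    intro w hw hτw
    obtain ⟨q, q', h1, h2, h3⟩ := hfl (s w) (τ w) ((hsρ w hw).trans hρρ) (hτw.trans hρρ)
    have hq : q = Q (s w) := by
      apply AlgHom.ext
      intro f
      rw [(h1 f).2, (hQ (s w) (hsρ w hw) f).2]
    subst hq
    refine ⟨q', ?_, h3⟩
    intro f
    have htc : tc e₁ ((Q (s w)).comp ι) f = tc e (Q (s w)) (ι f) := by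
      funext n
      unfold tc
      rw [AlgHom.comp_apply, hiter]
    obtain ⟨h4, h5⟩ := h2 (ι f)
    refine ⟨?_, ?_⟩
    · unfold Conv at h4 ⊢
      rw [htc]
      exact h4
    · rw [AlgHom.comp_apply, h5]
      unfold ev
      rw [htc]
  have hcb : ∀ a : Fin cd.e, ∃ C : ℝ, ∀ t : ℂ, ‖t‖ < ρ → ‖ev d p t (ι (cd.c a))‖ ≤ C :=
    fun a => outer_bound d p _ (hconv _) hρ
  choose M hM using hcb
  obtain ⟨C₂, hC₂⟩ := outer_size cd M
  obtain ⟨γ, B, hγ, hB⟩ := flow_on cd hU hUc hγ₀ τ hτ (by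
    intro R
    obtain ⟨C₁, hC₁⟩ := hτb R
    refine ⟨C₁ * C₂, fun w hw hwR _ => ?_⟩
    have h1 := hC₁ w hw hwR
    have h2 : cd.size ((Q (s w)).comp ι) ≤ C₂ := by
      apply hC₂
      intro a
      rw [AlgHom.comp_apply, (hQ (s w) (hsρ w hw) (ι (cd.c a))).2]
      exact hM a (s w) (hsρ w hw)
    exact mul_le_mul h1 h2 (cd.size_nonneg _) ((norm_nonneg _).trans h1)) hw₀
    (Set.notMem_empty _) (by
      have h1 : ∀ᶠ w in 𝓝 w₀, ‖τ w‖ < ρ :=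
        (hτ w₀ hw₀).continuousAt.norm.eventually (gt_mem_nhds hτw₀)
      filter_upwards [h1, hU.mem_nhds hw₀] with w h2 h3
      obtain ⟨q', h4, -⟩ := hflow w h3 h2
      exact ⟨_, h4⟩)
  refine ⟨γ, B, hγ, fun w hw hτw => ?_⟩
  obtain ⟨q', h1, h2⟩ := hflow w hw hτw
  obtain ⟨h3, h4⟩ := hB w hw (Set.notMem_empty _) _ h1
  refine ⟨h3, fun f => ?_⟩
  rw [h4, AlgHom.comp_apply, h2]

end Pool.Agent.K3
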