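import Pool.Agent.Lib_MP_1209e6_k3.NodeW
import Pool.Agent.Lib_MP_1209e6_k3.Outer
import Pool.Agent.Lib_MP_1209e6_k3.Agree
import Pool.Agent.Lib_MP_1209e6_k3.Dens
import Pool.Agent.Lib_MP_1209e6_k3.NoRel
import Pool.Agent.Lib_MP_1209e6_k3.GlueTwo

/-! PIECE NODECURVE: the entire curve from two tubes. -/

set_option autoImplicit false

open Filter Topology Pool.Agent.CampanaFlow

namespace Pool.Agent.K3

theorem convex_Up : Convex ℝ Up := convex_halfSpace_re_gt _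

theorem convex_Um : Convex ℝ Um := convex_halfSpace_re_lt _

theorem isOpen_Up : IsOpen Up := isOpen_lt continuous_const Complex.continuous_re

theorem isOpen_Um : IsOpen Um := isOpen_lt Complex.continuous_re continuous_const

theorem Up_union_Um : Up ∪ Um = Set.univ := by
  ext w
  simp only [Up, Um, Set.mem_union, Set.mem_ofPred_eq, Set.mem_univ, iff_true]
  have := Real.log_pos one_lt_two
  rcases lt_or_ge w.re (Real.log 2) with h | h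
  · exact Or.inr h
  · exact Or.inl (by linarith)

/-- `e` flows on `S₁`, `d` flows on `S₂`. Outer side (`Up`): first `d` by `s`, then `e` by `z`; inner side
(`Um`): first `e` by `s'`, then `d` by `z'`. `a j = co2 d e p (ι₁ (j₁ (y j)))`,
`b j = co2 e d p (ι₁ (j₁ (y j)))`. -/
theorem node_curve {R S S₁ S₂ : Type} [CommRing R] [Algebra ℂ R] [CommRing S] [Algebra ℂ S]
    [Algebra.FiniteType ℂ S] [CommRing S₁] [Algebra ℂ S₁] [CommRing S₂] [Algebra ℂ S₂]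
    (d e : Derivation ℂ S S) (ι₁ : S₁ →ₐ[ℂ] S) (ι₂ : S₂ →ₐ[ℂ] S) (e₁ : Derivation ℂ S₁ S₁)
    (d₂ : Derivation ℂ S₂ S₂) (hι₁ : ∀ a, ι₁ (e₁ a) = e (ι₁ a)) (hι₂ : ∀ a, ι₂ (d₂ a) = d (ι₂ a))
    (cd₁ : ChartData e₁) (cd₂ : ChartData d₂) (j₁ : R →ₐ[ℂ] S₁) (j₂ : R →ₐ[ℂ] S₂)
    (hj : ∀ a, ι₁ (j₁ a) = ι₂ (j₂ a)) (p : S →ₐ[ℂ] ℂ) (y : Fin 2 → R) (G : Finset R)
    (hG : Algebra.adjoin ℂ (G : Set R) = ⊤)
    (hP : ∀ g ∈ G, ∃ P : Polynomial (MvPolynomial (Fin 2) ℂ),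
      P.eval₂ (MvPolynomial.aeval y).toRingHom g = 0 ∧
      p (ι₁ (j₁ (P.derivative.eval₂ (MvPolynomial.aeval y).toRingHom g))) ≠ 0)
    (hdet : p (d (ι₁ (j₁ (y 0))) * e (ι₁ (j₁ (y 1))) - d (ι₁ (j₁ (y 1))) * e (ι₁ (j₁ (y 0)))) ≠ 0)
    (hrel : ∀ f : R, f ≠ 0 → ∃ (c : MvPolynomial (Fin 2) ℂ) (g : S), c ≠ 0 ∧
      MvPolynomial.aeval (fun j => ι₁ (j₁ (y j))) c = ι₁ (j₁ f) * g) :
    ∃ (γ : ℂ → R →ₐ[ℂ] ℂ) (B : Set ℂ), IsCurve Set.univ γ B ∧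
      ∀ f : R, (∀ z, z ∉ B → γ z f = 0) → f = 0 := by
  classical
  -- growth
  obtain ⟨K₁, hK₁, hg₁⟩ := grow2 d e p
  obtain ⟨K₂, hK₂, hg₂⟩ := grow2 e d p
  choose C₁ hC₁ using hg₁
  choose C₂ hC₂ using hg₂
  have hC₁0 : ∀ f, 0 ≤ C₁ f := fun f => by
    have := (norm_nonneg _).trans (hC₁ f 0 0)
    simpa using this
  have hC₂0 : ∀ f, 0 ≤ C₂ f := fun f => by
    have := (norm_nonneg _).trans (hC₂ f 0 0)
    simpa using this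
  set K : ℝ := max K₁ K₂ with hKdef
  have hK : 0 < K := lt_max_of_lt_left hK₁
  set C : ℝ := ∑ j : Fin 2, (C₁ (ι₁ (j₁ (y j))) + C₂ (ι₁ (j₁ (y j)))) with hCdef
  have hCj : ∀ j : Fin 2, C₁ (ι₁ (j₁ (y j))) + C₂ (ι₁ (j₁ (y j))) ≤ C := fun j =>
    Finset.single_le_sum (f := fun j : Fin 2 => C₁ (ι₁ (j₁ (y j))) + C₂ (ι₁ (j₁ (y j))))
      (fun i _ => add_nonneg (hC₁0 _) (hC₂0 _)) (Finset.mem_univ j)
  have ha : ∀ (j : Fin 2) (m n : ℕ), ‖co2 d e p (ι₁ (j₁ (y j))) m n‖ ≤ C * K ^ (m + n) := by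
    intro j m n
    refine (hC₁ _ m n).trans ?_
    have h1 : C₁ (ι₁ (j₁ (y j))) ≤ C := by linarith [hCj j, hC₂0 (ι₁ (j₁ (y j)))]
    have h2 : K₁ ^ (m + n) ≤ K ^ (m + n) := pow_le_pow_left₀ hK₁.le (le_max_left _ _) _
    exact mul_le_mul h1 h2 (by positivity) ((hC₁0 _).trans h1)
  have hb : ∀ (j : Fin 2) (m n : ℕ), ‖co2 e d p (ι₁ (j₁ (y j))) m n‖ ≤ C * K ^ (m + n) := by
    intro j m n
    refine (hC₂ _ m n).trans ?_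
    have h1 : C₂ (ι₁ (j₁ (y j))) ≤ C := by linarith [hCj j, hC₁0 (ι₁ (j₁ (y j)))]
    have h2 : K₂ ^ (m + n) ≤ K ^ (m + n) := pow_le_pow_left₀ hK₂.le (le_max_right _ _) _
    exact mul_le_mul h1 h2 (by positivity) ((hC₂0 _).trans h1)
  -- outer flows
  obtain ⟨ρ₁, hρ₁, H₁⟩ := outer d e ι₁ e₁ hι₁ cd₁ p
  obtain ⟨ρ₂, hρ₂, H₂⟩ := outer e d ι₂ d₂ hι₂ cd₂ p
  -- agreement
  set J : R →ₐ[ℂ] S := ι₁.comp j₁ with hJ
  obtain ⟨ε, hε, Hag⟩ := agree y G hG (p.comp J) hP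
  -- near
  have hn₁ : ∀ r : R, ∃ ρ : ℝ, 0 < ρ ∧ ∀ s z : ℂ, ‖s‖ < ρ → ‖z‖ < ρ →
      ‖ps2 (co2 d e p (J r)) s z - p (J r)‖ < ε := fun r => near2 d e p (J r) hε
  have hn₂ : ∀ r : R, ∃ ρ : ℝ, 0 < ρ ∧ ∀ s z : ℂ, ‖s‖ < ρ → ‖z‖ < ρ →
      ‖ps2 (co2 e d p (J r)) s z - p (J r)‖ < ε := fun r => near2 e d p (J r) hε
  choose r₁ hr₁ hr₁' using hn₁
  choose r₂ hr₂ hr₂' using hn₂
  -- the common radius
  obtain ⟨δ, hδ, hδ₁, hδ₂, hδG, hδy⟩ : ∃ δ : ℝ, 0 < δ ∧ δ < ρ₁ ∧ δ < ρ₂ ∧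
      (∀ g ∈ G, δ < r₁ g ∧ δ < r₂ g) ∧ (∀ j, δ < r₁ (y j)) := by
    have h1 : ∀ᶠ δ in 𝓝[>] (0 : ℝ), δ < ρ₁ := by
      filter_upwards [Ioo_mem_nhdsGT hρ₁] with x hx using hx.2
    have h2 : ∀ᶠ δ in 𝓝[>] (0 : ℝ), δ < ρ₂ := by
      filter_upwards [Ioo_mem_nhdsGT hρ₂] with x hx using hx.2
    have h3 : ∀ᶠ δ in 𝓝[>] (0 : ℝ), ∀ g ∈ G, δ < r₁ g ∧ δ < r₂ g := by
      rw [Filter.eventually_all_finset]
      intro g _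
      filter_upwards [Ioo_mem_nhdsGT (hr₁ g), Ioo_mem_nhdsGT (hr₂ g)] with x hx hx'
        using ⟨hx.2, hx'.2⟩
    have h4 : ∀ᶠ δ in 𝓝[>] (0 : ℝ), ∀ j, δ < r₁ (y j) := by
      rw [Filter.eventually_all]
      intro j
      filter_upwards [Ioo_mem_nhdsGT (hr₁ (y j))] with x hx using hx.2
    have h0 : ∀ᶠ δ in 𝓝[>] (0 : ℝ), 0 < δ := self_mem_nhdsWithin
    obtain ⟨x, hx⟩ := (h0.and (h1.and (h2.and (h3.and h4)))).exists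
    exact ⟨x, hx.1, hx.2.1, hx.2.2.1, hx.2.2.2.1, hx.2.2.2.2⟩
  -- the node
  have hdet' : co2 d e p (ι₁ (j₁ (y 0))) 1 0 * co2 d e p (ι₁ (j₁ (y 1))) 0 1 ≠
      co2 d e p (ι₁ (j₁ (y 0))) 0 1 * co2 d e p (ι₁ (j₁ (y 1))) 1 0 := by
    intro h
    apply hdet
    simp only [co2, Function.iterate_one, Function.iterate_zero, id, Nat.factorial_one,
      Nat.factorial_zero, Nat.cast_one, mul_one, div_one] at h
    rw [map_sub, map_mul, map_mul, h]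
    ring
  obtain ⟨ε', s, z, s', z', hε', hs, hs', hzb, hzb', hmid, hT⟩ :=
    nodeW (fun j => co2 d e p (ι₁ (j₁ (y j)))) (fun j => co2 e d p (ι₁ (j₁ (y j)))) hK ha hb
      (fun j => by simp [co2]) (fun j => by simp [co2]) (fun j => by simp [co2]) hdet' hδ
  have h0p : (0 : ℂ) ∈ Up := by
    simp only [Up, Set.mem_ofPred_eq, Complex.zero_re]
    linarith [Real.log_pos one_lt_two]
  have h0m : (0 : ℂ) ∈ Um := by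
    simp only [Um, Set.mem_ofPred_eq, Complex.zero_re]
    exact Real.log_pos one_lt_two
  obtain ⟨γ₁, B₁, hγ₁, hf₁⟩ := H₁ Up isOpen_Up convex_Up s z (fun w hw => (hs w hw).1)
    (fun w hw => (hs w hw).2.1) (fun w hw => (hs w hw).2.2.trans_lt hδ₁) hzb
    ⟨0, h0p, (hmid 0 h0p h0m).1.trans_lt hδ₁⟩
  obtain ⟨γ₂, B₂, hγ₂, hf₂⟩ := H₂ Um isOpen_Um convex_Um s' z' (fun w hw => (hs' w hw).1)
    (fun w hw => (hs' w hw).2.1) (fun w hw => (hs' w hw).2.2.trans_lt hδ₂) hzb'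
    ⟨0, h0m, (hmid 0 h0p h0m).2.1.trans_lt hδ₂⟩
  -- agreement on the strip
  have hagree : ∀ w ∈ Up, w ∈ Um → w ∉ B₁ ∧ w ∉ B₂ ∧ (γ₁ w).comp j₁ = (γ₂ w).comp j₂ := by
    intro w hw hw'
    obtain ⟨hz, hz', heq⟩ := hmid w hw hw'
    obtain ⟨h1, h2⟩ := hf₁ w hw (hz.trans_lt hδ₁)
    obtain ⟨h3, h4⟩ := hf₂ w hw' (hz'.trans_lt hδ₂)
    refine ⟨h1, h3, ?_⟩
    have e1 : ∀ r : R, (γ₁ w).comp j₁ r = ps2 (co2 d e p (J r)) (s w) (z w) := fun r => h2 (j₁ r)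
    have e2 : ∀ r : R, (γ₂ w).comp j₂ r = ps2 (co2 e d p (J r)) (s' w) (z' w) := fun r => by
      have h5 : ι₂ (j₂ r) = J r := (hj r).symm
      rw [AlgHom.comp_apply, h4 (j₂ r), h5]
    refine Hag _ _ ?_ ?_ ?_
    · intro j
      rw [e1]
      exact hr₁' (y j) _ _ ((hs w hw).2.2.trans_lt (hδy j)) (hz.trans_lt (hδy j))
    · intro g hg
      rw [e1, e2]
      exact ⟨hr₁' g _ _ ((hs w hw).2.2.trans_lt (hδG g hg).1) (hz.trans_lt (hδG g hg).1),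
        hr₂' g _ _ ((hs' w hw').2.2.trans_lt (hδG g hg).2) (hz'.trans_lt (hδG g hg).2)⟩
    · intro j
      rw [e1, e2]
      exact heq j
  obtain ⟨γ, E, hγ, hγU, -⟩ := glue2 isOpen_Up isOpen_Um Up_union_Um (isCurve_comp hγ₁ j₁)
    (isCurve_comp hγ₂ j₂) hagree
  refine ⟨γ, E, hγ, fun f hf => ?_⟩
  by_contra hf0
  obtain ⟨c, g, hc, hcg⟩ := hrel f hf0
  refine norel d e p (fun j => ι₁ (j₁ (y j))) hdet c hc (ι₁ (j₁ f)) g hcg ?_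
  refine dens (co2 d e p (ι₁ (j₁ f))) hK₁ (hC₁ (ι₁ (j₁ f))) (lt_min hε' hρ₁) ?_
  intro T hT'
  obtain ⟨ω, hω, hω0, hωs, hωz⟩ := hT T (hT'.trans_le (min_le_left _ _))
  have hev : ∀ᶠ k in atTop, ‖z (ω k)‖ < ρ₁ :=
    hωz.norm.eventually_lt_const (hT'.trans_le (min_le_right _ _))
  obtain ⟨n₀, hn₀⟩ := Filter.eventually_atTop.1 hev
  refine ⟨fun k => s (ω (k + n₀)), fun k => z (ω (k + n₀)), fun k => hω0 _,
    hωs.comp (tendsto_add_atTop_nat n₀), hωz.comp (tendsto_add_atTop_nat n₀), fun k => ?_⟩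
  obtain ⟨h1, h2⟩ := hf₁ (ω (k + n₀)) (hω _) (hn₀ _ (Nat.le_add_left _ _))
  obtain ⟨h3, h4⟩ := hγU (ω (k + n₀)) (hω _) h1
  have h5 := hf _ h3
  rw [h4] at h5
  rw [← h2 (j₁ f)]
  exact h5

end Pool.Agent.K3
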