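import Pool.Agent.Lib_MP_1209e6_k3.NodePs

/-!
# The fixed point for the smoothing of a node

`MP_1209e6_ag`, piece P5 (helper73).
-/

set_option autoImplicit false

open Filter Topology

namespace Pool.Agent.K3.NodeP

variable {A : Type*} [NormedCommRing A] [NormedAlgebra ℂ A] [CompleteSpace A] [NormOneClass A]

theorem node_fix (P Q : A →L[ℂ] A) (hPQ : ∀ x, P x + Q x = x) (hP : ∀ x, ‖P x‖ ≤ ‖x‖)
    (hQ : ∀ x, ‖Q x‖ ≤ ‖x‖) (S Z : A) {c₀ : ℝ} (hc₀ : 1 ≤ c₀) (hS : ‖S‖ ≤ c₀) (hZ : ‖Z‖ ≤ c₀)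
    (a b : Fin 2 → ℕ → ℕ → ℂ) {K C : ℝ} (hK : 0 < K)
    (ha : ∀ j p q, ‖a j p q‖ ≤ C * K ^ (p + q)) (hb : ∀ j p q, ‖b j p q‖ ≤ C * K ^ (p + q))
    (h0 : ∀ j, a j 0 0 = b j 0 0) (h1 : ∀ j, a j 1 0 = b j 0 1) (h2 : ∀ j, a j 0 1 = b j 1 0)
    (hdet : a 0 1 0 * a 1 0 1 ≠ a 0 0 1 * a 1 1 0) {δ : ℝ} (hδ : 0 < δ) :
    ∃ (η : ℝ) (u v : A), 0 < η ∧ (c₀ + 1) * η ≤ δ ∧ K * ((c₀ + 1) * η) ≤ 1 / 4 ∧ ‖u‖ ≤ η ∧
      ‖v‖ ≤ η ∧ ∀ j, psA (a j) ((η : ℂ) • S + P u) ((η : ℂ) • Z + P v) =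
        psA (b j) ((η : ℂ) • Z - Q v) ((η : ℂ) • S - Q u) := by
  classical
  have hC : 0 ≤ C := by
    have h := (norm_nonneg _).trans (ha 0 0 0)
    simpa using h
  set Δ : ℂ := a 0 1 0 * a 1 0 1 - a 0 0 1 * a 1 1 0 with hΔ
  have hΔ0 : Δ ≠ 0 := sub_ne_zero.2 hdet
  set N : ℝ := ‖Δ⁻¹‖ * (‖a 0 1 0‖ + ‖a 1 1 0‖ + ‖a 0 0 1‖ + ‖a 1 0 1‖) with hN
  have hN0 : 0 ≤ N := by positivity
  set L : ℝ := 64 * C * K ^ 2 with hL
  have hL0 : 0 ≤ L := by positivity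
  set B : ℝ := 8 * N * L * c₀ * (c₀ + 1) + 4 * K * (c₀ + 1) + (c₀ + 1) / δ + 1 with hB
  have hc0 : 0 ≤ c₀ := by linarith
  have t1 : 0 ≤ 8 * N * L * c₀ * (c₀ + 1) := by positivity
  have t2 : 0 ≤ 4 * K * (c₀ + 1) := by positivity
  have t3 : 0 ≤ (c₀ + 1) / δ := by positivity
  have hB0 : 0 < B := by linarith
  set η : ℝ := 1 / B with hη
  have hη0 : 0 < η := by positivity
  have hηB : η * B = 1 := by rw [hη]; field_simp
  have c1 : 8 * N * L * c₀ * (c₀ + 1) * η ≤ 1 := by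
    calc 8 * N * L * c₀ * (c₀ + 1) * η ≤ B * η := mul_le_mul_of_nonneg_right (by linarith) hη0.le
      _ = 1 := by rw [mul_comm]; exact hηB
  have c2 : 4 * K * (c₀ + 1) * η ≤ 1 := by
    calc 4 * K * (c₀ + 1) * η ≤ B * η := mul_le_mul_of_nonneg_right (by linarith) hη0.le
      _ = 1 := by rw [mul_comm]; exact hηB
  have c3 : (c₀ + 1) / δ * η ≤ 1 := by
    calc (c₀ + 1) / δ * η ≤ B * η := mul_le_mul_of_nonneg_right (by linarith) hη0.le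
      _ = 1 := by rw [mul_comm]; exact hηB
  have c3' : (c₀ + 1) * η ≤ δ := by
    have : (c₀ + 1) / δ * η * δ ≤ 1 * δ := mul_le_mul_of_nonneg_right c3 hδ.le
    have e : (c₀ + 1) / δ * η * δ = (c₀ + 1) * η := by field_simp
    linarith
  set ε : ℝ := (c₀ + 1) * η with hε
  have hε0 : 0 ≤ ε := by positivity
  have hKε : K * ε ≤ 1 / 4 := by rw [hε]; nlinarith
  have hηn : ‖(η : ℂ)‖ = η := by rw [Complex.norm_real, Real.norm_of_nonneg hη0.le]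
  have nS : ‖(η : ℂ) • S‖ ≤ c₀ * η := by
    rw [norm_smul, hηn, mul_comm]; exact mul_le_mul_of_nonneg_right hS hη0.le
  have nZ : ‖(η : ℂ) • Z‖ ≤ c₀ * η := by
    rw [norm_smul, hηn, mul_comm]; exact mul_le_mul_of_nonneg_right hZ hη0.le
  have bP : ∀ (T : A), ‖T‖ ≤ c₀ * η → ∀ u : A, ‖u‖ ≤ η → ‖T + P u‖ ≤ ε := by
    intro T hT u hu
    have := norm_add_le T (P u)
    have := hP u
    rw [hε]; linarith
  have bQ : ∀ (T : A), ‖T‖ ≤ c₀ * η → ∀ u : A, ‖u‖ ≤ η → ‖T - Q u‖ ≤ ε := by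
    intro T hT u hu
    have := norm_sub_le T (Q u)
    have := hQ u
    rw [hε]; linarith
  -- the right hand sides
  let R : Fin 2 → A × A → A := fun j w =>
    psA (tail (b j)) ((η : ℂ) • Z - Q w.2) ((η : ℂ) • S - Q w.1) -
      psA (tail (a j)) ((η : ℂ) • S + P w.1) ((η : ℂ) • Z + P w.2)
  have hR : ∀ j w, R j w = psA (tail (b j)) ((η : ℂ) • Z - Q w.2) ((η : ℂ) • S - Q w.1) -
      psA (tail (a j)) ((η : ℂ) • S + P w.1) ((η : ℂ) • Z + P w.2) := fun _ _ => rfl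
  have fst_le : ∀ w : A × A, ‖w.1‖ ≤ ‖w‖ := fun w => norm_fst_le w
  have snd_le : ∀ w : A × A, ‖w.2‖ ≤ ‖w‖ := fun w => norm_snd_le w
  have hRlip : ∀ j (w w' : A × A), ‖w‖ ≤ η → ‖w'‖ ≤ η → ‖R j w - R j w'‖ ≤ 4 * L * ε * ‖w - w'‖ := by
    intro j w w' hw hw'
    have k1 := tail_lipschitz hK (hb j) hKε (bQ _ nZ w.2 ((snd_le w).trans hw))
      (bQ _ nS w.1 ((fst_le w).trans hw)) (bQ _ nZ w'.2 ((snd_le w').trans hw'))
      (bQ _ nS w'.1 ((fst_le w').trans hw'))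
    have k2 := tail_lipschitz hK (ha j) hKε (bP _ nS w.1 ((fst_le w).trans hw))
      (bP _ nZ w.2 ((snd_le w).trans hw)) (bP _ nS w'.1 ((fst_le w').trans hw'))
      (bP _ nZ w'.2 ((snd_le w').trans hw'))
    have q1 : ∀ (T x y : A), (T - Q x) - (T - Q y) = - Q (x - y) := fun T x y => by
      rw [map_sub]; abel
    have q2 : ∀ (T x y : A), (T + P x) - (T + P y) = P (x - y) := fun T x y => by
      rw [map_sub]; abel
    rw [q1, q1, norm_neg, norm_neg] at k1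
    rw [q2, q2] at k2
    have d1 : ‖w.1 - w'.1‖ ≤ ‖w - w'‖ := fst_le (w - w')
    have d2 : ‖w.2 - w'.2‖ ≤ ‖w - w'‖ := snd_le (w - w')
    have k1' : L * ε * (‖Q (w.2 - w'.2)‖ + ‖Q (w.1 - w'.1)‖) ≤ L * ε * (2 * ‖w - w'‖) := by
      refine mul_le_mul_of_nonneg_left ?_ (by positivity)
      have := hQ (w.2 - w'.2); have := hQ (w.1 - w'.1)
      linarith
    have k2' : L * ε * (‖P (w.1 - w'.1)‖ + ‖P (w.2 - w'.2)‖) ≤ L * ε * (2 * ‖w - w'‖) := by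
      refine mul_le_mul_of_nonneg_left ?_ (by positivity)
      have := hP (w.2 - w'.2); have := hP (w.1 - w'.1)
      linarith
    have e : R j w - R j w' =
        (psA (tail (b j)) ((η : ℂ) • Z - Q w.2) ((η : ℂ) • S - Q w.1) -
          psA (tail (b j)) ((η : ℂ) • Z - Q w'.2) ((η : ℂ) • S - Q w'.1)) -
        (psA (tail (a j)) ((η : ℂ) • S + P w.1) ((η : ℂ) • Z + P w.2) -
          psA (tail (a j)) ((η : ℂ) • S + P w'.1) ((η : ℂ) • Z + P w'.2)) := by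
      rw [hR, hR]; abel
    rw [e]
    refine (norm_sub_le _ _).trans ?_
    linarith [k1, k2, k1', k2']
  have hR0 : ∀ j, ‖R j 0‖ ≤ 4 * L * ε * (c₀ * η) := by
    intro j
    have k1 := tail_lipschitz (A := A) (x := (η : ℂ) • Z) (y := (η : ℂ) • S) (x' := 0) (y' := 0)
      hK (hb j) hKε (by rw [hε]; linarith) (by rw [hε]; linarith) (by simpa using hε0)
      (by simpa using hε0)
    have k2 := tail_lipschitz (A := A) (x := (η : ℂ) • S) (y := (η : ℂ) • Z) (x' := 0) (y' := 0)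
      hK (ha j) hKε (by rw [hε]; linarith) (by rw [hε]; linarith) (by simpa using hε0)
      (by simpa using hε0)
    rw [tail_zero, sub_zero, sub_zero, sub_zero] at k1 k2
    have e : R j 0 = psA (tail (b j)) ((η : ℂ) • Z) ((η : ℂ) • S) -
        psA (tail (a j)) ((η : ℂ) • S) ((η : ℂ) • Z) := by
      rw [hR]; simp
    have k1' : L * ε * (‖(η : ℂ) • Z‖ + ‖(η : ℂ) • S‖) ≤ L * ε * (2 * (c₀ * η)) :=
      mul_le_mul_of_nonneg_left (by linarith) (by positivity)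
    rw [e]
    refine (norm_sub_le _ _).trans ?_
    have k2' : L * ε * (‖(η : ℂ) • S‖ + ‖(η : ℂ) • Z‖) ≤ L * ε * (2 * (c₀ * η)) :=
      mul_le_mul_of_nonneg_left (by linarith) (by positivity)
    linarith [k1, k2, k1', k2']
  -- the map
  let Φ : A × A → A × A := fun w =>
    (Δ⁻¹ • (a 1 0 1 • R 0 w - a 0 0 1 • R 1 w), Δ⁻¹ • (a 0 1 0 • R 1 w - a 1 1 0 • R 0 w))
  have hcomb : ∀ (x y : ℂ) (r s : A) (M : ℝ), ‖r‖ ≤ M → ‖s‖ ≤ M →
      ‖x‖ + ‖y‖ ≤ ‖a 0 1 0‖ + ‖a 1 1 0‖ + ‖a 0 0 1‖ + ‖a 1 0 1‖ →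
      ‖Δ⁻¹ • (x • r - y • s)‖ ≤ N * M := by
    intro x y r s M hr hs hxy
    have hM : 0 ≤ M := (norm_nonneg _).trans hr
    calc ‖Δ⁻¹ • (x • r - y • s)‖ ≤ ‖Δ⁻¹‖ * ‖x • r - y • s‖ := norm_smul_le _ _
      _ ≤ ‖Δ⁻¹‖ * (‖x‖ * M + ‖y‖ * M) := by
          refine mul_le_mul_of_nonneg_left ?_ (norm_nonneg _)
          refine (norm_sub_le _ _).trans (add_le_add ?_ ?_)
          · exact (norm_smul_le _ _).trans (mul_le_mul_of_nonneg_left hr (norm_nonneg _))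
          · exact (norm_smul_le _ _).trans (mul_le_mul_of_nonneg_left hs (norm_nonneg _))
      _ = ‖Δ⁻¹‖ * (‖x‖ + ‖y‖) * M := by ring
      _ ≤ N * M := by rw [hN]; gcongr
  have n1 := norm_nonneg (a 0 1 0)
  have n2 := norm_nonneg (a 1 1 0)
  have n3 := norm_nonneg (a 0 0 1)
  have n4 := norm_nonneg (a 1 0 1)
  have hNLε : N * (4 * L * ε) * c₀ ≤ 1 / 2 := by
    have : N * (4 * L * ε) * c₀ = (8 * N * L * c₀ * (c₀ + 1) * η) / 2 := by rw [hε]; ring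
    rw [this]; linarith
  have hNLε' : N * (4 * L * ε) ≤ 1 / 2 := by
    have : 0 ≤ N * (4 * L * ε) := by positivity
    nlinarith
  have hΦlip : ∀ w w' : A × A, ‖w‖ ≤ η → ‖w'‖ ≤ η → ‖Φ w - Φ w'‖ ≤ 1 / 2 * ‖w - w'‖ := by
    intro w w' hw hw'
    have r0 := hRlip 0 w w' hw hw'
    have r1 := hRlip 1 w w' hw hw'
    have e1 : (Φ w - Φ w').1 = Δ⁻¹ • (a 1 0 1 • (R 0 w - R 0 w') - a 0 0 1 • (R 1 w - R 1 w')) := by
      show Δ⁻¹ • (a 1 0 1 • R 0 w - a 0 0 1 • R 1 w) - Δ⁻¹ • (a 1 0 1 • R 0 w' - a 0 0 1 • R 1 w') = _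
      module
    have e2 : (Φ w - Φ w').2 = Δ⁻¹ • (a 0 1 0 • (R 1 w - R 1 w') - a 1 1 0 • (R 0 w - R 0 w')) := by
      show Δ⁻¹ • (a 0 1 0 • R 1 w - a 1 1 0 • R 0 w) - Δ⁻¹ • (a 0 1 0 • R 1 w' - a 1 1 0 • R 0 w') = _
      module
    have f1 := hcomb (a 1 0 1) (a 0 0 1) _ _ _ r0 r1 (by linarith)
    have f2 := hcomb (a 0 1 0) (a 1 1 0) _ _ _ r1 r0 (by linarith)
    rw [← e1] at f1
    rw [← e2] at f2
    have hfin : N * (4 * L * ε * ‖w - w'‖) ≤ 1 / 2 * ‖w - w'‖ := by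
      rw [← mul_assoc]
      exact mul_le_mul_of_nonneg_right hNLε' (norm_nonneg _)
    rw [Prod.norm_def]
    exact max_le (f1.trans hfin) (f2.trans hfin)
  have hΦ0 : ‖Φ 0‖ ≤ η / 2 := by
    have f1 := hcomb (a 1 0 1) (a 0 0 1) _ _ _ (hR0 0) (hR0 1) (by linarith)
    have f2 := hcomb (a 0 1 0) (a 1 1 0) _ _ _ (hR0 1) (hR0 0) (by linarith)
    have hfin : N * (4 * L * ε * (c₀ * η)) ≤ η / 2 := by
      have : N * (4 * L * ε * (c₀ * η)) = (N * (4 * L * ε) * c₀) * η := by ring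
      rw [this]
      nlinarith
    rw [Prod.norm_def]
    exact max_le (f1.trans hfin) (f2.trans hfin)
  have hmaps : Set.MapsTo Φ (Metric.closedBall 0 η) (Metric.closedBall 0 η) := by
    intro w hw
    rw [mem_closedBall_zero_iff] at hw ⊢
    have h := hΦlip w 0 hw (by simpa using hη0.le)
    rw [sub_zero] at h
    have e : Φ w = (Φ w - Φ 0) + Φ 0 := by abel
    rw [e]
    refine (norm_add_le _ _).trans ?_
    linarith
  have hcomp : IsComplete (Metric.closedBall (0 : A × A) η) := Metric.isClosed_closedBall.isComplete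
  have hcon : ContractingWith (1 / 2 : NNReal) (hmaps.restrict Φ _ _) := by
    refine ⟨by rw [← NNReal.coe_lt_coe]; norm_num, ?_⟩
    refine LipschitzWith.of_dist_le_mul fun u v => ?_
    rw [Subtype.dist_eq, Subtype.dist_eq, dist_eq_norm, dist_eq_norm]
    have := hΦlip u.1 v.1 (mem_closedBall_zero_iff.1 u.2) (mem_closedBall_zero_iff.1 v.2)
    simpa using this
  obtain ⟨w, hw, hfix, -⟩ := hcon.exists_fixedPoint' hcomp hmaps
    (Metric.mem_closedBall_self hη0.le) (edist_ne_top _ _)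
  rw [mem_closedBall_zero_iff] at hw
  have hw1 := (fst_le w).trans hw
  have hw2 := (snd_le w).trans hw
  have hf : Φ w = w := hfix
  refine ⟨η, w.1, w.2, hη0, c3', hKε, hw1, hw2, fun j => ?_⟩
  have hu : w.1 = Δ⁻¹ • (a 1 0 1 • R 0 w - a 0 0 1 • R 1 w) := (congrArg Prod.fst hf).symm
  have hv : w.2 = Δ⁻¹ • (a 0 1 0 • R 1 w - a 1 1 0 • R 0 w) := (congrArg Prod.snd hf).symm
  have half : ∀ {x : A}, ‖x‖ ≤ ε → K * ‖x‖ ≤ 1 / 2 := fun {x} hx => by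
    have : K * ‖x‖ ≤ K * ε := mul_le_mul_of_nonneg_left hx hK.le
    linarith
  rw [psA_split hK (ha j) (half (bP _ nS _ hw1)) (half (bP _ nZ _ hw2)),
    psA_split hK (hb j) (half (bQ _ nZ _ hw2)) (half (bQ _ nS _ hw1)), h0 j, h1 j, h2 j]
  have hRj := hR j w
  have key : a j 1 0 • w.1 + a j 0 1 • w.2 = R j w := by
    have hinv : Δ⁻¹ * Δ = 1 := inv_mul_cancel₀ hΔ0
    have main : ∀ (x y : ℂ), x • w.1 + y • w.2 =
        (Δ⁻¹ * (x * a 1 0 1 - y * a 1 1 0)) • R 0 w + (Δ⁻¹ * (y * a 0 1 0 - x * a 0 0 1)) • R 1 w := by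
      intro x y
      conv_lhs => rw [hu, hv]
      module
    rw [main]
    fin_cases j
    · show (Δ⁻¹ * (a 0 1 0 * a 1 0 1 - a 0 0 1 * a 1 1 0)) • R 0 w +
        (Δ⁻¹ * (a 0 0 1 * a 0 1 0 - a 0 1 0 * a 0 0 1)) • R 1 w = R 0 w
      have e1 : Δ⁻¹ * (a 0 1 0 * a 1 0 1 - a 0 0 1 * a 1 1 0) = 1 := hinv
      have e2 : Δ⁻¹ * (a 0 0 1 * a 0 1 0 - a 0 1 0 * a 0 0 1) = 0 := by ring
      rw [e1, e2, one_smul, zero_smul, add_zero]
    · show (Δ⁻¹ * (a 1 1 0 * a 1 0 1 - a 1 0 1 * a 1 1 0)) • R 0 w +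
        (Δ⁻¹ * (a 1 0 1 * a 0 1 0 - a 1 1 0 * a 0 0 1)) • R 1 w = R 1 w
      have e1 : Δ⁻¹ * (a 1 0 1 * a 0 1 0 - a 1 1 0 * a 0 0 1) = 1 := by
        rw [← hinv, hΔ]; ring
      have e2 : Δ⁻¹ * (a 1 1 0 * a 1 0 1 - a 1 0 1 * a 1 1 0) = 0 := by ring
      rw [e1, e2, one_smul, zero_smul, zero_add]
  rw [h1 j, h2 j] at key
  have e1 : P w.1 = w.1 - Q w.1 := eq_sub_of_add_eq (hPQ w.1)
  have e2 : P w.2 = w.2 - Q w.2 := eq_sub_of_add_eq (hPQ w.2)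
  have key2 : psA (tail (b j)) ((η : ℂ) • Z - Q w.2) ((η : ℂ) • S - Q w.1) =
      b j 0 1 • w.1 + b j 1 0 • w.2 +
        psA (tail (a j)) ((η : ℂ) • S + P w.1) ((η : ℂ) • Z + P w.2) := by
    rw [key, hRj]; abel
  rw [key2]
  generalize psA (tail (a j)) ((η : ℂ) • S + P w.1) ((η : ℂ) • Z + P w.2) = X
  rw [e1, e2]
  module

end Pool.Agent.K3.NodeP
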