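import Pool.Agent.Lib_MP_1209e6_k3.Defs

/-!
# Power series in two variables with values in a commutative Banach algebra

`MP_1209e6_ag`, smoothing of a node, piece P4 (helper73).
-/

set_option autoImplicit false

open Filter Topology

namespace Pool.Agent.K3.NodeP

variable {A : Type*} [NormedCommRing A] [NormedAlgebra ℂ A] [CompleteSpace A] [NormOneClass A]

/-- The sum of the power series with coefficients `c` at the elements `x`, `y`. -/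
noncomputable def psA (c : ℕ → ℕ → ℂ) (x y : A) : A :=
  ∑' p : ℕ × ℕ, c p.1 p.2 • (x ^ p.1 * y ^ p.2)

theorem ps2_eq (c : ℕ → ℕ → ℂ) (x y : ℂ) : ps2 c x y = psA c x y := by
  unfold ps2 psA
  refine tsum_congr fun p => ?_
  rw [smul_eq_mul, mul_assoc]

theorem geom2 : Summable fun p : ℕ × ℕ => (1 / 2 : ℝ) ^ p.1 * (1 / 2 : ℝ) ^ p.2 :=
  Summable.mul_of_nonneg summable_geometric_two summable_geometric_two
    (fun _ => by positivity) (fun _ => by positivity)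

omit [CompleteSpace A] in
theorem norm_term_le {c : ℕ → ℕ → ℂ} {K C : ℝ} (hK : 0 < K)
    (hc : ∀ p q, ‖c p q‖ ≤ C * K ^ (p + q)) {x y : A} (hx : K * ‖x‖ ≤ 1 / 2)
    (hy : K * ‖y‖ ≤ 1 / 2) (p : ℕ × ℕ) :
    ‖c p.1 p.2 • (x ^ p.1 * y ^ p.2)‖ ≤ C * ((1 / 2 : ℝ) ^ p.1 * (1 / 2 : ℝ) ^ p.2) := by
  have hC : 0 ≤ C := by
    have h := (norm_nonneg _).trans (hc 0 0)
    simpa using h
  have h1 : ‖x ^ p.1 * y ^ p.2‖ ≤ ‖x‖ ^ p.1 * ‖y‖ ^ p.2 :=
    (norm_mul_le _ _).trans (mul_le_mul (norm_pow_le _ _) (norm_pow_le _ _) (norm_nonneg _)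
      (by positivity))
  calc ‖c p.1 p.2 • (x ^ p.1 * y ^ p.2)‖ ≤ ‖c p.1 p.2‖ * ‖x ^ p.1 * y ^ p.2‖ := norm_smul_le _ _
    _ ≤ (C * K ^ (p.1 + p.2)) * (‖x‖ ^ p.1 * ‖y‖ ^ p.2) :=
        mul_le_mul (hc _ _) h1 (norm_nonneg _) (by positivity)
    _ = C * ((K * ‖x‖) ^ p.1 * (K * ‖y‖) ^ p.2) := by rw [pow_add, mul_pow, mul_pow]; ring
    _ ≤ C * ((1 / 2 : ℝ) ^ p.1 * (1 / 2 : ℝ) ^ p.2) := by
        refine mul_le_mul_of_nonneg_left ?_ hC
        exact mul_le_mul (pow_le_pow_left₀ (by positivity) hx _)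
          (pow_le_pow_left₀ (by positivity) hy _) (by positivity) (by positivity)

theorem summable_term {c : ℕ → ℕ → ℂ} {K C : ℝ} (hK : 0 < K)
    (hc : ∀ p q, ‖c p q‖ ≤ C * K ^ (p + q)) {x y : A} (hx : K * ‖x‖ ≤ 1 / 2)
    (hy : K * ‖y‖ ≤ 1 / 2) : Summable fun p : ℕ × ℕ => c p.1 p.2 • (x ^ p.1 * y ^ p.2) :=
  Summable.of_norm_bounded (geom2.mul_left C) (norm_term_le hK hc hx hy)

/-- the image of the sum under a continuous homomorphism -/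
theorem map_psA (φ : A →ₐ[ℂ] ℂ) (hφ : Continuous φ) {c : ℕ → ℕ → ℂ} {K C : ℝ} (hK : 0 < K)
    (hc : ∀ p q, ‖c p q‖ ≤ C * K ^ (p + q)) {x y : A} (hx : K * ‖x‖ ≤ 1 / 2)
    (hy : K * ‖y‖ ≤ 1 / 2) : φ (psA c x y) = ps2 c (φ x) (φ y) := by
  have h := (summable_term hK hc hx hy).map_tsum (φ : A →+ ℂ) hφ
  unfold psA ps2
  refine h.trans (tsum_congr fun p => ?_)
  show φ (c p.1 p.2 • (x ^ p.1 * y ^ p.2)) = _
  rw [map_smul, map_mul, map_pow, map_pow, smul_eq_mul, mul_assoc]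

/-! ### the part of order at least two -/

/-- the part of order at least two -/
def tail (c : ℕ → ℕ → ℂ) (p q : ℕ) : ℂ := if 2 ≤ p + q then c p q else 0

theorem tail_bound {c : ℕ → ℕ → ℂ} {K C : ℝ}
    (hc : ∀ p q, ‖c p q‖ ≤ C * K ^ (p + q)) (p q : ℕ) : ‖tail c p q‖ ≤ C * K ^ (p + q) := by
  unfold tail
  split_ifs with h
  · exact hc p q
  · rw [norm_zero]
    exact (norm_nonneg _).trans (hc p q)

theorem psA_split {c : ℕ → ℕ → ℂ} {K C : ℝ} (hK : 0 < K)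
    (hc : ∀ p q, ‖c p q‖ ≤ C * K ^ (p + q)) {x y : A} (hx : K * ‖x‖ ≤ 1 / 2)
    (hy : K * ‖y‖ ≤ 1 / 2) :
    psA c x y = c 0 0 • (1 : A) + c 1 0 • x + c 0 1 • y + psA (tail c) x y := by
  classical
  have h1 := summable_term (A := A) hK hc hx hy
  have h2 := summable_term (A := A) hK (tail_bound hc) hx hy
  have h3 : psA c x y - psA (tail c) x y =
      ∑' p : ℕ × ℕ, (c p.1 p.2 • (x ^ p.1 * y ^ p.2) - tail c p.1 p.2 • (x ^ p.1 * y ^ p.2)) :=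
    (h1.tsum_sub h2).symm
  have h4 : ∑' p : ℕ × ℕ, (c p.1 p.2 • (x ^ p.1 * y ^ p.2) - tail c p.1 p.2 • (x ^ p.1 * y ^ p.2)) =
      ∑ p ∈ ({(0, 0), (1, 0), (0, 1)} : Finset (ℕ × ℕ)),
        (c p.1 p.2 • (x ^ p.1 * y ^ p.2) - tail c p.1 p.2 • (x ^ p.1 * y ^ p.2)) := by
    refine tsum_eq_sum fun p hp => ?_
    have hp2 : 2 ≤ p.1 + p.2 := by
      obtain ⟨a, b⟩ := p
      simp only [Finset.mem_insert, Finset.mem_singleton, Prod.mk.injEq, not_or, not_and] at hp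
      show 2 ≤ a + b
      obtain ⟨e1, e2, e3⟩ := hp
      by_contra hlt
      have : a + b = 0 ∨ a + b = 1 := by omega
      rcases this with h | h
      · exact e1 (by omega) (by omega)
      · rcases Nat.eq_zero_or_pos a with ha | ha
        · exact e3 ha (by omega)
        · exact e2 (by omega) (by omega)
    unfold tail
    rw [if_pos hp2, sub_self]
  rw [h4] at h3
  rw [Finset.sum_insert (by simp), Finset.sum_insert (by simp), Finset.sum_singleton] at h3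
  simp only [tail, pow_zero, pow_one, one_mul, mul_one, add_zero, zero_add] at h3
  norm_num at h3
  rw [sub_eq_iff_eq_add] at h3
  rw [h3]
  abel

omit [NormedAlgebra ℂ A] [CompleteSpace A] in
theorem norm_pow_sub_le {x x' : A} {ε : ℝ} (hx : ‖x‖ ≤ ε) (hx' : ‖x'‖ ≤ ε) (n : ℕ) :
    ‖x ^ n - x' ^ n‖ ≤ n * ε ^ (n - 1) * ‖x - x'‖ := by
  have hε : 0 ≤ ε := (norm_nonneg _).trans hx
  induction n with
  | zero => simp
  | succ n ih =>
    have e : x ^ (n + 1) - x' ^ (n + 1) = x ^ n * (x - x') + (x ^ n - x' ^ n) * x' := by ring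
    have h1 : ‖x ^ n‖ ≤ ε ^ n := (norm_pow_le _ _).trans (pow_le_pow_left₀ (norm_nonneg _) hx n)
    rw [e]
    calc ‖x ^ n * (x - x') + (x ^ n - x' ^ n) * x'‖
        ≤ ‖x ^ n‖ * ‖x - x'‖ + ‖x ^ n - x' ^ n‖ * ‖x'‖ :=
          (norm_add_le _ _).trans (add_le_add (norm_mul_le _ _) (norm_mul_le _ _))
      _ ≤ ε ^ n * ‖x - x'‖ + (n * ε ^ (n - 1) * ‖x - x'‖) * ε := by gcongr
      _ = ((n + 1 : ℕ) : ℝ) * ε ^ (n + 1 - 1) * ‖x - x'‖ := by
          rcases Nat.eq_zero_or_pos n with hn | hn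
          · subst hn; simp
          · have : ε ^ n = ε ^ (n - 1) * ε := by
              rw [← pow_succ]; congr 1; omega
            rw [Nat.add_sub_cancel]
            push_cast
            rw [this]
            ring

omit [NormedAlgebra ℂ A] [CompleteSpace A] in
theorem norm_mon_sub_le {x y x' y' : A} {ε : ℝ} (hx : ‖x‖ ≤ ε) (hy : ‖y‖ ≤ ε) (hx' : ‖x'‖ ≤ ε)
    (hy' : ‖y'‖ ≤ ε) (p q : ℕ) (h2 : 2 ≤ p + q) :
    ‖x ^ p * y ^ q - x' ^ p * y' ^ q‖ ≤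
      ((p + q : ℕ) : ℝ) * ε ^ (p + q - 2) * ε * (‖x - x'‖ + ‖y - y'‖) := by
  have hε : 0 ≤ ε := (norm_nonneg _).trans hx
  have e : x ^ p * y ^ q - x' ^ p * y' ^ q = (x ^ p - x' ^ p) * y ^ q + x' ^ p * (y ^ q - y' ^ q) := by
    ring
  have h1 : ‖y ^ q‖ ≤ ε ^ q := (norm_pow_le _ _).trans (pow_le_pow_left₀ (norm_nonneg _) hy q)
  have h1' : ‖x' ^ p‖ ≤ ε ^ p := (norm_pow_le _ _).trans (pow_le_pow_left₀ (norm_nonneg _) hx' p)
  have e3 : ε ^ (p + q - 2) * ε = ε ^ (p + q - 1) := by rw [← pow_succ]; congr 1; omega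
  have hA : (p : ℝ) * ε ^ (p - 1) * ε ^ q ≤ ((p + q : ℕ) : ℝ) * (ε ^ (p + q - 2) * ε) := by
    rw [e3]
    rcases Nat.eq_zero_or_pos p with hp | hp
    · subst hp
      simp only [Nat.cast_zero, zero_mul]
      positivity
    · have : ε ^ (p - 1) * ε ^ q = ε ^ (p + q - 1) := by rw [← pow_add]; congr 1; omega
      rw [mul_assoc, this]
      gcongr
      exact Nat.le_add_right _ _
  have hB : ε ^ p * ((q : ℝ) * ε ^ (q - 1)) ≤ ((p + q : ℕ) : ℝ) * (ε ^ (p + q - 2) * ε) := by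
    rw [e3]
    rcases Nat.eq_zero_or_pos q with hq | hq
    · subst hq
      simp only [Nat.cast_zero, zero_mul, mul_zero]
      positivity
    · have : ε ^ p * ((q : ℝ) * ε ^ (q - 1)) = (q : ℝ) * ε ^ (p + q - 1) := by
        rw [mul_left_comm, ← pow_add]; congr 2; omega
      rw [this]
      gcongr
      exact Nat.le_add_left _ _
  rw [e]
  calc ‖(x ^ p - x' ^ p) * y ^ q + x' ^ p * (y ^ q - y' ^ q)‖
      ≤ ‖x ^ p - x' ^ p‖ * ‖y ^ q‖ + ‖x' ^ p‖ * ‖y ^ q - y' ^ q‖ :=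
        (norm_add_le _ _).trans (add_le_add (norm_mul_le _ _) (norm_mul_le _ _))
    _ ≤ (p * ε ^ (p - 1) * ‖x - x'‖) * ε ^ q + ε ^ p * (q * ε ^ (q - 1) * ‖y - y'‖) := by
        have a1 := norm_pow_sub_le hx hx' p
        have a2 := norm_pow_sub_le hy hy' q
        gcongr
    _ = (p * ε ^ (p - 1) * ε ^ q) * ‖x - x'‖ + (ε ^ p * (q * ε ^ (q - 1))) * ‖y - y'‖ := by ring
    _ ≤ (((p + q : ℕ) : ℝ) * (ε ^ (p + q - 2) * ε)) * ‖x - x'‖ +
        (((p + q : ℕ) : ℝ) * (ε ^ (p + q - 2) * ε)) * ‖y - y'‖ := by gcongr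
    _ = ((p + q : ℕ) : ℝ) * ε ^ (p + q - 2) * ε * (‖x - x'‖ + ‖y - y'‖) := by ring

/-- **Lipschitz bound** for the part of order at least two. -/
theorem tail_lipschitz {c : ℕ → ℕ → ℂ} {K C : ℝ} (hK : 0 < K)
    (hc : ∀ p q, ‖c p q‖ ≤ C * K ^ (p + q)) {x y x' y' : A} {ε : ℝ} (hε : K * ε ≤ 1 / 4)
    (hx : ‖x‖ ≤ ε) (hy : ‖y‖ ≤ ε) (hx' : ‖x'‖ ≤ ε) (hy' : ‖y'‖ ≤ ε) :
    ‖psA (tail c) x y - psA (tail c) x' y'‖ ≤
      (64 * C * K ^ 2) * ε * (‖x - x'‖ + ‖y - y'‖) := by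
  have hε0 : 0 ≤ ε := (norm_nonneg _).trans hx
  have hC : 0 ≤ C := by
    have h := (norm_nonneg _).trans (hc 0 0)
    simpa using h
  have hK' : ∀ {u : A}, ‖u‖ ≤ ε → K * ‖u‖ ≤ 1 / 2 := fun {u} hu => by
    have : K * ‖u‖ ≤ K * ε := mul_le_mul_of_nonneg_left hu hK.le
    linarith
  have h1 := summable_term (A := A) hK (tail_bound hc) (hK' hx) (hK' hy)
  have h2 := summable_term (A := A) hK (tail_bound hc) (hK' hx') (hK' hy')
  have h3 : psA (tail c) x y - psA (tail c) x' y' =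
      ∑' p : ℕ × ℕ, (tail c p.1 p.2 • (x ^ p.1 * y ^ p.2) -
        tail c p.1 p.2 • (x' ^ p.1 * y' ^ p.2)) := (h1.tsum_sub h2).symm
  set D : ℝ := ‖x - x'‖ + ‖y - y'‖ with hD
  have hD0 : 0 ≤ D := by positivity
  have hterm : ∀ p : ℕ × ℕ, ‖tail c p.1 p.2 • (x ^ p.1 * y ^ p.2) -
      tail c p.1 p.2 • (x' ^ p.1 * y' ^ p.2)‖ ≤
      (16 * C * K ^ 2 * ε * D) * ((1 / 2 : ℝ) ^ p.1 * (1 / 2 : ℝ) ^ p.2) := by
    rintro ⟨p, q⟩
    show ‖tail c p q • (x ^ p * y ^ q) - tail c p q • (x' ^ p * y' ^ q)‖ ≤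
      (16 * C * K ^ 2 * ε * D) * ((1 / 2 : ℝ) ^ p * (1 / 2 : ℝ) ^ q)
    rw [← smul_sub]
    by_cases h : 2 ≤ p + q
    · have e1 : ‖tail c p q‖ ≤ C * K ^ (p + q) := tail_bound hc p q
      have e2 := norm_mon_sub_le hx hy hx' hy' p q h
      have e3 : (K * ε) ^ (p + q - 2) ≤ (1 / 4 : ℝ) ^ (p + q - 2) :=
        pow_le_pow_left₀ (by positivity) hε _
      have e4 : ((p + q : ℕ) : ℝ) ≤ 2 ^ (p + q) := by
        exact_mod_cast (Nat.lt_two_pow_self).le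
      have e5 : K ^ (p + q) = K ^ 2 * K ^ (p + q - 2) := by rw [← pow_add]; congr 1; omega
      have e6 : (1 / 4 : ℝ) ^ (p + q - 2) = 16 * (1 / 4 : ℝ) ^ (p + q) := by
        obtain ⟨m, hm⟩ : ∃ m, p + q = m + 2 := ⟨p + q - 2, by omega⟩
        rw [hm, Nat.add_sub_cancel, pow_add]
        norm_num
        ring
      have e7 : (2 : ℝ) ^ (p + q) * (1 / 4 : ℝ) ^ (p + q) = (1 / 2 : ℝ) ^ p * (1 / 2 : ℝ) ^ q := by
        rw [← mul_pow, ← pow_add]; norm_num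
      calc ‖tail c p q • (x ^ p * y ^ q - x' ^ p * y' ^ q)‖
          ≤ ‖tail c p q‖ * ‖x ^ p * y ^ q - x' ^ p * y' ^ q‖ := norm_smul_le _ _
        _ ≤ (C * K ^ (p + q)) * (((p + q : ℕ) : ℝ) * ε ^ (p + q - 2) * ε * D) :=
            mul_le_mul e1 e2 (norm_nonneg _) (by positivity)
        _ = (C * K ^ 2 * ε * D) * (((p + q : ℕ) : ℝ) * (K * ε) ^ (p + q - 2)) := by
            rw [e5, mul_pow]; ring
        _ ≤ (C * K ^ 2 * ε * D) * (2 ^ (p + q) * (1 / 4 : ℝ) ^ (p + q - 2)) := by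
            refine mul_le_mul_of_nonneg_left ?_ (by positivity)
            exact mul_le_mul e4 e3 (by positivity) (by positivity)
        _ = (16 * C * K ^ 2 * ε * D) * (2 ^ (p + q) * (1 / 4 : ℝ) ^ (p + q)) := by
            rw [e6]; ring
        _ = (16 * C * K ^ 2 * ε * D) * ((1 / 2 : ℝ) ^ p * (1 / 2 : ℝ) ^ q) := by rw [e7]
    · unfold tail
      rw [if_neg h, zero_smul, norm_zero]
      positivity
  have hg : ∑' p : ℕ × ℕ, (1 / 2 : ℝ) ^ p.1 * (1 / 2 : ℝ) ^ p.2 = 4 := by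
    have hs : Summable fun n : ℕ => ‖(1 / 2 : ℝ) ^ n‖ := by
      simpa using summable_geometric_two
    have := tsum_mul_tsum_of_summable_norm hs hs
    rw [← this, tsum_geometric_two]
    norm_num
  rw [h3]
  calc ‖∑' p : ℕ × ℕ, (tail c p.1 p.2 • (x ^ p.1 * y ^ p.2) -
        tail c p.1 p.2 • (x' ^ p.1 * y' ^ p.2))‖
      ≤ ∑' p : ℕ × ℕ, (16 * C * K ^ 2 * ε * D) * ((1 / 2 : ℝ) ^ p.1 * (1 / 2 : ℝ) ^ p.2) :=
        tsum_of_norm_bounded (geom2.mul_left _).hasSum hterm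
    _ = (64 * C * K ^ 2) * ε * D := by rw [tsum_mul_left, hg]; ring

omit [CompleteSpace A] [NormOneClass A] in
theorem tail_zero (c : ℕ → ℕ → ℂ) : psA (tail c) (0 : A) 0 = 0 := by
  unfold psA
  have : ∀ p : ℕ × ℕ, tail c p.1 p.2 • ((0 : A) ^ p.1 * 0 ^ p.2) = 0 := by
    rintro ⟨p, q⟩
    show tail c p q • ((0 : A) ^ p * 0 ^ q) = 0
    unfold tail
    split_ifs with h
    · rcases Nat.eq_zero_or_pos p with hp | hp
      · rw [zero_pow (show q ≠ 0 by omega), mul_zero, smul_zero]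
      · rw [zero_pow (show p ≠ 0 by omega), zero_mul, smul_zero]
    · rw [zero_smul]
  simp only [this, tsum_zero]

end Pool.Agent.K3.NodeP
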