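import Pool.Agent.Lib_MP_1209e6_k3.Node

/-! PIECE NODEW: the node functions in the plane of the logarithm. -/

set_option autoImplicit false

open Filter Topology Pool.Agent.CampanaFlow

namespace Pool.Agent.K3

theorem nw_up {w : ℂ} (hw : w ∈ Up) : 1 / 2 < ‖Complex.exp w‖ := by
  rw [Complex.norm_exp]
  have h1 : -Real.log 2 < w.re := hw
  have h2 : Real.exp (-Real.log 2) = 1 / 2 := by
    rw [Real.exp_neg, Real.exp_log (by norm_num)]; norm_num
  rw [← h2]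
  exact Real.exp_lt_exp.2 h1

theorem nw_um {w : ℂ} (hw : w ∈ Um) : ‖Complex.exp w‖ < 2 := by
  rw [Complex.norm_exp]
  have h1 : w.re < Real.log 2 := hw
  have h2 : Real.exp (Real.log 2) = 2 := Real.exp_log (by norm_num)
  calc Real.exp w.re < Real.exp (Real.log 2) := Real.exp_lt_exp.2 h1
    _ = 2 := h2

theorem nw_norm_le {w : ℂ} {R : ℝ} (hw : ‖w‖ < R) : ‖Complex.exp w‖ ≤ Real.exp R := by
  rw [Complex.norm_exp]
  exact Real.exp_le_exp.2 ((Complex.re_le_norm w).trans hw.le)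

theorem nw_le_norm {w : ℂ} {R : ℝ} (hw : ‖w‖ < R) : Real.exp (-R) ≤ ‖Complex.exp w‖ := by
  rw [Complex.norm_exp]
  refine Real.exp_le_exp.2 ?_
  have h1 := (abs_le.1 (Complex.abs_re_le_norm w)).1
  linarith

theorem nw_compact (a b : ℝ) : IsCompact {ζ : ℂ | a ≤ ‖ζ‖ ∧ ‖ζ‖ ≤ b} := by
  refine Metric.isCompact_of_isClosed_isBounded ?_ ?_
  · exact (isClosed_le continuous_const continuous_norm).inter
      (isClosed_le continuous_norm continuous_const)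
  · refine (Metric.isBounded_closedBall (x := (0 : ℂ)) (r := b)).subset fun ζ hζ => ?_
    rw [mem_closedBall_zero_iff]
    exact hζ.2

theorem nw_bound {f : ℂ → ℂ} {a b : ℝ} (h : ∀ ζ : ℂ, a ≤ ‖ζ‖ → ‖ζ‖ ≤ b → AnalyticAt ℂ f ζ) :
    ∃ C : ℝ, ∀ ζ : ℂ, a ≤ ‖ζ‖ → ‖ζ‖ ≤ b → ‖f ζ‖ ≤ C := by
  obtain ⟨C, hC⟩ := (nw_compact a b).exists_bound_of_continuousOn (f := f)
    (fun ζ hζ => (h ζ hζ.1 hζ.2).continuousAt.continuousWithinAt)
  exact ⟨C, fun ζ h1 h2 => hC ζ ⟨h1, h2⟩⟩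

/-- the points `log (1 + T / η) + 2 π i k` -/
noncomputable def nwz (η T : ℂ) (k : ℕ) : ℂ :=
  Complex.log (1 + T / η) + k * (2 * Real.pi * Complex.I)

theorem nwz_exp {η T : ℂ} (hη : η ≠ 0) (hT : ‖T‖ < ‖η‖) (k : ℕ) :
    η * (Complex.exp (nwz η T k) - 1) = T := by
  have h1 : 1 + T / η ≠ 0 := by
    intro h
    have h2 : T / η = -1 := by linear_combination h
    have h3 : ‖T / η‖ = 1 := by rw [h2, norm_neg, norm_one]
    rw [norm_div, div_eq_one_iff_eq (norm_ne_zero_iff.2 hη)] at h3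
    exact hT.ne h3
  unfold nwz
  rw [Complex.exp_add, Complex.exp_log h1, Complex.exp_nat_mul_two_pi_mul_I]
  field_simp
  ring

theorem nwz_tendsto (η T : ℂ) : Tendsto (nwz η T) atTop (Bornology.cobounded ℂ) := by
  rw [← tendsto_norm_atTop_iff_cobounded]
  have h1 : Tendsto (fun k : ℕ => (k : ℝ) * (2 * Real.pi) - ‖Complex.log (1 + T / η)‖) atTop
      atTop := by
    refine tendsto_atTop_add_const_right _ _ ?_
    exact tendsto_natCast_atTop_atTop.atTop_mul_const (by positivity)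
  refine tendsto_atTop_mono (fun k => ?_) h1
  unfold nwz
  have h2 : ‖(k : ℂ) * (2 * Real.pi * Complex.I)‖ = k * (2 * Real.pi) := by
    rw [norm_mul, norm_mul, norm_mul, Complex.norm_natCast, Complex.norm_I, mul_one,
      Complex.norm_real, Real.norm_of_nonneg Real.pi_pos.le]
    norm_num
  have h3 := norm_sub_norm_le ((k : ℂ) * (2 * Real.pi * Complex.I)) (-Complex.log (1 + T / η))
  rw [h2, norm_neg, sub_neg_eq_add, add_comm ((k : ℂ) * _)] at h3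
  exact h3

/-- Compose the functions of `node` with `exp`. Boundedness of `z (exp w)` for `‖w‖ < R`: on
`1/2 < ‖ζ‖ < 2` it is `≤ δ`, on the compact set `2 ≤ ‖ζ‖ ≤ exp R` use continuity. Sequences:
`ε = ‖η‖`, `ζ_k = log (1 + T/η) + 2 π i k`, `ω_k = log ζ_k` for large `k`. -/
theorem nodeW (a b : Fin 2 → ℕ → ℕ → ℂ) {K C : ℝ} (hK : 0 < K)
    (ha : ∀ j p q, ‖a j p q‖ ≤ C * K ^ (p + q)) (hb : ∀ j p q, ‖b j p q‖ ≤ C * K ^ (p + q))
    (h0 : ∀ j, a j 0 0 = b j 0 0) (h1 : ∀ j, a j 1 0 = b j 0 1) (h2 : ∀ j, a j 0 1 = b j 1 0)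
    (hdet : a 0 1 0 * a 1 0 1 ≠ a 0 0 1 * a 1 1 0) {δ : ℝ} (hδ : 0 < δ) :
    ∃ (ε : ℝ) (s z s' z' : ℂ → ℂ), 0 < ε ∧
      (∀ w ∈ Up, AnalyticAt ℂ s w ∧ AnalyticAt ℂ z w ∧ ‖s w‖ ≤ δ) ∧
      (∀ w ∈ Um, AnalyticAt ℂ s' w ∧ AnalyticAt ℂ z' w ∧ ‖s' w‖ ≤ δ) ∧
      (∀ R : ℝ, ∃ C : ℝ, ∀ w ∈ Up, ‖w‖ < R → ‖z w‖ ≤ C) ∧
      (∀ R : ℝ, ∃ C : ℝ, ∀ w ∈ Um, ‖w‖ < R → ‖z' w‖ ≤ C) ∧
      (∀ w ∈ Up, w ∈ Um → ‖z w‖ ≤ δ ∧ ‖z' w‖ ≤ δ ∧
        ∀ j, ps2 (a j) (s w) (z w) = ps2 (b j) (s' w) (z' w)) ∧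
      ∀ T : ℂ, ‖T‖ < ε → ∃ ω : ℕ → ℂ, (∀ k, ω k ∈ Up) ∧ (∀ k, s (ω k) ≠ 0) ∧
        Tendsto (fun k => s (ω k)) atTop (𝓝 0) ∧ Tendsto (fun k => z (ω k)) atTop (𝓝 T) := by
  obtain ⟨η, σ, s, z, s', z', hη, hσ, hout, hin, hmid, hs, hz⟩ :=
    node a b hK ha hb h0 h1 h2 hdet hδ
  refine ⟨‖η‖, s ∘ Complex.exp, z ∘ Complex.exp, s' ∘ Complex.exp, z' ∘ Complex.exp,
    norm_pos_iff.2 hη, ?_, ?_, ?_, ?_, ?_, ?_⟩
  · intro w hw
    obtain ⟨e1, e2, e3⟩ := hout _ (nw_up hw)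
    exact ⟨e1.comp analyticAt_cexp, e2.comp analyticAt_cexp, e3⟩
  · intro w hw
    obtain ⟨e1, e2, e3⟩ := hin _ (Complex.exp_ne_zero w) (nw_um hw)
    exact ⟨e1.comp analyticAt_cexp, e2.comp analyticAt_cexp, e3⟩
  · intro R
    obtain ⟨C0, hC0⟩ := nw_bound (f := z) (a := 2) (b := Real.exp R)
      (fun ζ h3 _ => (hout ζ (by linarith)).2.1)
    refine ⟨max δ C0, fun w hw hR => ?_⟩
    rcases lt_or_ge ‖Complex.exp w‖ 2 with h3 | h3
    · exact (hmid _ (nw_up hw) h3).1.trans (le_max_left _ _)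
    · exact (hC0 _ h3 (nw_norm_le hR)).trans (le_max_right _ _)
  · intro R
    obtain ⟨C0, hC0⟩ := nw_bound (f := z') (a := Real.exp (-R)) (b := 1 / 2)
      (fun ζ h3 h4 => (hin ζ (by
        rintro rfl
        rw [norm_zero] at h3
        exact absurd h3 (not_le.2 (Real.exp_pos _))) (by linarith)).2.1)
    refine ⟨max δ C0, fun w hw hR => ?_⟩
    rcases lt_or_ge (1 / 2) ‖Complex.exp w‖ with h3 | h3
    · exact (hmid _ h3 (nw_um hw)).2.1.trans (le_max_left _ _)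
    · exact (hC0 _ (nw_le_norm hR) h3).trans (le_max_right _ _)
  · intro w hw hw'
    exact hmid _ (nw_up hw) (nw_um hw')
  · intro T hT
    have hζ := nwz_tendsto η T
    -- eventual facts
    have e1 : ∀ᶠ k in atTop, 1 / 2 < ‖nwz η T k‖ :=
      (tendsto_norm_cobounded_atTop.comp hζ).eventually_gt_atTop (1 / 2)
    have e2 : ∀ᶠ k in atTop, nwz η T k * s (nwz η T k) ≠ 0 :=
      (hs.comp hζ).eventually_ne hσ
    obtain ⟨k0, hk0⟩ := eventually_atTop.1 (e1.and e2)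
    have hne : ∀ k, nwz η T (k + k0) ≠ 0 := by
      intro k h
      have h3 := (hk0 (k + k0) (by omega)).1
      rw [h, norm_zero] at h3
      norm_num at h3
    have hlog : ∀ k, Complex.exp (Complex.log (nwz η T (k + k0))) = nwz η T (k + k0) :=
      fun k => Complex.exp_log (hne k)
    have hsh : Tendsto (fun k => nwz η T (k + k0)) atTop (Bornology.cobounded ℂ) :=
      hζ.comp (tendsto_add_atTop_nat k0)
    refine ⟨fun k => Complex.log (nwz η T (k + k0)), fun k => ?_, fun k => ?_, ?_, ?_⟩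
    · show -Real.log 2 < (Complex.log (nwz η T (k + k0))).re
      rw [Complex.log_re]
      have h3 := (hk0 (k + k0) (by omega)).1
      have h4 : Real.log (1 / 2) < Real.log ‖nwz η T (k + k0)‖ :=
        Real.log_lt_log (by norm_num) h3
      rw [one_div, Real.log_inv] at h4
      exact h4
    · show s (Complex.exp _) ≠ 0
      rw [hlog]
      exact fun h => (hk0 (k + k0) (by omega)).2 (by rw [h, mul_zero])
    · show Tendsto (fun k => s (Complex.exp (Complex.log (nwz η T (k + k0))))) atTop (𝓝 0)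
      simp only [hlog]
      have h3 : Tendsto (fun k => (nwz η T (k + k0))⁻¹ *
          (nwz η T (k + k0) * s (nwz η T (k + k0)))) atTop (𝓝 (0 * σ)) :=
        (tendsto_inv₀_cobounded.comp hsh).mul (hs.comp hsh)
      rw [zero_mul] at h3
      refine h3.congr fun k => ?_
      rw [← mul_assoc, inv_mul_cancel₀ (hne k), one_mul]
    · show Tendsto (fun k => z (Complex.exp (Complex.log (nwz η T (k + k0))))) atTop (𝓝 T)
      simp only [hlog]
      have h3 := hz.comp hsh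
      have h4 : Tendsto (fun k => (z (nwz η T (k + k0)) -
          η * (Complex.exp (nwz η T (k + k0)) - 1)) + T) atTop (𝓝 (0 + T)) :=
        Tendsto.add_const T h3
      rw [zero_add] at h4
      refine h4.congr fun k => ?_
      rw [nwz_exp hη hT]
      ring

end Pool.Agent.K3
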