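import Mathlib

/-!
# Double power series in a commutative Banach algebra (MP_1209e6_ag, Theorem K, piece P4)
-/

set_option autoImplicit false
set_option linter.unusedSectionVars false

namespace Pool.Agent.K3

section

variable {A : Type} [NormedCommRing A] [NormedAlgebra ℂ A]

/-- value of the double power series with coefficients `c` in a Banach algebra -/
noncomputable def psA (c : ℕ → ℕ → ℂ) (x y : A) : A :=
  ∑' p : ℕ × ℕ, c p.1 p.2 • (x ^ p.1 * y ^ p.2)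

theorem psA_geom {a b : ℝ} (ha : 0 ≤ a) (ha1 : a < 1) (hb : 0 ≤ b) (hb1 : b < 1) :
    Summable fun p : ℕ × ℕ => a ^ p.1 * b ^ p.2 :=
  (summable_geometric_of_lt_one ha ha1).mul_of_nonneg (summable_geometric_of_lt_one hb hb1)
    (fun _ => pow_nonneg ha _) (fun _ => pow_nonneg hb _)

theorem psA_C_nonneg {c : ℕ → ℕ → ℂ} {C K : ℝ} (hc : ∀ p q, ‖c p q‖ ≤ C * K ^ (p + q)) :
    0 ≤ C := by
  have := hc 0 0
  simp only [add_zero, pow_zero, mul_one] at this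
  exact (norm_nonneg _).trans this

variable [NormOneClass A]

theorem psA_norm_pow (x : A) (n : ℕ) : ‖x ^ n‖ ≤ ‖x‖ ^ n := norm_pow_le x n

theorem psA_norm_term {c : ℕ → ℕ → ℂ} {C K : ℝ} (hK : 0 ≤ K)
    (hc : ∀ p q, ‖c p q‖ ≤ C * K ^ (p + q)) (x y : A) (p : ℕ × ℕ) :
    ‖c p.1 p.2 • (x ^ p.1 * y ^ p.2)‖ ≤ C * ((K * ‖x‖) ^ p.1 * (K * ‖y‖) ^ p.2) := by
  have hC := psA_C_nonneg hc
  calc ‖c p.1 p.2 • (x ^ p.1 * y ^ p.2)‖ ≤ ‖c p.1 p.2‖ * ‖x ^ p.1 * y ^ p.2‖ := norm_smul_le _ _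
    _ ≤ (C * K ^ (p.1 + p.2)) * (‖x‖ ^ p.1 * ‖y‖ ^ p.2) := by
        refine mul_le_mul (hc _ _) ((norm_mul_le _ _).trans ?_) (norm_nonneg _) (by positivity)
        exact mul_le_mul (psA_norm_pow _ _) (psA_norm_pow _ _) (norm_nonneg _) (by positivity)
    _ = C * ((K * ‖x‖) ^ p.1 * (K * ‖y‖) ^ p.2) := by rw [pow_add, mul_pow, mul_pow]; ring

theorem psA_summable_norm {c : ℕ → ℕ → ℂ} {C K : ℝ} (hK : 0 ≤ K)
    (hc : ∀ p q, ‖c p q‖ ≤ C * K ^ (p + q)) {x y : A} (hx : K * ‖x‖ < 1) (hy : K * ‖y‖ < 1) :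
    Summable fun p : ℕ × ℕ => ‖c p.1 p.2 • (x ^ p.1 * y ^ p.2)‖ :=
  Summable.of_nonneg_of_le (fun _ => norm_nonneg _) (psA_norm_term hK hc x y)
    ((psA_geom (by positivity) hx (by positivity) hy).mul_left C)

variable [CompleteSpace A]

theorem psA_summable {c : ℕ → ℕ → ℂ} {C K : ℝ} (hK : 0 ≤ K)
    (hc : ∀ p q, ‖c p q‖ ≤ C * K ^ (p + q)) {x y : A} (hx : K * ‖x‖ < 1) (hy : K * ‖y‖ < 1) :
    Summable fun p : ℕ × ℕ => c p.1 p.2 • (x ^ p.1 * y ^ p.2) :=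
  (psA_summable_norm hK hc hx hy).of_norm

theorem psA_norm_le {c : ℕ → ℕ → ℂ} {C K : ℝ} (hK : 0 ≤ K)
    (hc : ∀ p q, ‖c p q‖ ≤ C * K ^ (p + q)) {x y : A} (hx : K * ‖x‖ ≤ 1 / 2)
    (hy : K * ‖y‖ ≤ 1 / 2) : ‖psA c x y‖ ≤ 4 * C := by
  have hC := psA_C_nonneg hc
  have hx0 : 0 ≤ K * ‖x‖ := by positivity
  have hy0 : 0 ≤ K * ‖y‖ := by positivity
  have h2 : HasSum (fun p : ℕ × ℕ => ((1 : ℝ) / 2) ^ p.1 * (1 / 2) ^ p.2) (2 * 2) := by
    have h := hasSum_geometric_two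
    exact h.mul h (psA_geom (by norm_num) (by norm_num) (by norm_num) (by norm_num))
  have h3 : ‖psA c x y‖ ≤ C * (2 * 2) := by
    refine tsum_of_norm_bounded (h2.mul_left C) fun p => (psA_norm_term hK hc x y p).trans ?_
    refine mul_le_mul_of_nonneg_left ?_ hC
    exact mul_le_mul (pow_le_pow_left₀ hx0 hx _) (pow_le_pow_left₀ hy0 hy _) (by positivity)
      (by positivity)
  linarith

/-- a norm decreasing homomorphism commutes with double power series -/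
theorem psA_map {B : Type} [NormedCommRing B] [NormedAlgebra ℂ B] [NormOneClass B]
    [CompleteSpace B] (φ : A →ₐ[ℂ] B) (hφ : ∀ a, ‖φ a‖ ≤ ‖a‖) {c : ℕ → ℕ → ℂ} {C K : ℝ}
    (hK : 0 ≤ K) (hc : ∀ p q, ‖c p q‖ ≤ C * K ^ (p + q)) {x y : A} (hx : K * ‖x‖ < 1)
    (hy : K * ‖y‖ < 1) : φ (psA c x y) = psA c (φ x) (φ y) := by
  let f : A →L[ℂ] B := φ.toLinearMap.mkContinuous 1 fun a => by
    rw [one_mul]; exact hφ a
  have h1 : f (psA c x y) = ∑' p : ℕ × ℕ, f (c p.1 p.2 • (x ^ p.1 * y ^ p.2)) :=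
    f.map_tsum (psA_summable hK hc hx hy)
  have h2 : ∀ a, f a = φ a := fun a => rfl
  rw [← h2, h1]
  unfold psA
  refine tsum_congr fun p => ?_
  rw [h2, map_smul, map_mul, map_pow, map_pow]

theorem psA_zero (c : ℕ → ℕ → ℂ) : psA c (0 : A) 0 = c 0 0 • 1 := by
  unfold psA
  rw [tsum_eq_single (0, 0)]
  · simp
  · rintro ⟨p, q⟩ h
    simp only
    rcases Nat.eq_zero_or_pos p with hp | hp
    · rcases Nat.eq_zero_or_pos q with hq | hq
      · subst hp; subst hq; exact absurd rfl h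
      · rw [zero_pow hq.ne', mul_zero, smul_zero]
    · rw [zero_pow hp.ne', zero_mul, smul_zero]

theorem psA_add {c c' : ℕ → ℕ → ℂ} {C C' K : ℝ} (hK : 0 ≤ K)
    (hc : ∀ p q, ‖c p q‖ ≤ C * K ^ (p + q)) (hc' : ∀ p q, ‖c' p q‖ ≤ C' * K ^ (p + q)) {x y : A}
    (hx : K * ‖x‖ < 1) (hy : K * ‖y‖ < 1) :
    psA (fun p q => c p q + c' p q) x y = psA c x y + psA c' x y := by
  unfold psA
  rw [← (psA_summable hK hc hx hy).tsum_add (psA_summable hK hc' hx hy)]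
  exact tsum_congr fun p => add_smul _ _ _

theorem psA_smul (u : ℂ) {c : ℕ → ℕ → ℂ} {C K : ℝ} (hK : 0 ≤ K)
    (hc : ∀ p q, ‖c p q‖ ≤ C * K ^ (p + q)) {x y : A} (hx : K * ‖x‖ < 1) (hy : K * ‖y‖ < 1) :
    psA (fun p q => u * c p q) x y = u • psA c x y := by
  unfold psA
  rw [← (psA_summable hK hc hx hy).tsum_const_smul u]
  exact tsum_congr fun p => mul_smul _ _ _

theorem psA_pow_sub {r : ℝ} {x x' : A} (hx : ‖x‖ ≤ r) (hx' : ‖x'‖ ≤ r) (n : ℕ) :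
    r * ‖x ^ n - x' ^ n‖ ≤ n * r ^ n * ‖x - x'‖ := by
  have hr : 0 ≤ r := (norm_nonneg _).trans hx
  induction n with
  | zero => simp
  | succ n ih =>
    have h1 : x ^ (n + 1) - x' ^ (n + 1) = x ^ n * (x - x') + (x ^ n - x' ^ n) * x' := by ring
    have h2 : ‖x ^ (n + 1) - x' ^ (n + 1)‖ ≤ r ^ n * ‖x - x'‖ + ‖x ^ n - x' ^ n‖ * r := by
      rw [h1]
      refine (norm_add_le _ _).trans (add_le_add ?_ ?_)
      · refine (norm_mul_le _ _).trans (mul_le_mul_of_nonneg_right ?_ (norm_nonneg _))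
        exact (psA_norm_pow x n).trans (pow_le_pow_left₀ (norm_nonneg _) hx n)
      · exact (norm_mul_le _ _).trans (mul_le_mul_of_nonneg_left hx' (norm_nonneg _))
    calc r * ‖x ^ (n + 1) - x' ^ (n + 1)‖
        ≤ r * (r ^ n * ‖x - x'‖ + ‖x ^ n - x' ^ n‖ * r) := mul_le_mul_of_nonneg_left h2 hr
      _ = r ^ (n + 1) * ‖x - x'‖ + (r * ‖x ^ n - x' ^ n‖) * r := by ring
      _ ≤ r ^ (n + 1) * ‖x - x'‖ + (n * r ^ n * ‖x - x'‖) * r := by
          have := mul_le_mul_of_nonneg_right ih hr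
          linarith
      _ = ((n + 1 : ℕ) : ℝ) * r ^ (n + 1) * ‖x - x'‖ := by push_cast; ring

theorem psA_mono_sub {r : ℝ} {x x' y y' : A} (hx : ‖x‖ ≤ r) (hx' : ‖x'‖ ≤ r) (hy : ‖y‖ ≤ r)
    (hy' : ‖y'‖ ≤ r) (p q : ℕ) :
    r * ‖x ^ p * y ^ q - x' ^ p * y' ^ q‖ ≤
      (p + q) * r ^ (p + q) * (‖x - x'‖ + ‖y - y'‖) := by
  have hr : 0 ≤ r := (norm_nonneg _).trans hx
  have h1 : x ^ p * y ^ q - x' ^ p * y' ^ q =
      (x ^ p - x' ^ p) * y ^ q + x' ^ p * (y ^ q - y' ^ q) := by ring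
  have h2 : ‖x ^ p * y ^ q - x' ^ p * y' ^ q‖ ≤
      ‖x ^ p - x' ^ p‖ * r ^ q + r ^ p * ‖y ^ q - y' ^ q‖ := by
    rw [h1]
    refine (norm_add_le _ _).trans (add_le_add ?_ ?_)
    · refine (norm_mul_le _ _).trans (mul_le_mul_of_nonneg_left ?_ (norm_nonneg _))
      exact (psA_norm_pow y q).trans (pow_le_pow_left₀ (norm_nonneg _) hy q)
    · refine (norm_mul_le _ _).trans (mul_le_mul_of_nonneg_right ?_ (norm_nonneg _))
      exact (psA_norm_pow x' p).trans (pow_le_pow_left₀ (norm_nonneg _) hx' p)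
  have h3 := psA_pow_sub hx hx' p
  have h4 := psA_pow_sub hy hy' q
  have h5 : 0 ≤ r ^ p := pow_nonneg hr p
  have h6 : 0 ≤ r ^ q := pow_nonneg hr q
  calc r * ‖x ^ p * y ^ q - x' ^ p * y' ^ q‖
      ≤ r * (‖x ^ p - x' ^ p‖ * r ^ q + r ^ p * ‖y ^ q - y' ^ q‖) :=
        mul_le_mul_of_nonneg_left h2 hr
    _ = (r * ‖x ^ p - x' ^ p‖) * r ^ q + r ^ p * (r * ‖y ^ q - y' ^ q‖) := by ring
    _ ≤ (p * r ^ p * ‖x - x'‖) * r ^ q + r ^ p * (q * r ^ q * ‖y - y'‖) :=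
        add_le_add (mul_le_mul_of_nonneg_right h3 h6) (mul_le_mul_of_nonneg_left h4 h5)
    _ = r ^ (p + q) * (p * ‖x - x'‖ + q * ‖y - y'‖) := by rw [pow_add]; ring
    _ ≤ r ^ (p + q) * ((p + q) * (‖x - x'‖ + ‖y - y'‖)) := by
        refine mul_le_mul_of_nonneg_left ?_ (pow_nonneg hr _)
        have a1 : 0 ≤ (p : ℝ) * ‖y - y'‖ := by positivity
        have a2 : 0 ≤ (q : ℝ) * ‖x - x'‖ := by positivity
        nlinarith
    _ = (p + q) * r ^ (p + q) * (‖x - x'‖ + ‖y - y'‖) := by ring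

/-- **Lipschitz bound**: a double power series without terms of degree one is Lipschitz on the ball of
radius `r` with a constant of order `r` -/
theorem psA_lip {c : ℕ → ℕ → ℂ} {C K r : ℝ} (hK : 0 ≤ K)
    (hc : ∀ p q, ‖c p q‖ ≤ C * K ^ (p + q)) (h10 : c 1 0 = 0) (h01 : c 0 1 = 0) (hr : 0 < r)
    (hrK : K * r ≤ 1 / 4) {x x' y y' : A} (hx : ‖x‖ ≤ r) (hx' : ‖x'‖ ≤ r) (hy : ‖y‖ ≤ r)
    (hy' : ‖y'‖ ≤ r) :
    ‖psA c x y - psA c x' y'‖ ≤ 64 * C * K ^ 2 * r * (‖x - x'‖ + ‖y - y'‖) := by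
  have hC := psA_C_nonneg hc
  have hlt : ∀ u : A, ‖u‖ ≤ r → K * ‖u‖ < 1 := fun u hu =>
    (mul_le_mul_of_nonneg_left hu hK).trans_lt (by linarith)
  set D : ℝ := ‖x - x'‖ + ‖y - y'‖ with hD
  have hD0 : 0 ≤ D := by positivity
  have h0 : psA c x y - psA c x' y' =
      ∑' p : ℕ × ℕ, c p.1 p.2 • (x ^ p.1 * y ^ p.2 - x' ^ p.1 * y' ^ p.2) := by
    unfold psA
    rw [← (psA_summable hK hc (hlt x hx) (hlt y hy)).tsum_sub
      (psA_summable hK hc (hlt x' hx') (hlt y' hy'))]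
    exact tsum_congr fun p => (smul_sub _ _ _).symm
  have h2 : HasSum (fun p : ℕ × ℕ => ((1 : ℝ) / 2) ^ p.1 * (1 / 2) ^ p.2) (2 * 2) := by
    have h := hasSum_geometric_two
    exact h.mul h (psA_geom (by norm_num) (by norm_num) (by norm_num) (by norm_num))
  have hKr0 : 0 ≤ K * r := by positivity
  -- the bound of one term
  have hterm : ∀ p : ℕ × ℕ, ‖c p.1 p.2 • (x ^ p.1 * y ^ p.2 - x' ^ p.1 * y' ^ p.2)‖ ≤
      (16 * C * K ^ 2 * r * D) * (((1 : ℝ) / 2) ^ p.1 * (1 / 2) ^ p.2) := by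
    rintro ⟨p, q⟩
    simp only
    have hpos : 0 ≤ (16 * C * K ^ 2 * r * D) * (((1 : ℝ) / 2) ^ p * (1 / 2) ^ q) := by positivity
    rcases Nat.lt_or_ge (p + q) 2 with hpq | hpq
    · have hcase : (p = 0 ∧ q = 0) ∨ (p = 1 ∧ q = 0) ∨ (p = 0 ∧ q = 1) := by omega
      rcases hcase with ⟨rfl, rfl⟩ | ⟨rfl, rfl⟩ | ⟨rfl, rfl⟩
      · simpa using hpos
      · rw [h10, zero_smul, norm_zero]; exact hpos
      · rw [h01, zero_smul, norm_zero]; exact hpos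
    · have h3 := psA_mono_sub hx hx' hy hy' p q
      have h4 : r * ‖c p q • (x ^ p * y ^ q - x' ^ p * y' ^ q)‖ ≤
          C * ((p + q) * (K * r) ^ (p + q)) * D := by
        calc r * ‖c p q • (x ^ p * y ^ q - x' ^ p * y' ^ q)‖
            ≤ r * (‖c p q‖ * ‖x ^ p * y ^ q - x' ^ p * y' ^ q‖) :=
              mul_le_mul_of_nonneg_left (norm_smul_le _ _) hr.le
          _ = ‖c p q‖ * (r * ‖x ^ p * y ^ q - x' ^ p * y' ^ q‖) := by ring
          _ ≤ (C * K ^ (p + q)) * ((p + q) * r ^ (p + q) * D) :=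
              mul_le_mul (hc p q) h3 (by positivity) (by positivity)
          _ = C * ((p + q) * (K * r) ^ (p + q)) * D := by rw [mul_pow]; ring
      -- `(p + q) * t ^ (p + q) ≤ 16 * t ^ 2 * (1/2) ^ (p + q)`
      have h5 : ((p : ℝ) + q) * (K * r) ^ (p + q) ≤
          16 * (K * r) ^ 2 * ((1 / 2) ^ p * (1 / 2) ^ q) := by
        obtain ⟨m, hm⟩ := Nat.exists_eq_add_of_le hpq
        have e1 : (K * r) ^ (p + q) = (K * r) ^ 2 * (K * r) ^ m := by rw [hm, pow_add]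
        have e2 : (K * r) ^ m ≤ (1 / 4) ^ m := pow_le_pow_left₀ hKr0 hrK m
        have e3 : ((p : ℝ) + q) ≤ 2 ^ (p + q) := by
          have : p + q < 2 ^ (p + q) := Nat.lt_two_pow_self
          exact_mod_cast this.le
        have e4 : ((1 : ℝ) / 4) ^ m = 16 * (1 / 4) ^ (p + q) := by
          rw [hm, pow_add]; ring
        have e5 : ((1 : ℝ) / 2) ^ p * (1 / 2) ^ q = 2 ^ (p + q) * (1 / 4) ^ (p + q) := by
          rw [← pow_add, ← mul_pow]; norm_num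
        rw [e1, e5]
        calc ((p : ℝ) + q) * ((K * r) ^ 2 * (K * r) ^ m)
            ≤ 2 ^ (p + q) * ((K * r) ^ 2 * (K * r) ^ m) :=
              mul_le_mul_of_nonneg_right e3 (by positivity)
          _ ≤ 2 ^ (p + q) * ((K * r) ^ 2 * (16 * (1 / 4) ^ (p + q))) := by
              refine mul_le_mul_of_nonneg_left (mul_le_mul_of_nonneg_left ?_ (by positivity))
                (by positivity)
              rw [← e4]; exact e2
          _ = 16 * (K * r) ^ 2 * (2 ^ (p + q) * (1 / 4) ^ (p + q)) := by ring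
      have h6 : r * ‖c p q • (x ^ p * y ^ q - x' ^ p * y' ^ q)‖ ≤
          r * ((16 * C * K ^ 2 * r * D) * ((1 / 2) ^ p * (1 / 2) ^ q)) := by
        refine h4.trans ?_
        calc C * ((p + q) * (K * r) ^ (p + q)) * D
            ≤ C * (16 * (K * r) ^ 2 * ((1 / 2) ^ p * (1 / 2) ^ q)) * D :=
              mul_le_mul_of_nonneg_right (mul_le_mul_of_nonneg_left h5 hC) hD0
          _ = r * ((16 * C * K ^ 2 * r * D) * ((1 / 2) ^ p * (1 / 2) ^ q)) := by ring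
      exact le_of_mul_le_mul_left h6 hr
  rw [h0]
  refine (tsum_of_norm_bounded (h2.mul_left _) hterm).trans (le_of_eq ?_)
  ring

end

end Pool.Agent.K3
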