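import Pool.Agent.Lib_MP_1209e6_k3.Defs
import Pool.Agent.Lib_MP_1209e6_fl.D9

/-! PIECE SURF, cases 2 and 3: one derivation with only constants in its kernel; no non-constant element. -/

set_option autoImplicit false

open Filter Topology Pool.Agent.CampanaFlow

namespace Pool.Agent.K3

/-- a finite extension of a finitely generated field is finitely generated -/
theorem surfB_fg {K L : Type} [Field K] [Field L] [Algebra ℂ K] [Algebra ℂ L] [Algebra K L]
    [IsScalarTower ℂ K L] [FiniteDimensional K L]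
    (hfg : ∃ T : Finset K, IntermediateField.adjoin ℂ (T : Set K) = ⊤) :
    ∃ T : Finset L, IntermediateField.adjoin ℂ (T : Set L) = ⊤ := by
  have hess : Algebra.EssFiniteType ℂ K := IntermediateField.fg_top_iff.1 hfg
  have : Algebra.EssFiniteType ℂ L := Algebra.EssFiniteType.comp ℂ K L
  exact IntermediateField.fg_top_iff.2 this

/-- case 2: a very general orbit of `D` is dense -/
theorem orbit_case {K L : Type} [Field K] [Algebra ℂ K] [Field L] [Algebra ℂ L] [Algebra K L]
    [IsScalarTower ℂ K L] [FiniteDimensional K L]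
    (hfg : ∃ T : Finset K, IntermediateField.adjoin ℂ (T : Set K) = ⊤) (D : Derivation ℂ L L)
    (hD : ∃ (k : IntermediateField ℂ L) (N : ℕ) (x : Fin (N + 1) → L), (∀ l, x l ≠ 0) ∧
      IntermediateField.adjoin ℂ ((k : Set L) ∪ Set.range fun l => x l / x 0) = ⊤ ∧
      GlobalField k x D)
    (hc : ∀ u : L, D u = 0 → ∃ c : ℂ, u = algebraMap ℂ L c) (T : Finset K) :
    ∃ (R : Subalgebra ℂ K) (γ : ℂ → R →ₐ[ℂ] ℂ) (B : Set ℂ), (T : Set K) ⊆ R ∧
      IsCurve Set.univ γ B ∧ ∀ f : R, (∀ z, z ∉ B → γ z f = 0) → f = 0 := by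
  classical
  obtain ⟨S, d, hS, hT, hd, hcd⟩ := exists_ring (surfB_fg hfg) (fun _ : Unit => D) (fun _ => hD)
    (T.image (algebraMap K L))
  obtain ⟨p, hp⟩ := very_general S (fun _ : Unit => D) d hd (fun u hu => hc u (hu ()))
  obtain ⟨γ, B, hγ, hdense⟩ := dense_curve d (fun i => (hcd i).some) p hp
  let R : Subalgebra ℂ K := Algebra.adjoin ℂ (T : Set K)
  have hRS : ∀ f : R, algebraMap K L f ∈ S := by
    intro f
    have h1 : Algebra.adjoin ℂ (T : Set K) ≤ S.comap (IsScalarTower.toAlgHom ℂ K L) := by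
      rw [Algebra.adjoin_le_iff]
      intro x hx
      exact hT (Finset.mem_coe.2 (Finset.mem_image_of_mem _ hx))
    exact h1 f.2
  let ρ : R →ₐ[ℂ] S := ((IsScalarTower.toAlgHom ℂ K L).comp R.val).codRestrict S hRS
  have hρ : Function.Injective ρ := by
    intro a b hab
    have h1 : algebraMap K L a = algebraMap K L b := congrArg (fun s : S => (s : L)) hab
    exact Subtype.ext ((algebraMap K L).injective h1)
  refine ⟨R, fun z => (γ z).comp ρ, B, Algebra.subset_adjoin, ⟨hγ.disc, fun f => hγ.ana (ρ f),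
    fun f => hγ.mer (ρ f)⟩, fun f hf => ?_⟩
  have h2 := hdense (ρ f) hf
  apply hρ
  rw [h2, map_zero]

/-- case 3 does not occur on a surface -/
theorem const_case {K : Type} [Field K] [Algebra ℂ K] (htr : Algebra.trdeg ℂ K = 2)
    (h : ∀ u : K, ∃ c : ℂ, u = algebraMap ℂ K c) : False := by
  have h1 : Algebra.IsAlgebraic ℂ K := ⟨fun u => by
    obtain ⟨c, hc⟩ := h u
    rw [hc]
    exact isAlgebraic_algebraMap c⟩
  have h2 : Algebra.trdeg ℂ K = 0 := trdeg_eq_zero
  rw [h2] at htr
  norm_num at htr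

end Pool.Agent.K3
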