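import Pool.Agent.Lib_MP_1209e6_k3.SurfTwo
import Pool.Agent.Lib_MP_1209e6_k3.SurfB
import Pool.Agent.Lib_MP_1209e6_k3.FamCases

/-! PIECE SURF: the dense curve of a surface with covering families. -/

set_option autoImplicit false

open Filter Topology Pool.Agent.CampanaFlow

namespace Pool.Agent.K3

/-- Case 2 of `fam_cases` (only constants in the kernel of `D a` on `L a`): `exists_ring` (one derivation)
on `L a`, `very_general`, `dense_curve`, restricted to `R = adjoin ℂ T`. Case 1: `exists_ring` on `L a` for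
`D a` and on `L b` for `D b` gives `S₁, S₂` with `ChartData` and the images of `T` and of the `u j`; `stable`
on `M` with the images of generators of `S₁, S₂` under `j a, j b` (derivations `E b`, `E a`); a point `p`
(`avoid`) off the determinant and the derivatives of the simple relations of the generators (`indep`,
`alg_of_trdeg`, `rel_simple`); `hrel` from `rel_mul`; `node_curve`. -/
theorem surf_curve {K M : Type} [Field K] [Algebra ℂ K] [Field M] [Algebra ℂ M] [Algebra K M]
    [IsScalarTower ℂ K M] [FiniteDimensional K M]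
    (hfg : ∃ T : Finset K, IntermediateField.adjoin ℂ (T : Set K) = ⊤)
    (htr : Algebra.trdeg ℂ K = 2) {s : ℕ} (L : Fin s → Type) [∀ a, Field (L a)]
    [∀ a, Algebra ℂ (L a)] [∀ a, Algebra K (L a)] [∀ a, IsScalarTower ℂ K (L a)]
    [∀ a, FiniteDimensional K (L a)] (j : ∀ a, L a →ₐ[ℂ] M)
    (hj : ∀ a (u : K), j a (algebraMap K (L a) u) = algebraMap K M u)
    (D : ∀ a, Derivation ℂ (L a) (L a)) (E : Fin s → Derivation ℂ M M)
    (hE : ∀ a f, E a (j a f) = j a (D a f))
    (hD : ∀ a, ∃ (k : IntermediateField ℂ (L a)) (N : ℕ) (x : Fin (N + 1) → L a), (∀ l, x l ≠ 0) ∧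
      IntermediateField.adjoin ℂ ((k : Set (L a)) ∪ Set.range fun l => x l / x 0) = ⊤ ∧
      GlobalField k x (D a))
    (hc : ∀ u : M, (∀ a, E a u = 0) → ∃ c : ℂ, u = algebraMap ℂ M c) (T : Finset K) :
    ∃ (R : Subalgebra ℂ K) (γ : ℂ → R →ₐ[ℂ] ℂ) (B : Set ℂ), (T : Set K) ⊆ R ∧
      IsCurve Set.univ γ B ∧ ∀ f : R, (∀ z, z ∉ B → γ z f = 0) → f = 0 := by
  rcases fam_cases (K := K) L j D E hE hc with ⟨a, b, u, h⟩ | ⟨a, ha⟩ | h
  · exact surf_two hfg htr (j a) (j b) (hj a) (hj b) (D a) (D b) (E a) (E b) (hE a) (hE b) (hD a)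
      (hD b) u h T
  · exact orbit_case hfg (D a) (hD a) ha T
  · exact (const_case htr h).elim

end Pool.Agent.K3
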