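import Pool.Agent.Lib_MP_1209e6_k3.NodeCurve
import Pool.Agent.Lib_MP_1209e6_k3.Rel
import Pool.Agent.Lib_MP_1209e6_k3.Stable
import Pool.Agent.Lib_MP_1209e6_fl.D7
import Pool.Agent.Lib_MP_1209e6_fl.D2

/-! PIECE SURF, the case of two independent derivations. -/

set_option autoImplicit false

open Filter Topology Pool.Agent.CampanaFlow

namespace Pool.Agent.K3

/-- restriction of a homomorphism of fields to subalgebras -/
noncomputable def stRes {A B : Type} [Field A] [Algebra ℂ A] [Field B] [Algebra ℂ B] (σ : A →ₐ[ℂ] B)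
    (S : Subalgebra ℂ A) (S' : Subalgebra ℂ B) (h : ∀ a ∈ S, σ a ∈ S') : S →ₐ[ℂ] S' :=
  (σ.comp S.val).codRestrict S' (fun a => h a a.2)

theorem stRes_coe {A B : Type} [Field A] [Algebra ℂ A] [Field B] [Algebra ℂ B] (σ : A →ₐ[ℂ] B)
    (S : Subalgebra ℂ A) (S' : Subalgebra ℂ B) (h : ∀ a ∈ S, σ a ∈ S') (a : S) :
    ((stRes σ S S' h a : S') : B) = σ a := rfl

/-- a finite set which controls the image of a finitely generated subalgebra -/
theorem st_gen {A B : Type} [Field A] [Algebra ℂ A] [Field B] [Algebra ℂ B] (σ : A →ₐ[ℂ] B)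
    (S : Subalgebra ℂ A) [Algebra.FiniteType ℂ S] :
    ∃ T : Finset B, ∀ S' : Subalgebra ℂ B, (T : Set B) ⊆ S' → ∀ a ∈ S, σ a ∈ S' := by
  classical
  obtain ⟨t, ht⟩ := (Subalgebra.fg_iff_finiteType S).2 inferInstance
  refine ⟨t.image σ, fun S' hS' a ha => ?_⟩
  have h1 : S ≤ S'.comap σ := by
    rw [← ht]
    refine Algebra.adjoin_le fun b hb => ?_
    exact hS' (Finset.mem_coe.2 (Finset.mem_image_of_mem σ hb))
  exact h1 ha

theorem surf_two {K M : Type} [Field K] [Algebra ℂ K] [Field M] [Algebra ℂ M] [Algebra K M]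
    [IsScalarTower ℂ K M] [FiniteDimensional K M]
    (hfg : ∃ T : Finset K, IntermediateField.adjoin ℂ (T : Set K) = ⊤)
    (htr : Algebra.trdeg ℂ K = 2) {La Lb : Type} [Field La] [Algebra ℂ La] [Algebra K La]
    [IsScalarTower ℂ K La] [FiniteDimensional K La] [Field Lb] [Algebra ℂ Lb] [Algebra K Lb]
    [IsScalarTower ℂ K Lb] [FiniteDimensional K Lb] (ja : La →ₐ[ℂ] M) (jb : Lb →ₐ[ℂ] M)
    (hja : ∀ u : K, ja (algebraMap K La u) = algebraMap K M u)
    (hjb : ∀ u : K, jb (algebraMap K Lb u) = algebraMap K M u)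
    (Da : Derivation ℂ La La) (Db : Derivation ℂ Lb Lb) (Ea Eb : Derivation ℂ M M)
    (hEa : ∀ f, Ea (ja f) = ja (Da f)) (hEb : ∀ f, Eb (jb f) = jb (Db f))
    (hDa : ∃ (k : IntermediateField ℂ La) (N : ℕ) (x : Fin (N + 1) → La), (∀ l, x l ≠ 0) ∧
      IntermediateField.adjoin ℂ ((k : Set La) ∪ Set.range fun l => x l / x 0) = ⊤ ∧
      GlobalField k x Da)
    (hDb : ∃ (k : IntermediateField ℂ Lb) (N : ℕ) (x : Fin (N + 1) → Lb), (∀ l, x l ≠ 0) ∧
      IntermediateField.adjoin ℂ ((k : Set Lb) ∪ Set.range fun l => x l / x 0) = ⊤ ∧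
      GlobalField k x Db)
    (u : Fin 2 → K)
    (hdet : Ea (algebraMap K M (u 0)) * Eb (algebraMap K M (u 1)) -
      Ea (algebraMap K M (u 1)) * Eb (algebraMap K M (u 0)) ≠ 0) (T : Finset K) :
    ∃ (R : Subalgebra ℂ K) (γ : ℂ → R →ₐ[ℂ] ℂ) (B : Set ℂ), (T : Set K) ⊆ R ∧
      IsCurve Set.univ γ B ∧ ∀ f : R, (∀ z, z ∉ B → γ z f = 0) → f = 0 := by
  classical
  have hess : Algebra.EssFiniteType ℂ K := IntermediateField.fg_top_iff.1 hfg
  have hfgA : ∃ T : Finset La, IntermediateField.adjoin ℂ (T : Set La) = ⊤ := by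
    have : Algebra.EssFiniteType ℂ La := Algebra.EssFiniteType.comp ℂ K La
    exact IntermediateField.fg_top_iff.2 this
  have hfgB : ∃ T : Finset Lb, IntermediateField.adjoin ℂ (T : Set Lb) = ⊤ := by
    have : Algebra.EssFiniteType ℂ Lb := Algebra.EssFiniteType.comp ℂ K Lb
    exact IntermediateField.fg_top_iff.2 this
  have hfgM : ∃ T : Finset M, IntermediateField.adjoin ℂ (T : Set M) = ⊤ := by
    have : Algebra.EssFiniteType ℂ M := Algebra.EssFiniteType.comp ℂ K M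
    exact IntermediateField.fg_top_iff.2 this
  set T' : Finset K := insert (u 0) (insert (u 1) T) with hT'
  obtain ⟨R, hRdef⟩ : ∃ R : Subalgebra ℂ K, R = Algebra.adjoin ℂ (T' : Set K) := ⟨_, rfl⟩
  have hTR : (T' : Set K) ⊆ R := by
    rw [hRdef]
    exact Algebra.subset_adjoin
  have huR : ∀ i, u i ∈ R := by
    intro i
    apply hTR
    fin_cases i
    · simp [hT']
    · simp [hT']
  -- the rings `S₁`, `S₂`
  obtain ⟨S₁, d₁, hS₁, hT₁, hd₁, hcd₁⟩ := exists_ring hfgA (ι := Unit) (fun _ => Da)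
    (fun _ => hDa) (T'.image (algebraMap K La))
  obtain ⟨S₂, d₂, hS₂, hT₂, hd₂, hcd₂⟩ := exists_ring hfgB (ι := Unit) (fun _ => Db)
    (fun _ => hDb) (T'.image (algebraMap K Lb))
  obtain ⟨G₁, hG₁⟩ := st_gen ja S₁
  obtain ⟨G₂, hG₂⟩ := st_gen jb S₂
  obtain ⟨S, d, hS, hTS, hd⟩ := stable hfgM ![Eb, Ea] (G₁ ∪ G₂)
  have hι₁ : ∀ a ∈ S₁, ja a ∈ S := hG₁ S fun b hb => hTS (by
    rw [Finset.coe_union]
    exact Or.inl hb)
  have hι₂ : ∀ a ∈ S₂, jb a ∈ S := hG₂ S fun b hb => hTS (by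
    rw [Finset.coe_union]
    exact Or.inr hb)
  have hj₁ : ∀ a ∈ R, IsScalarTower.toAlgHom ℂ K La a ∈ S₁ := by
    intro a ha
    have h1 : R ≤ S₁.comap (IsScalarTower.toAlgHom ℂ K La) := by
      rw [hRdef]
      refine Algebra.adjoin_le fun b hb => ?_
      exact hT₁ (Finset.mem_coe.2 (Finset.mem_image_of_mem _ hb))
    exact h1 ha
  have hj₂ : ∀ a ∈ R, IsScalarTower.toAlgHom ℂ K Lb a ∈ S₂ := by
    intro a ha
    have h1 : R ≤ S₂.comap (IsScalarTower.toAlgHom ℂ K Lb) := by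
      rw [hRdef]
      refine Algebra.adjoin_le fun b hb => ?_
      exact hT₂ (Finset.mem_coe.2 (Finset.mem_image_of_mem _ hb))
    exact h1 ha
  set ι₁ : S₁ →ₐ[ℂ] S := stRes ja S₁ S hι₁ with hι₁def
  set ι₂ : S₂ →ₐ[ℂ] S := stRes jb S₂ S hι₂ with hι₂def
  set j₁ : R →ₐ[ℂ] S₁ := stRes (IsScalarTower.toAlgHom ℂ K La) R S₁ hj₁ with hj₁def
  set j₂ : R →ₐ[ℂ] S₂ := stRes (IsScalarTower.toAlgHom ℂ K Lb) R S₂ hj₂ with hj₂def
  have hcoe₁ : ∀ a : R, ((ι₁ (j₁ a) : S) : M) = algebraMap K M a := fun a => hja a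
  have hcoe₂ : ∀ a : R, ((ι₂ (j₂ a) : S) : M) = algebraMap K M a := fun a => hjb a
  have hd0 : ∀ f : S, ((d 0 f : S) : M) = Eb f := fun f => hd 0 f
  have hd1 : ∀ f : S, ((d 1 f : S) : M) = Ea f := fun f => hd 1 f
  -- coordinates
  let y : Fin 2 → R := fun i => ⟨u i, huR i⟩
  have hindM : AlgebraicIndependent ℂ (fun i => algebraMap K M (u i)) :=
    indep Eb Ea (fun i => algebraMap K M (u i)) hdet
  have hind : AlgebraicIndependent ℂ u :=
    AlgebraicIndependent.of_comp (IsScalarTower.toAlgHom ℂ K M) hindM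
  have hrelK : ∀ f : K, ∃ P : Polynomial (MvPolynomial (Fin 2) ℂ), P ≠ 0 ∧
      P.eval₂ (MvPolynomial.aeval u).toRingHom f = 0 := by
    intro f
    refine alg_of_trdeg (AlgHom.id ℂ K) htr u hind (fun a => ?_) f
    refine ⟨Polynomial.X - Polynomial.C a, Polynomial.X_sub_C_ne_zero a, ?_⟩
    simp
  have hval : ((R.val : R →+* K)).comp
      (MvPolynomial.aeval y : MvPolynomial (Fin 2) ℂ →ₐ[ℂ] R).toRingHom =
      (MvPolynomial.aeval u : MvPolynomial (Fin 2) ℂ →ₐ[ℂ] K).toRingHom := by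
    have h1 : R.val.comp (MvPolynomial.aeval (R := ℂ) y) = MvPolynomial.aeval (R := ℂ) u := by
      rw [MvPolynomial.comp_aeval]
      rfl
    rw [← h1]
    rfl
  have hev : ∀ (P : Polynomial (MvPolynomial (Fin 2) ℂ)) (g : R),
      ((P.eval₂ (MvPolynomial.aeval y).toRingHom g : R) : K) =
        P.eval₂ (MvPolynomial.aeval u).toRingHom (g : K) := by
    intro P g
    have h1 := Polynomial.hom_eval₂ P (MvPolynomial.aeval y).toRingHom (R.val : R →+* K) g
    rw [hval] at h1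
    exact h1
  have hsimple : ∀ g : R, ∃ P : Polynomial (MvPolynomial (Fin 2) ℂ),
      P.eval₂ (MvPolynomial.aeval y).toRingHom g = 0 ∧
      P.derivative.eval₂ (MvPolynomial.aeval y).toRingHom g ≠ 0 := by
    intro g
    obtain ⟨P, h1, h2⟩ := rel_simple u hind (g : K) (hrelK g)
    refine ⟨P, Subtype.ext ?_, fun h => h2 ?_⟩
    · rw [hev, h1]
      rfl
    · rw [← hev, h]
      rfl
  choose P hP hP' using hsimple
  -- generators of `R`
  have hfin : ((Subtype.val : R → K) ⁻¹' (T' : Set K)).Finite :=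
    T'.finite_toSet.preimage Subtype.val_injective.injOn
  have hG : Algebra.adjoin ℂ (hfin.toFinset : Set R) = ⊤ := by
    rw [Set.Finite.coe_toFinset]
    subst hRdef
    exact Algebra.adjoin_adjoin_coe_preimage
  -- the point
  have hinj : ∀ a : R, a ≠ 0 → ι₁ (j₁ a) ≠ 0 := by
    intro a ha h0
    apply ha
    apply Subtype.ext
    have h1 := hcoe₁ a
    rw [h0] at h1
    exact ((map_eq_zero (algebraMap K M)).1 h1.symm)
  have hdet' : d 0 (ι₁ (j₁ (y 0))) * d 1 (ι₁ (j₁ (y 1))) -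
      d 0 (ι₁ (j₁ (y 1))) * d 1 (ι₁ (j₁ (y 0))) ≠ 0 := by
    intro h0
    apply hdet
    have h1 := congrArg (Subtype.val : S → M) h0
    have h2 : ((d 0 (ι₁ (j₁ (y 0))) * d 1 (ι₁ (j₁ (y 1))) -
      d 0 (ι₁ (j₁ (y 1))) * d 1 (ι₁ (j₁ (y 0))) : S) : M) =
      Eb (algebraMap K M (u 0)) * Ea (algebraMap K M (u 1)) -
        Eb (algebraMap K M (u 1)) * Ea (algebraMap K M (u 0)) := by
      have e0 : ∀ i, ((d 0 (ι₁ (j₁ (y i))) : S) : M) = Eb (algebraMap K M (u i)) := fun i => by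
        rw [hd0, hcoe₁]
      have e1 : ∀ i, ((d 1 (ι₁ (j₁ (y i))) : S) : M) = Ea (algebraMap K M (u i)) := fun i => by
        rw [hd1, hcoe₁]
      rw [← e0, ← e0, ← e1, ← e1]
      rfl
    have h3 : Eb (algebraMap K M (u 0)) * Ea (algebraMap K M (u 1)) -
        Eb (algebraMap K M (u 1)) * Ea (algebraMap K M (u 0)) = 0 := by
      rw [← h2]
      exact h1
    linear_combination -h3
  obtain ⟨p, hp⟩ := avoid (S := S) (fun _ : ℕ => (d 0 (ι₁ (j₁ (y 0))) * d 1 (ι₁ (j₁ (y 1))) -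
      d 0 (ι₁ (j₁ (y 1))) * d 1 (ι₁ (j₁ (y 0)))) * ∏ g ∈ hfin.toFinset,
        ι₁ (j₁ ((P g).derivative.eval₂ (MvPolynomial.aeval y).toRingHom g)))
    (fun _ => mul_ne_zero hdet' (Finset.prod_ne_zero_iff.2 fun g _ => hinj _ (hP' g)))
  have hp0 := hp 0
  rw [map_mul, map_prod] at hp0
  have hpdet := left_ne_zero_of_mul hp0
  have hpG := Finset.prod_ne_zero_iff.1 (right_ne_zero_of_mul hp0)
  obtain ⟨γ, B, hγ, hdense⟩ := node_curve (d 0) (d 1) ι₁ ι₂ (d₁ ()) (d₂ ())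
    (fun a => Subtype.ext (by
      rw [hd1]
      show ja ((d₁ () a : S₁) : La) = Ea (ja a)
      rw [hd₁, hEa]))
    (fun a => Subtype.ext (by
      rw [hd0]
      show jb ((d₂ () a : S₂) : Lb) = Eb (jb a)
      rw [hd₂, hEb]))
    (hcd₁ ()).some (hcd₂ ()).some j₁ j₂
    (fun a => Subtype.ext (by rw [hcoe₁, hcoe₂])) p y hfin.toFinset hG
    (fun g hg => ⟨P g, hP g, hpG g hg⟩) hpdet
    (fun f hf => by
      have hf0 : (f : K) ≠ 0 := fun h => hf (Subtype.ext h)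
      obtain ⟨c, Q, hc, hcQ⟩ := rel_mul u (f : K) hf0 (hrelK f)
      refine ⟨c, ι₁ (j₁ (Q.eval₂ (MvPolynomial.aeval y).toRingHom f)), hc, ?_⟩
      have h1 : MvPolynomial.aeval y c = f * Q.eval₂ (MvPolynomial.aeval y).toRingHom f := by
        apply Subtype.ext
        have h2 : ((MvPolynomial.aeval y c : R) : K) = MvPolynomial.aeval u c :=
          RingHom.congr_fun hval c
        rw [h2, hcQ, ← hev]
        rfl
      have h3 : MvPolynomial.aeval (fun j => ι₁ (j₁ (y j))) c =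
          (ι₁.comp j₁) (MvPolynomial.aeval y c) := by
        exact (MvPolynomial.comp_aeval_apply y (ι₁.comp j₁) c).symm
      rw [h3, h1, map_mul]
      rfl)
  refine ⟨R, γ, B, fun t ht => hTR ?_, hγ, hdense⟩
  simp only [hT', Finset.coe_insert]
  exact Set.mem_insert_of_mem _ (Set.mem_insert_of_mem _ ht)

end Pool.Agent.K3
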